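import Pool.Agent.U585.GA.Tup

/-!
# Pairs of tuples in blocks
-/

set_option autoImplicit false
set_option linter.unusedSectionVars false

open Finset

namespace Pool.Agent.U585.GA

open Pool.Agent.U585.GC (PN mem_PN)

lemma mult_count (u v d : ℕ) (hd : 1 ≤ d) (huv : u ≤ v) :
    (((Ico u v).filter (fun a => d ∣ a)).card : ℝ) ≤ ((v : ℝ) - u) / d + 1 := by
  have hd0 : (0 : ℝ) < d := by exact_mod_cast hd
  have h1 : ((Ico u v).filter (fun a => d ∣ a)).card ≤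
      (Ico ⌈(u : ℝ) / d⌉₊ ⌈(v : ℝ) / d⌉₊).card := by
    refine card_le_card_of_injOn (fun a => a / d) ?_ ?_
    · intro a ha
      rw [mem_coe, mem_filter, mem_Ico] at ha
      obtain ⟨⟨h1, h2⟩, k, rfl⟩ := ha
      rw [mem_coe, mem_Ico]
      beta_reduce
      rw [Nat.mul_div_cancel_left _ hd]
      constructor
      · rw [Nat.ceil_le, div_le_iff₀ hd0]
        have : (u : ℝ) ≤ ((d * k : ℕ) : ℝ) := by exact_mod_cast h1
        push_cast at this
        linarith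
      · rw [Nat.lt_ceil, lt_div_iff₀ hd0]
        have : ((d * k : ℕ) : ℝ) < v := by exact_mod_cast h2
        push_cast at this
        linarith
    · intro a ha b hb hab
      rw [mem_coe, mem_filter] at ha hb
      obtain ⟨-, k, rfl⟩ := ha
      obtain ⟨-, l, rfl⟩ := hb
      beta_reduce at hab
      rw [Nat.mul_div_cancel_left _ hd, Nat.mul_div_cancel_left _ hd] at hab
      rw [hab]
  have h2 : ⌈(u : ℝ) / d⌉₊ ≤ ⌈(v : ℝ) / d⌉₊ :=
    Nat.ceil_mono (div_le_div_of_nonneg_right (by exact_mod_cast huv) hd0.le)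
  rw [Nat.card_Ico] at h1
  have h3 : (((Ico u v).filter (fun a => d ∣ a)).card : ℝ) ≤
      ((⌈(v : ℝ) / d⌉₊ - ⌈(u : ℝ) / d⌉₊ : ℕ) : ℝ) := by exact_mod_cast h1
  rw [Nat.cast_sub h2] at h3
  have h4 := Nat.ceil_lt_add_one (by positivity : (0 : ℝ) ≤ (v : ℝ) / d)
  have h5 := Nat.le_ceil ((u : ℝ) / d)
  rw [sub_div]
  linarith

lemma card_interval (S : Finset ℕ) (u l : ℝ) (hl : 0 ≤ l) (h : ∀ b ∈ S, u < b ∧ (b : ℝ) ≤ u + l) :
    (S.card : ℝ) ≤ l + 1 := by
  have h1 : S.card ≤ (Ioc ⌊u⌋ ⌊u + l⌋).card := by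
    refine card_le_card_of_injOn (fun b => (b : ℤ)) ?_ ?_
    · intro b hb
      have := h b (by exact_mod_cast hb)
      rw [mem_coe, mem_Ioc]
      constructor
      · rw [Int.floor_lt]; exact_mod_cast this.1
      · rw [Int.le_floor]; exact_mod_cast this.2
    · intro a _ b _ hab
      beta_reduce at hab
      exact_mod_cast hab
  rw [Int.card_Ioc] at h1
  have h2 : ⌊u⌋ ≤ ⌊u + l⌋ := Int.floor_mono (by linarith)
  have h3 : ((S.card : ℕ) : ℤ) ≤ ⌊u + l⌋ - ⌊u⌋ := by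
    have : ((S.card : ℕ) : ℤ) ≤ ((⌊u + l⌋ - ⌊u⌋).toNat : ℤ) := by exact_mod_cast h1
    rwa [Int.toNat_of_nonneg (by omega)] at this
  have h4 : (S.card : ℝ) ≤ (⌊u + l⌋ : ℝ) - ⌊u⌋ := by exact_mod_cast h3
  have h5 := Int.floor_le (u + l)
  have h6 := Int.lt_floor_add_one u
  linarith

open Classical in
/-- the window of a block -/
noncomputable def Wb (X : ℝ) (h₀ b : ℕ) : Finset ℕ :=
  (Ico ((b - 1) * h₀) ((b + 2) * h₀)).filter
    (fun a => Squarefree a ∧ X / 2 ≤ a ∧ (a : ℝ) ≤ 3 * X)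

lemma mem_Wb {X : ℝ} {h₀ b a : ℕ} : a ∈ Wb X h₀ b ↔ (b - 1) * h₀ ≤ a ∧ a < (b + 2) * h₀ ∧
    Squarefree a ∧ X / 2 ≤ a ∧ (a : ℝ) ≤ 3 * X := by
  unfold Wb
  rw [mem_filter, mem_Ico]
  tauto

lemma Wb_len (b h₀ : ℕ) : (b + 2) * h₀ ≤ (b - 1) * h₀ + 3 * h₀ := by
  rw [← add_mul]
  exact Nat.mul_le_mul_right _ (by omega)

lemma Wb_win (X : ℝ) (h₀ b : ℕ) : IsWin (3 * h₀) (Wb X h₀ b) := by
  classical
  refine ⟨fun a ha => (mem_Wb.1 ha).2.2.1, fun d hd => ?_⟩
  have hd0 : (0 : ℝ) < d := by exact_mod_cast hd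
  have hle : (b - 1) * h₀ ≤ (b + 2) * h₀ := Nat.mul_le_mul_right _ (by omega)
  have h1 : (Wb X h₀ b).filter (fun a => d ∣ a) ⊆
      (Ico ((b - 1) * h₀) ((b + 2) * h₀)).filter (fun a => d ∣ a) := by
    intro a ha
    rw [mem_filter, mem_Wb] at ha
    rw [mem_filter, mem_Ico]
    exact ⟨⟨ha.1.1, ha.1.2.1⟩, ha.2⟩
  have h2 := mult_count _ _ d hd hle
  have h3 : (((Wb X h₀ b).filter (fun a => d ∣ a)).card : ℝ) ≤
      ((Ico ((b - 1) * h₀) ((b + 2) * h₀)).filter (fun a => d ∣ a)).card := by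
    exact_mod_cast card_le_card h1
  refine h3.trans (h2.trans ?_)
  have h4 : (((b + 2) * h₀ : ℕ) : ℝ) ≤ (((b - 1) * h₀ + 3 * h₀ : ℕ) : ℝ) := by
    exact_mod_cast Wb_len b h₀
  rw [Nat.cast_add ((b - 1) * h₀) (3 * h₀)] at h4
  push_cast at h4 ⊢
  gcongr
  linarith

/-- the blocks are far from each other and no integers in them have a large common divisor -/
def Good (X G : ℝ) (h₀ b b' : ℕ) : Prop :=
  (b + 3 ≤ b' ∨ b' + 3 ≤ b) ∧ ∀ a ∈ Wb X h₀ b, ∀ a' ∈ Wb X h₀ b', (Nat.gcd a a' : ℝ) ≤ G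

lemma Wb_disj {X : ℝ} {h₀ b b' : ℕ} (h : b + 3 ≤ b' ∨ b' + 3 ≤ b) {a : ℕ} (h1 : a ∈ Wb X h₀ b)
    (h2 : a ∈ Wb X h₀ b') : False := by
  rw [mem_Wb] at h1 h2
  rcases h with h | h
  · have : (b + 2) * h₀ ≤ (b' - 1) * h₀ := Nat.mul_le_mul_right _ (by omega)
    omega
  · have : (b' + 2) * h₀ ≤ (b - 1) * h₀ := Nat.mul_le_mul_right _ (by omega)
    omega

open Classical in
/-- the number of bad pairs of blocks -/
lemma bad_pairs {X G A : ℝ} {h₀ : ℕ} (hh : 1 ≤ h₀) (hG : 0 < G) (hA : 1 ≤ A)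
    (hAG : 3 * X ≤ A * G) (Bn : ℕ) :
    (((range Bn ×ˢ range Bn).filter (fun z => ¬ Good X G h₀ z.1 z.2)).card : ℝ) ≤
      12 * A ^ 3 * Bn := by
  set A0 := ⌊A⌋₊ with hA0
  have hA0A : (A0 : ℝ) ≤ A := Nat.floor_le (by linarith)
  have hh0 : (0 : ℝ) < h₀ := by exact_mod_cast hh
  -- near pairs
  set S1 := (range Bn).biUnion (fun b' => (Icc (b' - 2) (b' + 2)).image fun b => (b, b')) with hS1
  have c1 : (S1.card : ℝ) ≤ 5 * Bn := by
    have h1 : S1.card ≤ ∑ b' ∈ range Bn, 5 := by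
      refine card_biUnion_le.trans (sum_le_sum fun b' _ => ?_)
      refine card_image_le.trans ?_
      rw [Nat.card_Icc]
      omega
    rw [sum_const, card_range, smul_eq_mul] at h1
    have : (S1.card : ℝ) ≤ ((Bn * 5 : ℕ) : ℝ) := by exact_mod_cast h1
    push_cast at this
    linarith
  -- the blocks with a large common divisor
  set Ib : ℕ × ℕ × ℕ → Finset ℕ := fun t => (range Bn).filter (fun b : ℕ =>
    (((t.2.2 - 1 : ℕ) : ℝ) * ((t.1 : ℝ) / t.2.1) - 2 < b ∧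
      (b : ℝ) ≤ ((t.2.2 - 1 : ℕ) : ℝ) * ((t.1 : ℝ) / t.2.1) - 2 + (3 * ((t.1 : ℝ) / t.2.1) + 3)))
    with hIb
  set S2 := (Icc 1 A0 ×ˢ (Icc 1 A0 ×ˢ range Bn)).biUnion
    (fun t => (Ib t).image fun b => (b, t.2.2)) with hS2
  have c2 : (S2.card : ℝ) ≤ 7 * A ^ 3 * Bn := by
    have h1 : ∀ t ∈ Icc 1 A0 ×ˢ (Icc 1 A0 ×ˢ range Bn),
        (((Ib t).image fun b => (b, t.2.2)).card : ℝ) ≤ 7 * A := by
      intro t ht
      rw [mem_product, mem_product, mem_Icc, mem_Icc] at ht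
      have ht1 : (t.1 : ℝ) ≤ A := le_trans (by exact_mod_cast ht.1.2) hA0A
      have ht2 : (1 : ℝ) ≤ t.2.1 := by exact_mod_cast ht.2.1.1
      have hρ0 : 0 ≤ (t.1 : ℝ) / t.2.1 := by positivity
      have hρ : (t.1 : ℝ) / t.2.1 ≤ A := (div_le_self (Nat.cast_nonneg _) ht2).trans ht1
      have h2 : (((Ib t).image fun b => (b, t.2.2)).card : ℝ) ≤ ((Ib t).card : ℝ) := by
        exact_mod_cast card_image_le
      have h3 := card_interval (Ib t) (((t.2.2 - 1 : ℕ) : ℝ) * ((t.1 : ℝ) / t.2.1) - 2)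
        (3 * ((t.1 : ℝ) / t.2.1) + 3) (by positivity) fun b hb => by
          rw [hIb, mem_filter] at hb
          exact hb.2
      linarith
    have h2 : (S2.card : ℝ) ≤ ∑ t ∈ Icc 1 A0 ×ˢ (Icc 1 A0 ×ˢ range Bn),
        (((Ib t).image fun b => (b, t.2.2)).card : ℝ) := by
      exact_mod_cast card_biUnion_le
    refine (h2.trans (sum_le_sum h1)).trans ?_
    rw [sum_const, card_product, card_product, Nat.card_Icc, Nat.add_sub_cancel, card_range,
      nsmul_eq_mul]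
    push_cast
    have hA00 : (0 : ℝ) ≤ A0 := Nat.cast_nonneg _
    have hBn : (0 : ℝ) ≤ Bn := Nat.cast_nonneg _
    calc (A0 : ℝ) * (A0 * Bn) * (7 * A) ≤ A * (A * Bn) * (7 * A) := by gcongr
      _ = _ := by ring
  have hsub : (range Bn ×ˢ range Bn).filter (fun z => ¬ Good X G h₀ z.1 z.2) ⊆ S1 ∪ S2 := by
    rintro ⟨b, b'⟩ hz
    rw [mem_filter, mem_product, mem_range, mem_range] at hz
    obtain ⟨⟨hb, hb'⟩, hng⟩ := hz
    dsimp only at hb hb' hng
    rw [mem_union]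
    by_cases hfar : b + 3 ≤ b' ∨ b' + 3 ≤ b
    · right
      have h1 : ∃ a ∈ Wb X h₀ b, ∃ a' ∈ Wb X h₀ b', G < Nat.gcd a a' := by
        by_contra hcon
        push Not at hcon
        exact hng ⟨hfar, hcon⟩
      obtain ⟨a, ha, a', ha', hg⟩ := h1
      rw [mem_Wb] at ha ha'
      set g := Nat.gcd a a' with hgdef
      have hg0 : 0 < g := by
        rcases Nat.eq_zero_or_pos g with h | h
        · rw [h] at hg
          simp at hg
          linarith
        · exact h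
      obtain ⟨α, hα⟩ := Nat.gcd_dvd_left a a'
      obtain ⟨α', hα'⟩ := Nat.gcd_dvd_right a a'
      rw [← hgdef] at hα hα'
      have hgR : (0 : ℝ) < g := by exact_mod_cast hg0
      have ha0 : a ≠ 0 := ha.2.2.1.ne_zero
      have ha0' : a' ≠ 0 := ha'.2.2.1.ne_zero
      have hα1 : 1 ≤ α := Nat.one_le_iff_ne_zero.2 (by rintro rfl; simp at hα; exact ha0 hα)
      have hα1' : 1 ≤ α' := Nat.one_le_iff_ne_zero.2 (by rintro rfl; simp at hα'; exact ha0' hα')
      have hbound : ∀ (y β : ℕ), y = g * β → (y : ℝ) ≤ 3 * X → β ≤ A0 := by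
        intro y β hy hy3
        refine Nat.le_floor ?_
        have e1 : (y : ℝ) = g * β := by exact_mod_cast hy
        rw [e1] at hy3
        have e2 : (g : ℝ) * β ≤ A * g := hy3.trans (hAG.trans
          (mul_le_mul_of_nonneg_left hg.le (by linarith)))
        have e3 : (g : ℝ) * β ≤ g * A := by linarith
        exact le_of_mul_le_mul_left e3 hgR
      rw [hS2, mem_biUnion]
      refine ⟨(α, α', b'), ?_, ?_⟩
      · rw [mem_product, mem_product, mem_Icc, mem_Icc, mem_range]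
        exact ⟨⟨hα1, hbound a α hα ha.2.2.2.2⟩, ⟨hα1', hbound a' α' hα' ha'.2.2.2.2⟩, hb'⟩
      · rw [mem_image]
        refine ⟨b, ?_, rfl⟩
        rw [hIb, mem_filter, mem_range]
        dsimp only
        refine ⟨hb, ?_⟩
        set ρ := (α : ℝ) / α' with hρ
        have hα'R : (0 : ℝ) < α' := by exact_mod_cast hα1'
        have hαR : (0 : ℝ) < α := by exact_mod_cast hα1
        have hρ0 : 0 < ρ := by positivity
        have hrel : (a : ℝ) = a' * ρ := by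
          have e1 : (a : ℝ) = g * α := by exact_mod_cast hα
          have e2 : (a' : ℝ) = g * α' := by exact_mod_cast hα'
          rw [e1, e2, hρ]
          field_simp
        have f1 : (((b - 1) * h₀ : ℕ) : ℝ) ≤ a := by exact_mod_cast ha.1
        have f2 : (a : ℝ) < (((b + 2) * h₀ : ℕ) : ℝ) := by exact_mod_cast ha.2.1
        have f3 : (((b' - 1) * h₀ : ℕ) : ℝ) ≤ a' := by exact_mod_cast ha'.1
        have f4 : (a' : ℝ) < (((b' + 2) * h₀ : ℕ) : ℝ) := by exact_mod_cast ha'.2.1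
        push_cast at f1 f2 f3 f4
        have g1 : (b : ℝ) - 1 ≤ ((b - 1 : ℕ) : ℝ) := by
          rcases Nat.eq_zero_or_pos b with h | h
          · rw [h]; simp
          · rw [Nat.cast_sub h]; simp
        have g2 : (b' : ℝ) - 1 ≤ ((b' - 1 : ℕ) : ℝ) := by
          rcases Nat.eq_zero_or_pos b' with h | h
          · rw [h]; simp
          · rw [Nat.cast_sub h]; simp
        have k1 : ((b' - 1 : ℕ) : ℝ) * ρ * h₀ ≤ a := by
          rw [hrel]
          calc ((b' - 1 : ℕ) : ℝ) * ρ * h₀ = ((b' - 1 : ℕ) : ℝ) * h₀ * ρ := by ring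
            _ ≤ a' * ρ := mul_le_mul_of_nonneg_right f3 hρ0.le
        have k2 : (a : ℝ) ≤ (((b' - 1 : ℕ) : ℝ) + 3) * ρ * h₀ := by
          rw [hrel]
          calc (a' : ℝ) * ρ ≤ ((b' + 2) * h₀) * ρ := mul_le_mul_of_nonneg_right f4.le hρ0.le
            _ ≤ ((((b' - 1 : ℕ) : ℝ) + 3) * h₀) * ρ := by
                refine mul_le_mul_of_nonneg_right (mul_le_mul_of_nonneg_right ?_ hh0.le) hρ0.le
                linarith
            _ = _ := by ring
        constructor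
        · have : ((b' - 1 : ℕ) : ℝ) * ρ * h₀ < ((b : ℝ) + 2) * h₀ := lt_of_le_of_lt k1 f2
          have := lt_of_mul_lt_mul_right this hh0.le
          linarith
        · have : ((b : ℝ) - 1) * h₀ ≤ ((((b' - 1 : ℕ) : ℝ) + 3) * ρ) * h₀ :=
            (mul_le_mul_of_nonneg_right g1 hh0.le).trans (f1.trans k2)
          have := le_of_mul_le_mul_right this hh0
          linarith
    · left
      push Not at hfar
      rw [hS1, mem_biUnion]
      refine ⟨b', mem_range.2 hb', ?_⟩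
      rw [mem_image]
      exact ⟨b, mem_Icc.2 ⟨by omega, by omega⟩, rfl⟩
  have h1 := (card_le_card hsub).trans (card_union_le _ _)
  have h2 : (((range Bn ×ˢ range Bn).filter (fun z => ¬ Good X G h₀ z.1 z.2)).card : ℝ) ≤
      S1.card + S2.card := by exact_mod_cast h1
  have hA3 : 1 ≤ A ^ 3 := one_le_pow₀ hA
  have hBn : (0 : ℝ) ≤ Bn := Nat.cast_nonneg _
  have h3 : 5 * (Bn : ℝ) ≤ 5 * A ^ 3 * Bn := by nlinarith
  linarith

end Pool.Agent.U585.GA
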