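import Pool.Agent.U585.GA.Rad
import Pool.Agent.U585.GA.Blk

/-!
# The characteristic function of the sums in windows
-/

set_option autoImplicit false

open Finset MeasureTheory

namespace Pool.Agent.U585.GA

open Pool.Agent.U585.GC (rf MM ind)

lemma ii_ofReal {f : ℝ → ℝ} {a b : ℝ} (h : IntervalIntegrable f volume a b) :
    IntervalIntegrable (fun x => (f x : ℂ)) volume a b := ⟨h.1.ofReal, h.2.ofReal⟩

/-- the linear form in the window -/
noncomputable def W (N : ℕ) (H : ℝ) (c : ℕ → ℝ) (x : ℝ) : ℝ := ∑ n ∈ SN N, c n * ind H n x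

lemma W_meas (N : ℕ) (H : ℝ) (c : ℕ → ℝ) : Measurable (W N H c) :=
  Finset.measurable_fun_sum _ fun n _ => (ind_meas H n).const_mul _

lemma W_le (N : ℕ) (H : ℝ) (c : ℕ → ℝ) (x : ℝ) : |W N H c x| ≤ ∑ n ∈ SN N, |c n| := by
  unfold W
  refine (abs_sum_le_sum_abs _ _).trans (sum_le_sum fun n _ => ?_)
  rw [abs_mul, abs_of_nonneg (ind_nonneg H n x)]
  exact mul_le_of_le_one_right (abs_nonneg _) (ind_le_one _ _ _)

lemma W_pow_int (N : ℕ) (H : ℝ) (c : ℕ → ℝ) (j : ℕ) (X Y : ℝ) :
    IntervalIntegrable (fun x => W N H c x ^ j) volume X Y := by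
  refine (intervalIntegrable_const (c := (∑ n ∈ SN N, |c n|) ^ j)).mono_fun
    ((W_meas N H c).pow_const j).aestronglyMeasurable (ae_of_all _ fun x => ?_)
  beta_reduce
  rw [Real.norm_eq_abs, abs_pow, Real.norm_eq_abs]
  exact (pow_le_pow_left₀ (abs_nonneg _) (W_le N H c x) j).trans (le_abs_self _)

lemma W_exp_int (N : ℕ) (H : ℝ) (c : ℕ → ℝ) (u X Y : ℝ) :
    IntervalIntegrable (fun x => Complex.exp (Complex.I * ((u * W N H c x : ℝ) : ℂ)))
      volume X Y := by
  have hm := W_meas N H c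
  refine (intervalIntegrable_const (c := (1 : ℝ))).mono_fun ?_ (ae_of_all _ fun x => ?_)
  · exact (Complex.measurable_exp.comp ((Complex.measurable_ofReal.comp
      (hm.const_mul u)).const_mul Complex.I)).aestronglyMeasurable
  · beta_reduce
    rw [Complex.norm_exp_I_mul_ofReal]
    simp

/-- the moments -/
noncomputable def mW (N : ℕ) (X H : ℝ) (c : ℕ → ℝ) (j : ℕ) : ℝ :=
  (1 / X) * ∫ x in X..2 * X, W N H c x ^ j

/-- the characteristic function -/
noncomputable def cW (N : ℕ) (X H u : ℝ) (c : ℕ → ℝ) : ℂ :=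
  ((1 / X : ℝ) : ℂ) * ∫ x in X..2 * X, Complex.exp (Complex.I * ((u * W N H c x : ℝ) : ℂ))

/-- the Taylor polynomial of the characteristic function -/
noncomputable def tW (k : ℕ) (u : ℝ) (m : ℕ → ℝ) : ℂ :=
  ∑ j ∈ range (2 * k), (Complex.I * u) ^ j / (j.factorial : ℂ) * (m j : ℂ)

lemma tay_W {X : ℝ} (hX : 0 < X) (N : ℕ) (H u : ℝ) (c : ℕ → ℝ) (k : ℕ) :
    ‖cW N X H u c - tW k u (mW N X H c)‖ ≤
      |u| ^ (2 * k) / (2 * k).factorial * mW N X H c (2 * k) := by
  have hTint : IntervalIntegrable (fun x => tp (2 * k) (u * W N H c x)) volume X (2 * X) := by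
    have e : (fun x => tp (2 * k) (u * W N H c x)) = fun x => ∑ j ∈ range (2 * k),
        (Complex.I * u) ^ j / (j.factorial : ℂ) * ((W N H c x ^ j : ℝ) : ℂ) := by
      funext x
      unfold tp
      refine sum_congr rfl fun j _ => ?_
      push_cast
      rw [← mul_assoc, mul_pow]
      ring
    rw [e]
    have h1 := IntervalIntegrable.sum (μ := volume) (a := X) (b := 2 * X) (range (2 * k))
      (f := fun j x => (Complex.I * u) ^ j / (j.factorial : ℂ) * ((W N H c x ^ j : ℝ) : ℂ))
      fun j _ => (ii_ofReal (W_pow_int N H c j X (2 * X))).const_mul _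
    have e2 : (fun x => ∑ j ∈ range (2 * k), (Complex.I * u) ^ j / (j.factorial : ℂ) *
        ((W N H c x ^ j : ℝ) : ℂ)) = ∑ j ∈ range (2 * k), fun x =>
          (Complex.I * u) ^ j / (j.factorial : ℂ) * ((W N H c x ^ j : ℝ) : ℂ) := by
      funext x; simp
    rw [e2]
    exact h1
  have h1 : tW k u (mW N X H c) =
      ((1 / X : ℝ) : ℂ) * ∫ x in X..2 * X, tp (2 * k) (u * W N H c x) := by
    have e : ∫ x in X..2 * X, tp (2 * k) (u * W N H c x) = ∑ j ∈ range (2 * k),
        (Complex.I * u) ^ j / (j.factorial : ℂ) * ((∫ x in X..2 * X, W N H c x ^ j : ℝ) : ℂ) := by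
      have e1 : ∫ x in X..2 * X, tp (2 * k) (u * W N H c x) = ∫ x in X..2 * X,
          ∑ j ∈ range (2 * k), (Complex.I * u) ^ j / (j.factorial : ℂ) *
            ((W N H c x ^ j : ℝ) : ℂ) := by
        congr 1
        funext x
        unfold tp
        refine sum_congr rfl fun j _ => ?_
        push_cast
        rw [← mul_assoc, mul_pow]
        ring
      rw [e1, intervalIntegral.integral_finsetSum]
      · refine sum_congr rfl fun j _ => ?_
        rw [intervalIntegral.integral_const_mul, ← intervalIntegral.integral_ofReal]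
      · intro j _
        exact (ii_ofReal (W_pow_int N H c j X (2 * X))).const_mul _
    rw [e, mul_sum]
    unfold tW mW
    refine sum_congr rfl fun j _ => ?_
    push_cast
    ring
  rw [h1]
  unfold cW
  rw [← mul_sub, ← intervalIntegral.integral_sub (W_exp_int N H c u X (2 * X)) hTint, norm_mul]
  have h2 : ‖((1 / X : ℝ) : ℂ)‖ = 1 / X := by
    rw [Complex.norm_real, Real.norm_of_nonneg (by positivity)]
  rw [h2]
  have h3 : ‖∫ x in X..2 * X, (Complex.exp (Complex.I * ((u * W N H c x : ℝ) : ℂ)) -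
      tp (2 * k) (u * W N H c x))‖ ≤
      ∫ x in X..2 * X, |u| ^ (2 * k) / (2 * k).factorial * W N H c x ^ (2 * k) := by
    refine intervalIntegral.norm_integral_le_of_norm_le (by linarith)
      (ae_of_all _ fun x _ => ?_) ((W_pow_int N H c (2 * k) X (2 * X)).const_mul _)
    refine (exp_taylor (2 * k) (u * W N H c x)).trans (le_of_eq ?_)
    rw [abs_mul, mul_pow, pow_mul |W N H c x|, sq_abs, ← pow_mul]
    ring
  refine (mul_le_mul_of_nonneg_left h3 (by positivity)).trans (le_of_eq ?_)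
  rw [intervalIntegral.integral_const_mul]
  unfold mW
  ring

lemma W_rf {s : ℕ → ℝ} {x X H : ℝ} {N : ℕ} (hx : x ≤ 2 * X) (hH : 0 < H) (hHX : H ≤ X)
    (hN : 3 * X ≤ N) : W N H (rf s) x = MM s x H := (MM_sum s hx hH hHX hN).symm

lemma mW_rf {s : ℕ → ℝ} {X H : ℝ} {N : ℕ} (hX : 0 < X) (hH : 0 < H) (hHX : H ≤ X)
    (hN : 3 * X ≤ N) (j : ℕ) : mW N X H (rf s) j = mr s X H j := by
  unfold mW mr
  congr 1
  refine intervalIntegral.integral_congr fun x hx => ?_
  rw [Set.uIcc_of_le (by linarith)] at hx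
  rw [W_rf hx.2 hH hHX hN]

/-- the moments of the model with independent signs on the integers -/
lemma mW_av (N : ℕ) (X H : ℝ) (j : ℕ) :
    ∑ V ∈ (SN N).powerset, mW N X H (sg V) j = 2 ^ (SN N).card * m0 X H j N := by
  classical
  unfold mW
  rw [← mul_sum, ← intervalIntegral.integral_finsetSum fun V _ => W_pow_int N H _ j X (2 * X)]
  have h1 : ∀ x, ∑ V ∈ (SN N).powerset, W N H (sg V) x ^ j =
      2 ^ (SN N).card * ∑ n ∈ (TN j N).filter (fun n => ¬ NE n), ∏ i, ind H (n i) x := by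
    intro x
    exact sum_pow_sg (SN N) (fun n => ind H n x) j
  simp_rw [h1]
  rw [intervalIntegral.integral_const_mul, intervalIntegral.integral_finsetSum
    fun n _ => prod_ind_intble X (2 * X) H n]
  unfold m0
  rw [mul_left_comm, mul_sum]
  congr 1
  refine sum_congr rfl fun n _ => ?_
  unfold om
  ring

/-- the mean of the product of the cosines -/
noncomputable def gW (N : ℕ) (X H u : ℝ) : ℝ :=
  (1 / X) * ∫ x in X..2 * X, ∏ n ∈ SN N, Real.cos (u * ind H n x)

lemma cW_av (N : ℕ) (X H u : ℝ) :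
    ∑ V ∈ (SN N).powerset, cW N X H u (sg V) = 2 ^ (SN N).card * (gW N X H u : ℂ) := by
  unfold cW
  rw [← mul_sum, ← intervalIntegral.integral_finsetSum fun V _ => W_exp_int N H _ u X (2 * X)]
  have h1 : ∀ x, ∑ V ∈ (SN N).powerset,
      Complex.exp (Complex.I * ((u * W N H (sg V) x : ℝ) : ℂ)) =
      2 ^ (SN N).card * ((∏ n ∈ SN N, Real.cos (u * ind H n x) : ℝ) : ℂ) := by
    intro x
    rw [← sum_cexp_sg (SN N) (fun n => u * ind H n x)]
    refine sum_congr rfl fun V _ => ?_
    congr 3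
    unfold W
    rw [mul_sum]
    exact sum_congr rfl fun n _ => by ring
  simp_rw [h1]
  rw [intervalIntegral.integral_const_mul, intervalIntegral.integral_ofReal]
  unfold gW
  push_cast
  ring

lemma mr_nonneg (s : ℕ → ℝ) {X : ℝ} (hX : 0 < X) (H : ℝ) (k : ℕ) : 0 ≤ mr s X H (2 * k) := by
  unfold mr
  refine mul_nonneg (by positivity) (intervalIntegral.integral_nonneg (by linarith) fun x _ => ?_)
  rw [pow_mul]
  positivity

/-- comparison of the characteristic functions -/
theorem chr_cmp {s : ℕ → ℝ} (hs : ∀ p, s p = 1 ∨ s p = -1) {X H : ℝ} {N : ℕ} (hX : 0 < X)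
    (hH : 0 < H) (hHX : H ≤ X) (hN : 3 * X ≤ N) (u : ℝ) (k : ℕ) :
    ‖cW N X H u (rf s) - (gW N X H u : ℂ)‖ ≤
      ∑ j ∈ range (2 * k + 1), |u| ^ j / j.factorial * |De X H j N s| +
        2 * (|u| ^ (2 * k) / (2 * k).factorial * m0 X H (2 * k) N) := by
  have h1 := tay_W hX N H u (rf s) k
  have h2 : ‖tW k u (mW N X H (rf s)) - tW k u (fun j => m0 X H j N)‖ ≤
      ∑ j ∈ range (2 * k), |u| ^ j / j.factorial * |De X H j N s| := by
    unfold tW
    rw [← sum_sub_distrib]
    refine (norm_sum_le _ _).trans (sum_le_sum fun j _ => ?_)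
    rw [← mul_sub, norm_mul, norm_div, norm_pow, norm_mul, Complex.norm_I, one_mul,
      Complex.norm_real, Real.norm_eq_abs, Complex.norm_natCast, mW_rf hX hH hHX hN,
      mr_eq hs j hX hH hHX hN]
    refine mul_le_mul_of_nonneg_left (le_of_eq ?_) (by positivity)
    rw [← Complex.ofReal_sub, Complex.norm_real, Real.norm_eq_abs]
    congr 1
    ring
  have hpos : (0 : ℝ) < 2 ^ (SN N).card := by positivity
  have h3 : ‖tW k u (fun j => m0 X H j N) - (gW N X H u : ℂ)‖ ≤
      |u| ^ (2 * k) / (2 * k).factorial * m0 X H (2 * k) N := by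
    have e1 : (2 ^ (SN N).card : ℂ) * (tW k u (fun j => m0 X H j N) - (gW N X H u : ℂ)) =
        ∑ V ∈ (SN N).powerset, (tW k u (mW N X H (sg V)) - cW N X H u (sg V)) := by
      rw [sum_sub_distrib, cW_av, mul_sub]
      congr 1
      unfold tW
      rw [sum_comm, mul_sum]
      refine sum_congr rfl fun j _ => ?_
      rw [← mul_sum, ← Complex.ofReal_sum, mW_av]
      push_cast
      ring
    have e2 : ‖∑ V ∈ (SN N).powerset, (tW k u (mW N X H (sg V)) - cW N X H u (sg V))‖ ≤
        ∑ V ∈ (SN N).powerset, |u| ^ (2 * k) / (2 * k).factorial * mW N X H (sg V) (2 * k) := by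
      refine (norm_sum_le _ _).trans (sum_le_sum fun V _ => ?_)
      rw [norm_sub_rev]
      exact tay_W hX N H u (sg V) k
    rw [← mul_sum, mW_av, ← e1, norm_mul] at e2
    have e3 : ‖(2 ^ (SN N).card : ℂ)‖ = 2 ^ (SN N).card := by
      rw [norm_pow]; norm_num
    rw [e3] at e2
    refine le_of_mul_le_mul_left ?_ hpos
    refine e2.trans (le_of_eq ?_)
    ring
  have h4 : mW N X H (rf s) (2 * k) ≤ |De X H (2 * k) N s| + m0 X H (2 * k) N := by
    rw [mW_rf hX hH hHX hN, mr_eq hs (2 * k) hX hH hHX hN]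
    have := le_abs_self (De X H (2 * k) N s)
    linarith
  have h5 := norm_sub_le_norm_sub_add_norm_sub (cW N X H u (rf s)) (tW k u (mW N X H (rf s)))
    (gW N X H u : ℂ)
  have h6 := norm_sub_le_norm_sub_add_norm_sub (tW k u (mW N X H (rf s)))
    (tW k u (fun j => m0 X H j N)) (gW N X H u : ℂ)
  have h7 := mul_le_mul_of_nonneg_left h4
    (by positivity : (0 : ℝ) ≤ |u| ^ (2 * k) / (2 * k).factorial)
  rw [sum_range_succ]
  linarith

/-- the number of the squarefree integers in the window -/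
noncomputable def sw (N : ℕ) (H : ℝ) (x : ℝ) : ℝ := ∑ n ∈ SN N, ind H n x

lemma ind_sq (H : ℝ) (n : ℕ) (x : ℝ) : ind H n x ^ 2 = ind H n x := by
  unfold ind
  by_cases h : x ∈ Set.Ioo ((n : ℝ) - H / 2) (n + H / 2)
  · rw [Set.indicator_of_mem h]; norm_num
  · rw [Set.indicator_of_notMem h]; norm_num

lemma sw_eq_card (N : ℕ) (H : ℝ) (x : ℝ) :
    sw N H x = (((SN N).filter (fun n : ℕ => |(n : ℝ) - x| < H / 2)).card : ℝ) := by
  classical
  unfold sw
  rw [card_filter]
  push_cast
  refine sum_congr rfl fun n _ => ?_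
  unfold ind
  by_cases h : |(n : ℝ) - x| < H / 2
  · rw [if_pos h, Set.indicator_of_mem ((Pool.Agent.U585.GC.mem_win H n x).1 h)]
  · rw [if_neg h, Set.indicator_of_notMem
      (fun hc => h ((Pool.Agent.U585.GC.mem_win H n x).2 hc))]

lemma sw_le {H : ℝ} (hH : 0 ≤ H) (N : ℕ) (x : ℝ) : sw N H x ≤ H + 1 := by
  rw [sw_eq_card]
  refine card_interval _ (x - H / 2) H hH fun b hb => ?_
  rw [mem_filter, abs_lt] at hb
  constructor <;> linarith [hb.2.1, hb.2.2]

/-- the high moments of the model -/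
lemma m0_le {X : ℝ} (hX : 0 < X) {H : ℝ} (hH : 0 ≤ H) (N k : ℕ) (τ : ℝ) :
    τ ^ (2 * k) / (2 * k).factorial * m0 X H (2 * k) N ≤ Real.exp (τ ^ 2 * (H + 1) / 2) := by
  have hpos : (0 : ℝ) < 2 ^ (SN N).card := by positivity
  refine le_of_mul_le_mul_left ?_ hpos
  have e1 : 2 ^ (SN N).card * (τ ^ (2 * k) / (2 * k).factorial * m0 X H (2 * k) N) =
      (1 / X) * ∫ x in X..2 * X, ∑ V ∈ (SN N).powerset,
        (∑ n ∈ SN N, sg V n * (τ * ind H n x)) ^ (2 * k) / ((2 * k).factorial : ℝ) := by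
    have e2 : 2 ^ (SN N).card * (τ ^ (2 * k) / (2 * k).factorial * m0 X H (2 * k) N) =
        τ ^ (2 * k) / (2 * k).factorial * (2 ^ (SN N).card * m0 X H (2 * k) N) := by ring
    rw [e2, ← mW_av]
    unfold mW
    rw [← mul_sum, ← intervalIntegral.integral_finsetSum
      fun V _ => W_pow_int N H _ (2 * k) X (2 * X), mul_left_comm,
      ← intervalIntegral.integral_const_mul]
    congr 1
    refine intervalIntegral.integral_congr fun x _ => ?_
    beta_reduce
    rw [mul_sum]
    refine sum_congr rfl fun V _ => ?_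
    have e3 : ∑ n ∈ SN N, sg V n * (τ * ind H n x) = τ * W N H (sg V) x := by
      unfold W
      rw [mul_sum]
      exact sum_congr rfl fun n _ => by ring
    rw [e3, mul_pow]
    ring
  rw [e1]
  have h1 : ∫ x in X..2 * X, ∑ V ∈ (SN N).powerset,
        (∑ n ∈ SN N, sg V n * (τ * ind H n x)) ^ (2 * k) / ((2 * k).factorial : ℝ) ≤
      ∫ _x in X..2 * X, 2 ^ (SN N).card * Real.exp (τ ^ 2 * (H + 1) / 2) := by
    refine intervalIntegral.integral_mono_on (by linarith) ?_ intervalIntegrable_const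
      fun x _ => ?_
    · have h2 := IntervalIntegrable.sum (μ := volume) (a := X) (b := 2 * X) (SN N).powerset
        (f := fun V x => W N H (fun n => sg V n * τ) x ^ (2 * k) / ((2 * k).factorial : ℝ))
        fun V _ => (W_pow_int N H _ (2 * k) X (2 * X)).div_const _
      have e4 : (fun x => ∑ V ∈ (SN N).powerset,
          (∑ n ∈ SN N, sg V n * (τ * ind H n x)) ^ (2 * k) / ((2 * k).factorial : ℝ)) =
          ∑ V ∈ (SN N).powerset, fun x =>
            W N H (fun n => sg V n * τ) x ^ (2 * k) / ((2 * k).factorial : ℝ) := by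
        funext x
        rw [Finset.sum_apply]
        refine sum_congr rfl fun V _ => ?_
        unfold W
        congr 2
        exact sum_congr rfl fun n _ => by ring
      rw [e4]
      exact h2
    · refine (mom_sg (SN N) (fun n => τ * ind H n x) k).trans ?_
      refine mul_le_mul_of_nonneg_left (Real.exp_le_exp.2 ?_) hpos.le
      have e5 : ∑ n ∈ SN N, (τ * ind H n x) ^ 2 = τ ^ 2 * sw N H x := by
        unfold sw
        rw [mul_sum]
        exact sum_congr rfl fun n _ => by rw [mul_pow, ind_sq]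
      rw [e5]
      have := mul_le_mul_of_nonneg_left (sw_le hH N x) (sq_nonneg τ)
      linarith
  refine (mul_le_mul_of_nonneg_left h1 (by positivity)).trans (le_of_eq ?_)
  rw [intervalIntegral.integral_const, smul_eq_mul]
  field_simp
  ring

end Pool.Agent.U585.GA
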