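import Pool.Agent.U585.GA.Sqw

/-!
# The mean of the product of the cosines
-/

set_option autoImplicit false

open Finset MeasureTheory

namespace Pool.Agent.U585.GA

open Pool.Agent.U585.GC (ind)

/-- the logarithm of the cosine -/
lemma log_cos {u : ℝ} (hu : |u| ≤ 1) :
    0 < Real.cos u ∧ |-Real.log (Real.cos u) - u ^ 2 / 2| ≤ u ^ 4 := by
  have h1 := Real.cos_bound hu
  have hu2 : u ^ 2 ≤ 1 := by
    rw [← sq_abs]
    exact pow_le_one₀ (abs_nonneg u) hu
  have hu0 : 0 ≤ u ^ 2 := sq_nonneg u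
  have e4 : |u| ^ 4 = u ^ 4 := by
    rw [show (4 : ℕ) = 2 * 2 by norm_num, pow_mul, pow_mul, sq_abs]
  rw [e4] at h1
  have e5 : u ^ 4 = u ^ 2 * u ^ 2 := by ring
  obtain ⟨h2, h3⟩ := abs_le.1 h1
  set z := 1 - Real.cos u with hz
  have hz1 : z ≤ u ^ 2 / 2 + u ^ 4 * (5 / 96) := by linarith
  have hz2 : u ^ 2 / 2 - u ^ 4 * (5 / 96) ≤ z := by linarith
  have hu4 : u ^ 4 ≤ u ^ 2 := by rw [e5]; nlinarith
  have hz3 : z ≤ 0.553 * u ^ 2 := by linarith
  have hz4 : 0 ≤ z := by linarith [Real.cos_le_one u]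
  have hz5 : z ≤ 0.553 := by linarith
  have hc : Real.cos u = 1 - z := by rw [hz]; ring
  have hc0 : 0 < Real.cos u := by linarith
  refine ⟨hc0, ?_⟩
  -- z ≤ - log (1 - z) ≤ z / (1 - z)
  have l1 : z ≤ -Real.log (Real.cos u) := by
    have := Real.log_le_sub_one_of_pos hc0
    linarith
  have l2 : -Real.log (Real.cos u) ≤ z / (1 - z) := by
    have h4 := Real.log_le_sub_one_of_pos (inv_pos.2 hc0)
    rw [Real.log_inv] at h4
    refine h4.trans (le_of_eq ?_)
    rw [hc]
    have : 1 - z ≠ 0 := by linarith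
    field_simp
    ring
  have l3 : z / (1 - z) ≤ z + 2.3 * z ^ 2 := by
    rw [div_le_iff₀ (by linarith)]
    have h6 : 0 ≤ z ^ 2 := sq_nonneg z
    have h7 : z ^ 2 * (2.3 * (1 - z)) ≥ z ^ 2 * 1 := by
      refine mul_le_mul_of_nonneg_left ?_ h6
      linarith
    nlinarith
  have hzz : z ^ 2 ≤ 0.31 * u ^ 4 := by
    have := mul_le_mul hz3 hz3 hz4 (by positivity)
    have e : 0.553 * u ^ 2 * (0.553 * u ^ 2) = 0.305809 * u ^ 4 := by ring
    rw [e] at this
    have h4 : 0 ≤ u ^ 4 := by positivity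
    nlinarith
  have h40 : 0 ≤ u ^ 4 := by positivity
  rw [abs_le]
  constructor
  · linarith
  · linarith

/-- the product of the cosines in a window -/
lemma prod_cos (N : ℕ) (H u x : ℝ) (hc : 0 < Real.cos u) :
    ∏ n ∈ SN N, Real.cos (u * ind H n x) = Real.exp (-(sw N H x * (-Real.log (Real.cos u)))) := by
  have h1 : ∀ n ∈ SN N, Real.cos (u * ind H n x) = Real.exp (ind H n x * Real.log (Real.cos u)) := by
    intro n _
    unfold ind
    by_cases h : x ∈ Set.Ioo ((n : ℝ) - H / 2) (n + H / 2)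
    · rw [Set.indicator_of_mem h, mul_one, one_mul, Real.exp_log hc]
    · rw [Set.indicator_of_notMem h]; simp
  rw [prod_congr rfl h1, ← Real.exp_sum]
  congr 1
  unfold sw
  rw [← sum_mul]
  ring

lemma exp_diff {a b : ℝ} (ha : 0 ≤ a) (hb : 0 ≤ b) : |Real.exp (-a) - Real.exp (-b)| ≤ |a - b| := by
  have key : ∀ a b : ℝ, 0 ≤ a → a ≤ b → |Real.exp (-a) - Real.exp (-b)| ≤ |a - b| := by
    intro a b ha hab
    have h1 : Real.exp (-b) ≤ Real.exp (-a) := Real.exp_le_exp.2 (by linarith)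
    rw [abs_of_nonneg (by linarith), abs_of_nonpos (by linarith)]
    have h2 : Real.exp (-b) = Real.exp (-a) * Real.exp (-(b - a)) := by
      rw [← Real.exp_add]; congr 1; ring
    have h3 : 1 - (b - a) ≤ Real.exp (-(b - a)) := by
      have := Real.add_one_le_exp (-(b - a))
      linarith
    have h4 : Real.exp (-a) ≤ 1 := Real.exp_le_one_iff.2 (by linarith)
    have h5 : 0 < Real.exp (-a) := Real.exp_pos _
    have h6 : Real.exp (-(b - a)) ≤ 1 := Real.exp_le_one_iff.2 (by linarith)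
    rw [h2]
    nlinarith
  rcases le_total a b with h | h
  · exact key a b ha h
  · rw [abs_sub_comm, abs_sub_comm a b]
    exact key b a hb h

lemma prod_cos_int (N : ℕ) (H u X Y : ℝ) :
    IntervalIntegrable (fun x => ∏ n ∈ SN N, Real.cos (u * ind H n x)) volume X Y := by
  refine (intervalIntegrable_const (c := (1 : ℝ))).mono_fun
    (Finset.measurable_fun_prod _ fun n _ => ?_).aestronglyMeasurable
    (ae_of_all _ fun x => ?_)
  · exact Real.measurable_cos.comp ((ind_meas H n).const_mul u)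
  · beta_reduce
    rw [norm_one, norm_prod]
    exact prod_le_one (fun n _ => norm_nonneg _) fun n _ => Real.abs_cos_le_one _

/-- the mean of the product of the cosines -/
theorem gW_lim (θ : ℝ) (η : ℝ) (hη : 0 < η) : ∃ X₀ : ℝ, 1 ≤ X₀ ∧ ∀ (X H : ℝ) (N : ℕ), X₀ ≤ X →
    X₀ ≤ H → H ≤ X → 3 * X ≤ N →
    |gW N X H (θ / √(H / (Real.pi ^ 2 / 6))) - Real.exp (-(θ ^ 2 / 2))| ≤ η := by
  have hpi : 0 < Real.pi := Real.pi_pos
  have hpi4 : Real.pi ^ 2 ≤ 10 := by
    have := Real.pi_lt_d2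
    nlinarith
  set t2 := θ ^ 2 with ht2
  have ht20 : 0 ≤ t2 := sq_nonneg θ
  obtain ⟨X₁, hX₁, h1⟩ := sw_dev (η / (6 * (t2 + 1))) (by positivity)
  refine ⟨max X₁ (max (2 * t2) (6 * t2 ^ 2 / η)), hX₁.trans (le_max_left _ _),
    fun X H N hX hHl hHX hN => ?_⟩
  have hXa : X₁ ≤ X := (le_max_left _ _).trans hX
  have hHa : X₁ ≤ H := (le_max_left _ _).trans hHl
  have hHb : 2 * t2 ≤ H := ((le_max_left _ _).trans (le_max_right _ _)).trans hHl
  have hHc : 6 * t2 ^ 2 / η ≤ H := ((le_max_right _ _).trans (le_max_right _ _)).trans hHl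
  have hX0 : 0 < X := by linarith
  have hH0 : 0 < H := by linarith
  set S2 := H / (Real.pi ^ 2 / 6) with hS2
  have hS20 : 0 < S2 := by positivity
  have hS2H : H ≤ 2 * S2 := by
    rw [hS2]
    have : H / 2 ≤ H / (Real.pi ^ 2 / 6) :=
      div_le_div_of_nonneg_left hH0.le (by positivity) (by linarith)
    linarith
  have hS2c : S2 = 6 / Real.pi ^ 2 * H := by
    rw [hS2]
    field_simp
  set u := θ / √S2 with hu
  have hu2 : u ^ 2 = t2 / S2 := by
    rw [hu, div_pow, Real.sq_sqrt hS20.le]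
  have hu1 : |u| ≤ 1 := by
    rw [← sq_le_one_iff_abs_le_one, hu2, div_le_one hS20]
    linarith
  obtain ⟨hc, hl⟩ := log_cos hu1
  set L := -Real.log (Real.cos u) with hL
  have hL0 : 0 ≤ L := by
    rw [hL, neg_nonneg]
    exact Real.log_nonpos hc.le (Real.cos_le_one u)
  have hu4 : u ^ 4 = u ^ 2 * u ^ 2 := by ring
  have hu21 : u ^ 2 ≤ 1 := by
    rw [hu2, div_le_one hS20]; linarith
  have hLu : L ≤ 3 / 2 * u ^ 2 := by
    have h3 := (abs_le.1 hl).2
    have h4 : u ^ 4 ≤ u ^ 2 := by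
      rw [hu4]; nlinarith [sq_nonneg u]
    linarith
  have hpt : ∀ x, |(∏ n ∈ SN N, Real.cos (u * ind H n x)) - Real.exp (-(t2 / 2))| ≤
      L * |sw N H x - 6 / Real.pi ^ 2 * H| + S2 * u ^ 4 := by
    intro x
    have hsw : 0 ≤ sw N H x := by
      unfold sw
      exact sum_nonneg fun n _ => ind_nonneg _ _ _
    rw [prod_cos N H u x hc]
    refine (exp_diff (mul_nonneg hsw hL0) (by linarith)).trans ?_
    have e1 : sw N H x * L - t2 / 2 = (sw N H x - 6 / Real.pi ^ 2 * H) * L +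
        S2 * (L - u ^ 2 / 2) := by
      rw [← hS2c, hu2]
      field_simp
      ring
    rw [e1]
    refine (abs_add_le _ _).trans ?_
    rw [abs_mul, abs_mul, abs_of_nonneg hL0, abs_of_pos hS20, mul_comm]
    exact add_le_add le_rfl (mul_le_mul_of_nonneg_left hl hS20.le)
  have hint := prod_cos_int N H u X (2 * X)
  have hint2 : IntervalIntegrable (fun x => |sw N H x - 6 / Real.pi ^ 2 * H|) volume X (2 * X) :=
    ((sw_int N H X (2 * X)).sub intervalIntegrable_const).abs
  have e2 : gW N X H u - Real.exp (-(t2 / 2)) = (1 / X) * ∫ x in X..2 * X,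
      ((∏ n ∈ SN N, Real.cos (u * ind H n x)) - Real.exp (-(t2 / 2))) := by
    rw [intervalIntegral.integral_sub hint intervalIntegrable_const,
      intervalIntegral.integral_const, smul_eq_mul]
    unfold gW
    field_simp
    ring
  rw [e2, abs_mul, abs_of_pos (by positivity : 0 < 1 / X)]
  have e3 : |∫ x in X..2 * X, ((∏ n ∈ SN N, Real.cos (u * ind H n x)) - Real.exp (-(t2 / 2)))| ≤
      ∫ x in X..2 * X, (L * |sw N H x - 6 / Real.pi ^ 2 * H| + S2 * u ^ 4) := by
    rw [← Real.norm_eq_abs]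
    refine intervalIntegral.norm_integral_le_of_norm_le (by linarith)
      (ae_of_all _ fun x _ => ?_) ((hint2.const_mul L).add intervalIntegrable_const)
    rw [Real.norm_eq_abs]
    exact hpt x
  have e4 : (1 / X) * ∫ x in X..2 * X, (L * |sw N H x - 6 / Real.pi ^ 2 * H| + S2 * u ^ 4) =
      L * ((1 / X) * ∫ x in X..2 * X, |sw N H x - 6 / Real.pi ^ 2 * H|) + S2 * u ^ 4 := by
    rw [intervalIntegral.integral_add (hint2.const_mul L) intervalIntegrable_const,
      intervalIntegral.integral_const_mul, intervalIntegral.integral_const, smul_eq_mul]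
    generalize (∫ x in X..2 * X, |sw N H x - 6 / Real.pi ^ 2 * H|) = I
    field_simp
    ring
  have e5 : (1 / X) * |∫ x in X..2 * X,
      ((∏ n ∈ SN N, Real.cos (u * ind H n x)) - Real.exp (-(t2 / 2)))| ≤
      L * ((1 / X) * ∫ x in X..2 * X, |sw N H x - 6 / Real.pi ^ 2 * H|) + S2 * u ^ 4 := by
    rw [← e4]
    exact mul_le_mul_of_nonneg_left e3 (by positivity)
  refine e5.trans ?_
  have h2 := h1 X H N hXa hHa hHX hN
  have g1 : L * ((1 / X) * ∫ x in X..2 * X, |sw N H x - 6 / Real.pi ^ 2 * H|) ≤ η / 2 := by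
    calc L * ((1 / X) * ∫ x in X..2 * X, |sw N H x - 6 / Real.pi ^ 2 * H|)
        ≤ (3 / 2 * u ^ 2) * (η / (6 * (t2 + 1)) * H) := by
          refine mul_le_mul hLu h2 ?_ (by positivity)
          exact mul_nonneg (by positivity) (intervalIntegral.integral_nonneg (by linarith)
            fun x _ => abs_nonneg _)
      _ = 3 / 2 * (t2 / (t2 + 1)) * (η / 6) * (H / S2) := by
          rw [hu2]
          field_simp
      _ ≤ 3 / 2 * 1 * (η / 6) * 2 := by
          have k1 : t2 / (t2 + 1) ≤ 1 := by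
            rw [div_le_one (by linarith)]; linarith
          have k2 : H / S2 ≤ 2 := by
            rw [div_le_iff₀ hS20]; exact hS2H
          have k3 : 0 ≤ t2 / (t2 + 1) := by positivity
          have k4 : 0 ≤ H / S2 := by positivity
          exact mul_le_mul (mul_le_mul_of_nonneg_right (mul_le_mul_of_nonneg_left k1
            (by norm_num)) (by positivity)) k2 k4 (by positivity)
      _ = η / 2 := by ring
  have g2 : S2 * u ^ 4 ≤ η / 2 := by
    have k1 : S2 * u ^ 4 = t2 ^ 2 / S2 := by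
      rw [hu4, hu2]
      field_simp
    rw [k1, div_le_iff₀ hS20]
    rw [div_le_iff₀ hη] at hHc
    nlinarith
  linarith

end Pool.Agent.U585.GA
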