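import Pool.Agent.U585.GA.Det

/-!
# The number of tuples in windows whose product is a square
-/

set_option autoImplicit false
set_option linter.unusedSectionVars false

open Finset

namespace Pool.Agent.U585.GA

/-- the hypotheses on the windows -/
structure Wins {ι : Type} (X L c : ℝ) (N m : ℕ) (W : ι → Finset ℕ) : Prop where
  win : ∀ i, IsWin L (W i)
  low : ∀ i, ∀ a ∈ W i, X / 2 ≤ a
  upp : ∀ i, ∀ a ∈ W i, a ≤ N
  N1 : 1 ≤ N
  N3 : (N : ℝ) ≤ 3 * X
  hX : 2 ≤ X
  hL : 1 ≤ L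
  hLX : L ≤ X
  hc : 1 ≤ c
  div : ∀ Q : ℕ, 1 ≤ Q → Q ≤ N ^ m → (2 : ℝ) ^ Q.primeFactors.card ≤ c

lemma Wins.comp {ι κ : Type} {X L c : ℝ} {N m : ℕ} {W : ι → Finset ℕ} (h : Wins X L c N m W)
    (e : κ → ι) : Wins X L c N m (fun i => W (e i)) :=
  ⟨fun _ => h.win _, fun _ => h.low _, fun _ => h.upp _, h.N1, h.N3, h.hX, h.hL, h.hLX, h.hc, h.div⟩

/-- the bound for the tuples with a bound for the number of choices -/
lemma count_of_bound {k : ℕ} {X L c : ℝ} {N : ℕ} {W : Fin (2 * k) → Finset ℕ}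
    (h : Wins X L c N (2 * k) W) (T : Finset (Fin (2 * k) → ℕ)) (hT : T ⊆ Fintype.piFinset W)
    {E : ℝ} (hE0 : 0 ≤ E) (hE : ∀ n ∈ T, ∏ i, ww L (dd n i) ≤ E) :
    (T.card : ℝ) ≤ E * c ^ (2 * k) := by
  have hL0 : 0 ≤ L := by linarith [h.hL]
  have h1 := rank (L := L) (c := c) hL0 h.hc h.N1 (2 * k) W h.win (fun i a ha => by
    have := h.low i a ha
    have h3 := h.hX
    have h4 : (1 : ℝ) ≤ a := by linarith
    exact ⟨by exact_mod_cast h4, h.upp i a ha⟩) h.div
  calc (T.card : ℝ) = ∑ _n ∈ T, (1 : ℝ) := by simp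
    _ ≤ ∑ n ∈ T, E * ∏ i, 1 / ww L (dd n i) := by
        refine sum_le_sum fun n hn => ?_
        have h2 : (∏ i, ww L (dd n i)) * ∏ i, 1 / ww L (dd n i) = 1 := by
          rw [← prod_mul_distrib]
          refine prod_eq_one fun i _ => ?_
          rw [mul_one_div, div_self (ww_pos hL0 _).ne']
        calc (1 : ℝ) = (∏ i, ww L (dd n i)) * ∏ i, 1 / ww L (dd n i) := h2.symm
          _ ≤ _ := mul_le_mul_of_nonneg_right (hE n hn)
              (prod_nonneg fun i _ => (one_div_pos.2 (ww_pos hL0 _)).le)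
    _ = E * ∑ n ∈ T, ∏ i, 1 / ww L (dd n i) := (mul_sum _ _ _).symm
    _ ≤ E * ∑ n ∈ Fintype.piFinset W, ∏ i, 1 / ww L (dd n i) := by
        refine mul_le_mul_of_nonneg_left ?_ hE0
        exact sum_le_sum_of_subset_of_nonneg hT fun n _ _ =>
          prod_nonneg fun i _ => (one_div_pos.2 (ww_pos hL0 _)).le
    _ ≤ _ := mul_le_mul_of_nonneg_left h1 hE0

/-- the inequality for the number of choices -/
lemma choices {k : ℕ} {X L c : ℝ} {N : ℕ} {W : Fin (2 * k) → Finset ℕ}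
    (h : Wins X L c N (2 * k) W) {n : Fin (2 * k) → ℕ} (hn : n ∈ Fintype.piFinset W)
    (he : EvenT n) :
    (∏ i, ww L (dd n i) ≤ 24 ^ k * L ^ k) ∧
    ∀ (i₀ : Fin (2 * k)) (B G : ℝ), 0 < B → B ≤ dd n i₀ → dd n i₀ ≤ G →
      ∏ i, ww L (dd n i) ≤ 24 ^ k * L ^ k * (L / X + 1 / L + 1 / B + G / X) := by
  rw [Fintype.mem_piFinset] at hn
  have hX := h.hX
  have hsq : ∀ i, Squarefree (n i) := fun i => (h.win i).1 _ (hn i)
  have hd1 : ∀ i, 1 ≤ dd n i := fun i => Nat.one_le_iff_ne_zero.2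
    (Nat.gcd_ne_zero_left (hsq i).ne_zero)
  refine det_core k (by linarith : (1 : ℝ) ≤ X) h.hL h.hLX (fun i => (dd n i : ℝ))
    (fun i => by exact_mod_cast hd1 i) (fun i => ?_) ?_
  · have h1 : dd n i ≤ n i := Nat.le_of_dvd (Nat.pos_of_ne_zero (hsq i).ne_zero)
      (Nat.gcd_dvd_left _ _)
    have h2 : dd n i ≤ N := h1.trans (h.upp i _ (hn i))
    have h3 : (dd n i : ℝ) ≤ N := by exact_mod_cast h2
    exact h3.trans h.N3
  · have h1 := dd_prod hsq he
    have h2 : ∏ i, n i ≤ (∏ i, dd n i) ^ 2 := Nat.le_of_dvd (Nat.pos_of_ne_zero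
      (pow_ne_zero _ (prod_ne_zero_iff.2 fun i _ => by have := hd1 i; omega))) h1
    have h3 : ((∏ i, n i : ℕ) : ℝ) ≤ (((∏ i, dd n i) ^ 2 : ℕ) : ℝ) := by exact_mod_cast h2
    push_cast at h3
    refine le_trans ?_ h3
    calc (X / 2) ^ (2 * k) = ∏ _i : Fin (2 * k), (X / 2) := by
          rw [prod_const, card_univ, Fintype.card_fin]
      _ ≤ _ := prod_le_prod (fun i _ => by linarith) fun i _ => h.low i _ (hn i)

lemma evenT_comp {ι κ : Type} [Fintype ι] [Fintype κ] (e : κ ≃ ι) {n : ι → ℕ} (he : EvenT n) :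
    EvenT (fun i => n (e i)) := by
  intro p hp
  have h1 : (univ.filter (fun i => p ∣ n i)) = (univ.filter (fun i => p ∣ n (e i))).map
      e.toEmbedding := by
    ext i
    simp only [mem_filter, mem_univ, true_and, mem_map, Equiv.coe_toEmbedding]
    constructor
    · intro h
      exact ⟨e.symm i, by rwa [e.apply_symm_apply], e.apply_symm_apply i⟩
    · rintro ⟨j, hj, rfl⟩
      exact hj
  have h2 := he p hp
  rw [h1, card_map] at h2
  exact h2

open Classical in
/-- the weak count -/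
theorem count_weak {ι : Type} [Fintype ι] [DecidableEq ι] {k : ℕ} (hι : Fintype.card ι = 2 * k)
    {X L c : ℝ} {N : ℕ} {W : ι → Finset ℕ} (h : Wins X L c N (2 * k) W) :
    (((Fintype.piFinset W).filter (fun n => EvenT n)).card : ℝ) ≤
      24 ^ k * L ^ k * c ^ (2 * k) := by
  have e : Fin (2 * k) ≃ ι := (Fintype.equivFinOfCardEq hι).symm
  have hL := h.hL
  have h1 : ((Fintype.piFinset W).filter (fun n => EvenT n)).card ≤
      ((Fintype.piFinset (fun i => W (e i))).filter (fun n => EvenT n)).card := by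
    refine card_le_card_of_injOn (fun n i => n (e i)) ?_ ?_
    · intro n hn
      rw [mem_coe, mem_filter, Fintype.mem_piFinset] at hn
      rw [mem_coe, mem_filter, Fintype.mem_piFinset]
      exact ⟨fun i => hn.1 _, evenT_comp e hn.2⟩
    · intro n _ n' _ hnn
      funext i
      have := congrFun hnn (e.symm i)
      simpa using this
  refine le_trans (by exact_mod_cast h1) (count_of_bound (h.comp e) _ (filter_subset _ _)
    (by positivity) fun n hn => ?_)
  rw [mem_filter] at hn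
  exact (choices (h.comp e) hn.1 hn.2).1

lemma exists_equiv {ι : Type} [Fintype ι] [DecidableEq ι] {m : ℕ} (hι : Fintype.card ι = m)
    {i₁ i₀ : ι} (hne : i₁ ≠ i₀) {a b : Fin m} (hab : a ≠ b) :
    ∃ e : Fin m ≃ ι, e a = i₁ ∧ e b = i₀ := by
  have e₀ : Fin m ≃ ι := (Fintype.equivFinOfCardEq hι).symm
  set e₁ := e₀.trans (Equiv.swap (e₀ a) i₁) with he₁
  have h1 : e₁ a = i₁ := by rw [he₁, Equiv.trans_apply, Equiv.swap_apply_left]
  refine ⟨e₁.trans (Equiv.swap (e₁ b) i₀), ?_, ?_⟩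
  · rw [Equiv.trans_apply, h1, Equiv.swap_apply_of_ne_of_ne _ hne]
    intro h2
    rw [← h1] at h2
    exact hab (e₁.injective h2)
  · rw [Equiv.trans_apply, Equiv.swap_apply_left]

open Classical in
/-- the strong count -/
theorem count_strong {ι : Type} [Fintype ι] [DecidableEq ι] {k : ℕ} (hk : 1 ≤ k)
    (hι : Fintype.card ι = 2 * k) {X L c : ℝ} {N : ℕ} {W : ι → Finset ℕ}
    (h : Wins X L c N (2 * k) W) {i₁ i₀ : ι} (hne : i₁ ≠ i₀) {B G : ℝ} (hB : 0 < B) (hG : 0 ≤ G) :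
    (((Fintype.piFinset W).filter (fun n => EvenT n ∧ B ≤ Nat.gcd (n i₀) (n i₁) ∧
      (Nat.gcd (n i₀) (n i₁) : ℝ) ≤ G)).card : ℝ) ≤
      24 ^ k * L ^ k * (L / X + 1 / L + 1 / B + G / X) * c ^ (2 * k) := by
  have hL := h.hL
  have hX := h.hX
  set a : Fin (2 * k) := ⟨0, by omega⟩ with ha
  set b : Fin (2 * k) := ⟨1, by omega⟩ with hb
  have hab : a ≠ b := by rw [ha, hb]; simp
  obtain ⟨e, e1, e2⟩ := exists_equiv hι hne hab
  have h1 : ((Fintype.piFinset W).filter (fun n => EvenT n ∧ B ≤ Nat.gcd (n i₀) (n i₁) ∧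
      (Nat.gcd (n i₀) (n i₁) : ℝ) ≤ G)).card ≤
      ((Fintype.piFinset (fun i => W (e i))).filter (fun n => EvenT n ∧
        B ≤ Nat.gcd (n b) (n a) ∧ (Nat.gcd (n b) (n a) : ℝ) ≤ G)).card := by
    refine card_le_card_of_injOn (fun n i => n (e i)) ?_ ?_
    · intro n hn
      rw [mem_coe, mem_filter, Fintype.mem_piFinset] at hn
      rw [mem_coe, mem_filter, Fintype.mem_piFinset]
      refine ⟨fun i => hn.1 _, evenT_comp e hn.2.1, ?_⟩
      beta_reduce
      rw [e1, e2]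
      exact hn.2.2
    · intro n _ n' _ hnn
      funext i
      have := congrFun hnn (e.symm i)
      simpa using this
  refine le_trans (by exact_mod_cast h1) (count_of_bound (h.comp e) _ (filter_subset _ _)
    (by positivity) fun n hn => ?_)
  rw [mem_filter] at hn
  have hdd : dd n b = Nat.gcd (n b) (n a) := by
    unfold dd
    have : univ.filter (fun j => j < b) = {a} := by
      ext j
      rw [mem_filter, mem_singleton]
      constructor
      · rintro ⟨_, hj⟩
        rw [hb, Fin.lt_def] at hj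
        rw [ha]
        apply Fin.ext
        dsimp only at hj ⊢
        omega
      · rintro rfl
        refine ⟨mem_univ _, ?_⟩
        rw [ha, hb, Fin.lt_def]
        norm_num
    rw [this, prod_singleton]
  refine (choices (h.comp e) hn.1 hn.2.1).2 b B G hB ?_ ?_
  · rw [hdd]; exact hn.2.2.1
  · rw [hdd]; exact hn.2.2.2

end Pool.Agent.U585.GA
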