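import Pool.Agent.U585.GA.Rank

/-!
# The size of the number of choices
-/

set_option autoImplicit false
set_option linter.unusedSectionVars false

open Finset

namespace Pool.Agent.U585.GA

lemma one_le_prod_real {ι : Type} (S : Finset ι) {D : ι → ℝ} (h : ∀ i, 1 ≤ D i) :
    1 ≤ ∏ i ∈ S, D i := Finset.one_le_prod fun i _ => h i

lemma det_core (k : ℕ) {X L : ℝ} (hX : 1 ≤ X) (hL : 1 ≤ L) (hLX : L ≤ X)
    (D : Fin (2 * k) → ℝ) (h1 : ∀ i, 1 ≤ D i) (h3 : ∀ i, D i ≤ 3 * X)
    (hprod : (X / 2) ^ (2 * k) ≤ (∏ i, D i) ^ 2) :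
    (∏ i, (L / D i + 1) ≤ 24 ^ k * L ^ k) ∧
    ∀ (i₀ : Fin (2 * k)) (B G : ℝ), 0 < B → B ≤ D i₀ → D i₀ ≤ G →
      ∏ i, (L / D i + 1) ≤ 24 ^ k * L ^ k * (L / X + 1 / L + 1 / B + G / X) := by
  classical
  have hX0 : 0 < X := by linarith
  have hL0 : 0 < L := by linarith
  have hD0 : ∀ i, 0 < D i := fun i => by linarith [h1 i]
  set S := univ.filter (fun i => D i ≤ L) with hS
  set R := univ.filter (fun i => ¬ D i ≤ L) with hR
  set t := R.card with ht
  have hcard : S.card + t = 2 * k := by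
    rw [ht, hS, hR, card_filter_add_card_filter_not]
    simp
  have hScard : S.card = 2 * k - t := by omega
  set P1 := ∏ i ∈ S, D i with hP1
  set P2 := ∏ i ∈ R, D i with hP2
  have hP : P1 * P2 = ∏ i, D i := prod_filter_mul_prod_filter_not _ _ _
  have hP1' : 1 ≤ P1 := one_le_prod_real S h1
  have hP2' : 1 ≤ P2 := one_le_prod_real R h1
  have hP1p : 0 < P1 := by linarith
  have hP2p : 0 < P2 := by linarith
  have hlow : (X / 2) ^ k ≤ P1 * P2 := by
    rw [hP]
    refine le_of_sq_le_sq ?_ (prod_nonneg fun i _ => (hD0 i).le)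
    rw [← pow_mul, mul_comm k 2]
    exact hprod
  have hP2t : P2 ≤ (3 * X) ^ t := by
    rw [ht, ← prod_const]
    exact prod_le_prod (fun i _ => (hD0 i).le) fun i _ => h3 i
  -- the product
  have hmain : ∏ i, (L / D i + 1) ≤ 4 ^ k * (L ^ (2 * k - t) / P1) := by
    rw [← prod_filter_mul_prod_filter_not univ (fun i => D i ≤ L)]
    have e1 : ∏ i ∈ S, (L / D i + 1) ≤ ∏ i ∈ S, (2 * L / D i) := by
      refine prod_le_prod (fun i _ => by have := hD0 i; positivity) fun i hi => ?_
      rw [hS, mem_filter] at hi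
      have : 1 ≤ L / D i := (one_le_div (hD0 i)).2 hi.2
      calc L / D i + 1 ≤ L / D i + L / D i := by linarith
        _ = _ := by ring
    have e2 : ∏ i ∈ R, (L / D i + 1) ≤ ∏ _i ∈ R, (2 : ℝ) := by
      refine prod_le_prod (fun i _ => by have := hD0 i; positivity) fun i hi => ?_
      rw [hR, mem_filter, not_le] at hi
      have : L / D i ≤ 1 := (div_le_one (hD0 i)).2 hi.2.le
      linarith
    have e3 : ∏ i ∈ S, (2 * L / D i) = (2 * L) ^ (2 * k - t) / P1 := by
      rw [prod_div_distrib, prod_const, hScard]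
    refine (mul_le_mul e1 e2 (prod_nonneg fun i _ => by have := hD0 i; positivity)
      (prod_nonneg fun i _ => by have := hD0 i; positivity)).trans (le_of_eq ?_)
    rw [e3, prod_const, ← ht, mul_pow]
    have e4 : (4 : ℝ) ^ k = 2 ^ (2 * k - t) * 2 ^ t := by
      rw [← pow_add, show 2 * k - t + t = 2 * k by omega, pow_mul]
      norm_num
    rw [e4]
    ring
  have h24 : (24 : ℝ) ^ k = 4 ^ k * 6 ^ k := by rw [← mul_pow]; norm_num
  have h6 : (1 : ℝ) ≤ 6 ^ k := one_le_pow₀ (by norm_num)
  have hLk : 0 < L ^ k := by positivity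
  -- the case of few large divisors
  have case1 : t < k → L ^ (2 * k - t) / P1 ≤ 6 ^ k * L ^ k * (L / X) := by
    intro htk
    obtain ⟨j, hj⟩ : ∃ j, k = t + (j + 1) := ⟨k - t - 1, by omega⟩
    rw [div_le_iff₀ hP1p]
    have a1 : (X / 2) ^ k ≤ P1 * (3 * X) ^ t :=
      hlow.trans (mul_le_mul_of_nonneg_left hP2t hP1p.le)
    have a2 : L ^ (2 * k - t) = L ^ k * L * L ^ j := by
      rw [show 2 * k - t = k + 1 + j by omega, pow_add, pow_add, pow_one]
    have a3 : L ^ j ≤ X ^ j := pow_le_pow_left₀ hL0.le hLX j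
    have a4 : X ^ j * X ≤ 6 ^ k * P1 := by
      have b1 : X ^ k ≤ 2 ^ k * (P1 * (3 * X) ^ t) := by
        calc X ^ k = 2 ^ k * (X / 2) ^ k := by rw [← mul_pow]; congr 1; ring
          _ ≤ _ := mul_le_mul_of_nonneg_left a1 (by positivity)
      have b2 : (3 : ℝ) ^ t ≤ 3 ^ k := pow_le_pow_right₀ (by norm_num) htk.le
      have b3 : X ^ t * (X ^ j * X) ≤ X ^ t * (6 ^ k * P1) := by
        calc X ^ t * (X ^ j * X) = X ^ k := by rw [hj]; ring
          _ ≤ 2 ^ k * (P1 * (3 * X) ^ t) := b1
          _ = X ^ t * (2 ^ k * 3 ^ t * P1) := by rw [mul_pow]; ring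
          _ ≤ X ^ t * (2 ^ k * 3 ^ k * P1) := by gcongr
          _ = _ := by rw [← mul_pow]; norm_num
      exact le_of_mul_le_mul_left b3 (by positivity)
    calc L ^ (2 * k - t) = L ^ k * L * L ^ j := a2
      _ ≤ L ^ k * L * X ^ j := mul_le_mul_of_nonneg_left a3 (by positivity)
      _ = L ^ k * (L / X) * (X ^ j * X) := by field_simp
      _ ≤ L ^ k * (L / X) * (6 ^ k * P1) := mul_le_mul_of_nonneg_left a4 (by positivity)
      _ = _ := by ring
  have case2 : k < t → L ^ (2 * k - t) / P1 ≤ 6 ^ k * L ^ k * (1 / L) := by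
    intro htk
    obtain ⟨j, hj⟩ : ∃ j, k = j + 1 := ⟨k - 1, by omega⟩
    have a1 : L ^ (2 * k - t) / P1 ≤ L ^ j := by
      refine (div_le_self (by positivity) hP1').trans ?_
      exact pow_le_pow_right₀ hL (by omega)
    refine a1.trans ?_
    have a2 : L ^ k * (1 / L) = L ^ j := by rw [hj]; field_simp; ring
    rw [mul_assoc, a2]
    exact le_mul_of_one_le_left (by positivity) h6
  have case3 : t = k → L ^ (2 * k - t) / P1 = L ^ k / P1 := by
    intro htk
    rw [htk, show 2 * k - k = k by omega]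
  constructor
  · refine hmain.trans ?_
    rw [h24, mul_assoc]
    refine mul_le_mul_of_nonneg_left ?_ (by positivity)
    rcases lt_trichotomy t k with h | h | h
    · refine (case1 h).trans ?_
      exact mul_le_of_le_one_right (by positivity) ((div_le_one hX0).2 hLX)
    · rw [case3 h]
      refine (div_le_self hLk.le hP1').trans ?_
      exact le_mul_of_one_le_left hLk.le h6
    · refine (case2 h).trans ?_
      exact mul_le_of_le_one_right (by positivity) ((div_le_one hL0).2 hL)
  · intro i₀ B G hB hBD hDG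
    have hG0 : 0 < G := lt_of_lt_of_le (hD0 i₀) hDG
    have p1 : 0 ≤ L / X := by positivity
    have p2 : 0 ≤ 1 / L := by positivity
    have p3 : 0 ≤ 1 / B := by positivity
    have p4 : 0 ≤ G / X := by positivity
    refine hmain.trans ?_
    rw [h24, mul_assoc, mul_assoc, ← mul_assoc (6 ^ k)]
    refine mul_le_mul_of_nonneg_left ?_ (by positivity)
    have hpos : 0 ≤ 6 ^ k * L ^ k := by positivity
    rcases lt_trichotomy t k with h | h | h
    · refine (case1 h).trans (mul_le_mul_of_nonneg_left ?_ hpos)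
      linarith
    · rw [case3 h]
      by_cases hi : D i₀ ≤ L
      · have hiS : i₀ ∈ S := by rw [hS, mem_filter]; exact ⟨mem_univ _, hi⟩
        have a1 : D i₀ ≤ P1 := by
          rw [hP1, ← mul_prod_erase S D hiS]
          exact le_mul_of_one_le_right (hD0 i₀).le (one_le_prod_real _ h1)
        have a2 : L ^ k / P1 ≤ L ^ k * (1 / B) := by
          rw [div_eq_mul_one_div]
          refine mul_le_mul_of_nonneg_left ?_ hLk.le
          exact one_div_le_one_div_of_le hB (hBD.trans a1)
        refine a2.trans ?_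
        calc L ^ k * (1 / B) ≤ 6 ^ k * (L ^ k * (1 / B)) := le_mul_of_one_le_left (by positivity) h6
          _ = 6 ^ k * L ^ k * (1 / B) := by ring
          _ ≤ _ := mul_le_mul_of_nonneg_left (by linarith) hpos
      · have hiR : i₀ ∈ R := by rw [hR, mem_filter]; exact ⟨mem_univ _, hi⟩
        have htk : 1 ≤ k := by
          rw [← h, ht]; exact card_pos.2 ⟨i₀, hiR⟩
        obtain ⟨j, hj⟩ : ∃ j, k = j + 1 := ⟨k - 1, by omega⟩
        have a1 : P2 ≤ G * (3 * X) ^ j := by
          rw [hP2, ← mul_prod_erase R D hiR]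
          have a2 : ∏ i ∈ R.erase i₀, D i ≤ (3 * X) ^ j := by
            have : (R.erase i₀).card = j := by rw [card_erase_of_mem hiR]; omega
            rw [← this, ← prod_const]
            exact prod_le_prod (fun i _ => (hD0 i).le) fun i _ => h3 i
          exact mul_le_mul hDG a2 (prod_nonneg fun i _ => (hD0 i).le) hG0.le
        have a3 : (X / 2) ^ k ≤ P1 * (G * (3 * X) ^ j) :=
          hlow.trans (mul_le_mul_of_nonneg_left a1 hP1p.le)
        have a4 : X ≤ 6 ^ k * P1 * G := by
          have b1 : X ^ k ≤ 2 ^ k * (P1 * (G * (3 * X) ^ j)) := by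
            calc X ^ k = 2 ^ k * (X / 2) ^ k := by rw [← mul_pow]; congr 1; ring
              _ ≤ _ := mul_le_mul_of_nonneg_left a3 (by positivity)
          have b2 : (3 : ℝ) ^ j ≤ 3 ^ k := pow_le_pow_right₀ (by norm_num) (by omega)
          have b3 : X ^ j * X ≤ X ^ j * (6 ^ k * P1 * G) := by
            calc X ^ j * X = X ^ k := by rw [hj]; ring
              _ ≤ 2 ^ k * (P1 * (G * (3 * X) ^ j)) := b1
              _ = X ^ j * (2 ^ k * 3 ^ j * P1 * G) := by rw [mul_pow]; ring
              _ ≤ X ^ j * (2 ^ k * 3 ^ k * P1 * G) := by gcongr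
              _ = _ := by rw [← mul_pow]; norm_num
          exact le_of_mul_le_mul_left b3 (by positivity)
        have a5 : L ^ k / P1 ≤ 6 ^ k * L ^ k * (G / X) := by
          rw [div_le_iff₀ hP1p]
          have : 1 ≤ 6 ^ k * P1 * G / X := (one_le_div hX0).2 a4
          calc L ^ k = L ^ k * 1 := (mul_one _).symm
            _ ≤ L ^ k * (6 ^ k * P1 * G / X) := mul_le_mul_of_nonneg_left this hLk.le
            _ = _ := by ring
        refine a5.trans (mul_le_mul_of_nonneg_left ?_ hpos)
        linarith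
    · refine (case2 h).trans (mul_le_mul_of_nonneg_left ?_ hpos)
      linarith

end Pool.Agent.U585.GA
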