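import Pool.Agent.U585.GA.L2r

/-!
# Large deviations of the moments, Borel-Cantelli
-/

set_option autoImplicit false
set_option linter.unusedSectionVars false

open MeasureTheory Filter Topology ProbabilityTheory

namespace Pool.Agent.U585.GA

open Pool.Agent.U585.GC (Signs PN poly hyper poly_pow_int Ck Ck_ge)

variable {Ω : Type} [mΩ : MeasurableSpace Ω] {P : Measure Ω} [IsProbabilityMeasure P]
  {f : ℕ → Ω → ℝ}

/-- the saving -/
noncomputable def dl (r : ℕ) (ε : ℝ) : ℝ := min (ε / 4) (1 / (4 * r)) / 2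

lemma dl_pos {r : ℕ} (hr : 1 ≤ r) {ε : ℝ} (hε : 0 < ε) : 0 < dl r ε := by
  unfold dl
  have : (0 : ℝ) < r := by exact_mod_cast hr
  have := lt_min (by linarith : 0 < ε / 4) (by positivity : (0 : ℝ) < 1 / (4 * r))
  linarith

lemma dl_le {r : ℕ} {ε : ℝ} : dl r ε ≤ ε / 8 := by
  unfold dl
  have := min_le_left (ε / 4) (1 / (4 * (r : ℝ)))
  linarith

/-- large deviations of the moments -/
theorem large_dev_r (h : Signs P f) (r : ℕ) (hr : 1 ≤ r) (ε : ℝ) (hε : 0 < ε) (hε2 : ε ≤ 1 / 2)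
    (m : ℕ) : ∃ K X₀ : ℝ, 0 < K ∧ 1 ≤ X₀ ∧ ∀ (X H : ℝ) (N : ℕ), X₀ ≤ X → X ^ ε ≤ H →
      H ≤ X ^ (1 - ε) → (N : ℝ) ≤ 4 * X →
      P.real {ω | √(H ^ r) * X ^ (-(dl r ε / 4)) < |De X H r N (fun p => f p ω)|} ≤
        K / X ^ m := by
  have hd := dl_pos hr hε
  set δ := dl r ε with hδ
  obtain ⟨k, hk⟩ := exists_nat_gt (m / (δ / 2))
  set k' := k + 1 with hk'
  have hk1 : 1 ≤ k' := by omega
  have hkm : (m : ℝ) ≤ δ / 2 * k' := by
    rw [div_lt_iff₀ (by linarith)] at hk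
    rw [hk']
    push_cast
    nlinarith
  obtain ⟨K, X₀, hK, hX₀, hb⟩ := l2r r hr (Ck k') ε (Ck_ge k') hε hε2
  refine ⟨K ^ k', X₀, by positivity, hX₀, fun X H N hX hHl hHu hN => ?_⟩
  have hX1 : 1 ≤ X := hX₀.trans hX
  have hX0 : 0 < X := by linarith
  have hH0 : 0 < H := lt_of_lt_of_le (Real.rpow_pos_of_pos hX0 ε) hHl
  have hB0 : 0 < H ^ r := by positivity
  set Y : Ω → ℝ := fun ω => De X H r N (fun p => f p ω) with hY
  have hYp : Y = fun ω => poly (PN N) (ac X H r N) (fun p => f p ω) := by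
    funext ω
    rw [hY]
    exact De_eq X H r N _
  have h1 : ∫ ω, Y ω ^ (2 * k') ∂P ≤ (K * (H ^ r * X ^ (-δ))) ^ k' := by
    rw [hYp]
    refine (hyper h k' hk1 (PN N) (ac X H r N)).trans ?_
    refine pow_le_pow_left₀ ?_ (hb X H N hX hHl hHu hN) k'
    have := Ck_ge k'
    exact Finset.sum_nonneg fun U _ => by positivity
  have hint : Integrable (fun ω => Y ω ^ (2 * k')) P := by
    rw [hYp]
    exact poly_pow_int h _ _ _
  set lam := (√(H ^ r) * X ^ (-(δ / 4))) ^ (2 * k') with hlam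
  have hlam0 : 0 < lam := by positivity
  have hlam1 : lam = (H ^ r * X ^ (-(δ / 2))) ^ k' := by
    rw [hlam, pow_mul]
    congr 1
    rw [mul_pow, Real.sq_sqrt hB0.le, ← Real.rpow_natCast (X ^ (-(δ / 4))) 2,
      ← Real.rpow_mul hX0.le]
    congr 2
    push_cast
    ring
  have h2 := mul_meas_ge_le_integral_of_nonneg (μ := P) (f := fun ω => Y ω ^ (2 * k'))
    (ae_of_all _ fun ω => by
      simp only [Pi.zero_apply]
      rw [pow_mul]; positivity) hint lam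
  have h3 : P.real {ω | √(H ^ r) * X ^ (-(δ / 4)) < |Y ω|} ≤
      P.real {ω | lam ≤ Y ω ^ (2 * k')} := by
    refine measureReal_mono ?_
    intro ω hω
    rw [Set.mem_ofPred_eq] at hω ⊢
    have : lam ≤ |Y ω| ^ (2 * k') := pow_le_pow_left₀ (by positivity) hω.le _
    rwa [pow_mul |Y ω|, sq_abs, ← pow_mul] at this
  have h4 : P.real {ω | lam ≤ Y ω ^ (2 * k')} ≤ (K * (H ^ r * X ^ (-δ))) ^ k' / lam := by
    rw [le_div_iff₀ hlam0, mul_comm]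
    exact h2.trans h1
  refine h3.trans (h4.trans ?_)
  rw [hlam1, ← div_pow]
  have h5 : K * (H ^ r * X ^ (-δ)) / (H ^ r * X ^ (-(δ / 2))) = K / X ^ (δ / 2) := by
    have e1 : X ^ (-δ) = X ^ (-(δ / 2)) * X ^ (-(δ / 2)) := by
      rw [← Real.rpow_add hX0]; congr 1; ring
    have e2 : X ^ (-(δ / 2)) ≠ 0 := (Real.rpow_pos_of_pos hX0 _).ne'
    rw [e1]
    rw [show K / X ^ (δ / 2) = K * X ^ (-(δ / 2)) by rw [Real.rpow_neg hX0.le]; rfl]
    field_simp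
  rw [h5, div_pow]
  refine div_le_div_of_nonneg_left (by positivity) (by positivity) ?_
  rw [← Real.rpow_natCast (X ^ (δ / 2)) k', ← Real.rpow_mul hX0.le, ← Real.rpow_natCast X m]
  exact Real.rpow_le_rpow_of_exponent_le hX1 hkm

/-- the condition on the points of the grid -/
def Cond (r : ℕ) (ε : ℝ) (n a b : ℕ) : Prop :=
  (n : ℝ) - 1 ≤ a / (n : ℝ) ^ (r + 4) ∧
    ((a : ℝ) / (n : ℝ) ^ (r + 4)) ^ ε ≤ (b : ℝ) / (n : ℝ) ^ (r + 4) ∧
    (b : ℝ) / (n : ℝ) ^ (r + 4) ≤ ((a : ℝ) / (n : ℝ) ^ (r + 4)) ^ (1 - ε)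

/-- the bad event at a point of the grid -/
def bad1 (f : ℕ → Ω → ℝ) (r : ℕ) (ε : ℝ) (n a b : ℕ) : Set Ω :=
  {ω | Cond r ε n a b ∧ √(((b : ℝ) / (n : ℝ) ^ (r + 4)) ^ r) *
      ((a : ℝ) / (n : ℝ) ^ (r + 4)) ^ (-(dl r ε / 4)) <
    |De ((a : ℝ) / (n : ℝ) ^ (r + 4)) ((b : ℝ) / (n : ℝ) ^ (r + 4)) r (3 * n)
      (fun p => f p ω)|}

/-- the bad event -/
def bad (f : ℕ → Ω → ℝ) (r : ℕ) (ε : ℝ) (n : ℕ) : Set Ω :=
  ⋃ z ∈ Finset.range (n ^ (r + 5) + 1) ×ˢ Finset.range (n ^ (r + 5) + 1), bad1 f r ε n z.1 z.2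

lemma bad_small (h : Signs P f) (r : ℕ) (hr : 1 ≤ r) (ε : ℝ) (hε : 0 < ε) (hε2 : ε ≤ 1 / 2) :
    ∃ (K : ℝ) (n₀ : ℕ), 0 < K ∧ ∀ n : ℕ, n₀ ≤ n → P.real (bad f r ε n) ≤ K / (n : ℝ) ^ 2 := by
  obtain ⟨K, X₀, hK, hX₀, hd⟩ := large_dev_r h r hr ε hε hε2 (2 * r + 12)
  refine ⟨K * 2 ^ (2 * r + 14), ⌈X₀⌉₊ + 4, by positivity, fun n hn => ?_⟩
  have hn0 : (4 : ℝ) ≤ n := by exact_mod_cast (by omega : 4 ≤ n)
  have hnX : X₀ ≤ (n : ℝ) - 1 := by
    have h1 := Nat.le_ceil X₀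
    have h2 : ((⌈X₀⌉₊ + 4 : ℕ) : ℝ) ≤ n := by exact_mod_cast hn
    push_cast at h2
    linarith
  have h1 : ∀ z ∈ Finset.range (n ^ (r + 5) + 1) ×ˢ Finset.range (n ^ (r + 5) + 1),
      P.real (bad1 f r ε n z.1 z.2) ≤ K * 2 ^ (2 * r + 12) / (n : ℝ) ^ (2 * r + 12) := by
    intro z hz
    by_cases hc : Cond r ε n z.1 z.2
    · obtain ⟨c1, c2, c3⟩ := hc
      have hX : X₀ ≤ (z.1 : ℝ) / (n : ℝ) ^ (r + 4) := by linarith
      have hN : ((3 * n : ℕ) : ℝ) ≤ 4 * ((z.1 : ℝ) / (n : ℝ) ^ (r + 4)) := by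
        push_cast; linarith
      have h2 := hd _ _ (3 * n) hX c2 c3 hN
      have h3 : P.real (bad1 f r ε n z.1 z.2) ≤
          K / ((z.1 : ℝ) / (n : ℝ) ^ (r + 4)) ^ (2 * r + 12) := by
        refine le_trans (measureReal_mono ?_) h2
        intro ω hω
        exact hω.2
      refine h3.trans ?_
      have h4 : (n : ℝ) / 2 ≤ (z.1 : ℝ) / (n : ℝ) ^ (r + 4) := by linarith
      have h5 : ((n : ℝ) / 2) ^ (2 * r + 12) ≤ ((z.1 : ℝ) / (n : ℝ) ^ (r + 4)) ^ (2 * r + 12) :=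
        pow_le_pow_left₀ (by positivity) h4 _
      calc K / ((z.1 : ℝ) / (n : ℝ) ^ (r + 4)) ^ (2 * r + 12) ≤ K / ((n : ℝ) / 2) ^ (2 * r + 12) :=
            div_le_div_of_nonneg_left hK.le (by positivity) h5
        _ = _ := by rw [div_pow]; field_simp
    · have : bad1 f r ε n z.1 z.2 = ∅ := by
        ext ω
        simp only [Set.mem_empty_iff_false, iff_false]
        exact fun hω => hc hω.1
      rw [this, measureReal_empty]
      positivity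
  have h2 : P.real (bad f r ε n) ≤
      ∑ z ∈ Finset.range (n ^ (r + 5) + 1) ×ˢ Finset.range (n ^ (r + 5) + 1),
        P.real (bad1 f r ε n z.1 z.2) := measureReal_biUnion_finset_le _ _
  refine (h2.trans (Finset.sum_le_sum h1)).trans ?_
  rw [Finset.sum_const, Finset.card_product, Finset.card_range, nsmul_eq_mul]
  push_cast
  have h3 : ((n : ℝ) ^ (r + 5) + 1) ≤ 2 * (n : ℝ) ^ (r + 5) := by
    have : (1 : ℝ) ≤ (n : ℝ) ^ (r + 5) := one_le_pow₀ (by linarith)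
    linarith
  have h4 : ((n : ℝ) ^ (r + 5) + 1) * ((n : ℝ) ^ (r + 5) + 1) ≤
      (2 * (n : ℝ) ^ (r + 5)) * (2 * (n : ℝ) ^ (r + 5)) :=
    mul_le_mul h3 h3 (by positivity) (by positivity)
  have e0 : (n : ℝ) ^ (2 * r + 12) = (n : ℝ) ^ (r + 5) * (n : ℝ) ^ (r + 5) * (n : ℝ) ^ 2 := by
    rw [← pow_add, ← pow_add]; congr 1; ring
  have e1 : (2 : ℝ) ^ (2 * r + 14) = 2 ^ (2 * r + 12) * 4 := by
    rw [show 2 * r + 14 = (2 * r + 12) + 2 by ring, pow_add]; norm_num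
  have hn5 : (n : ℝ) ^ (r + 5) ≠ 0 := by positivity
  have hn2 : (n : ℝ) ^ 2 ≠ 0 := by positivity
  calc ((n : ℝ) ^ (r + 5) + 1) * ((n : ℝ) ^ (r + 5) + 1) *
        (K * 2 ^ (2 * r + 12) / (n : ℝ) ^ (2 * r + 12))
      ≤ (2 * (n : ℝ) ^ (r + 5)) * (2 * (n : ℝ) ^ (r + 5)) *
        (K * 2 ^ (2 * r + 12) / (n : ℝ) ^ (2 * r + 12)) :=
        mul_le_mul_of_nonneg_right h4 (by positivity)
    _ = _ := by
        rw [e0, e1]
        generalize (n : ℝ) ^ (r + 5) = A at *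
        generalize (n : ℝ) ^ 2 = B at *
        generalize (2 : ℝ) ^ (2 * r + 12) = D
        field_simp
        ring

lemma ae_good (h : Signs P f) (r : ℕ) (hr : 1 ≤ r) (ε : ℝ) (hε : 0 < ε) (hε2 : ε ≤ 1 / 2) :
    ∀ᵐ ω ∂P, ∀ᶠ n : ℕ in atTop, ω ∉ bad f r ε n := by
  obtain ⟨K, n₀, hK, hb⟩ := bad_small h r hr ε hε hε2
  have hsum : ∑' n : ℕ, P (bad f r ε (n + n₀)) ≠ ⊤ := by
    have h1 : ∀ n : ℕ, P (bad f r ε (n + n₀)) ≤
        ENNReal.ofReal (K / ((n + n₀ : ℕ) : ℝ) ^ 2) := by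
      intro n
      rw [← ofReal_measureReal]
      exact ENNReal.ofReal_le_ofReal (hb (n + n₀) (by omega))
    have h2 : Summable fun n : ℕ => K / ((n + n₀ : ℕ) : ℝ) ^ 2 := by
      have h3 : Summable fun n : ℕ => K / (n : ℝ) ^ 2 := by
        have := (Real.summable_one_div_nat_pow.2 (by norm_num : 1 < 2)).mul_left K
        refine this.congr fun n => ?_
        ring
      exact (summable_nat_add_iff n₀).2 h3
    refine ne_top_of_le_ne_top ?_ (ENNReal.tsum_le_tsum h1)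
    exact h2.tsum_ofReal_ne_top
  have h4 := ae_eventually_notMem hsum
  filter_upwards [h4] with ω hω
  rw [eventually_atTop] at hω ⊢
  obtain ⟨n1, hn1⟩ := hω
  refine ⟨n1 + n₀, fun n hn => ?_⟩
  have := hn1 (n - n₀) (by omega)
  rwa [show n - n₀ + n₀ = n by omega] at this

end Pool.Agent.U585.GA
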