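import Pool.Agent.U585.GA.Pair

/-!
# The sum of the squares of the coefficients of the moments
-/

set_option autoImplicit false
set_option linter.unusedSectionVars false

open Finset

namespace Pool.Agent.U585.GA

open Pool.Agent.U585.GC (PN mem_PN small_pow poly)

lemma uo_prod_le {X H : ℝ} {r N : ℕ} {z : Fin r → ℕ} (hz : z ∈ TP X H r N) :
    ∏ p ∈ uo N z, p ≤ N ^ r := by
  rw [mem_TP] at hz
  have h1 : ∏ p ∈ uo N z, p ∣ ∏ i, z i := by
    refine Finset.prod_primes_dvd _ (fun p hp => ?_) fun p hp => ?_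
    · unfold uo at hp
      rw [mem_filter] at hp
      exact (mem_PN.1 hp.1).1.prime
    · unfold uo at hp
      rw [mem_filter] at hp
      obtain ⟨i, hi⟩ : (univ.filter (fun i => p ∣ z i)).Nonempty := by
        rw [← card_pos]; exact hp.2.pos
      rw [mem_filter] at hi
      exact hi.2.trans (dvd_prod_of_mem z (mem_univ i))
  have h2 : 0 < ∏ i, z i := prod_pos fun i _ => (hz.1 i).1
  refine (Nat.le_of_dvd h2 h1).trans ?_
  calc ∏ i, z i ≤ ∏ _i : Fin r, N := prod_le_prod' fun i _ => (hz.1 i).2.1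
    _ = N ^ r := by simp

/-- reduction to the number of pairs -/
lemma l2_le {X H C D : ℝ} {r N : ℕ} (hr : 1 ≤ r) (hX : 0 < X) (hH : 0 < H) (hC : 1 ≤ C)
    (hD : ∀ z ∈ TP X H r N, C ^ (uo N z).card ≤ D) :
    ∑ U ∈ (PN N).powerset, C ^ U.card * ac X H r N U ^ 2 ≤
      (H / X) ^ 2 * (D * (PP X H r N).card) := by
  classical
  set ρ : Finset ℕ → ℝ := fun U => (((TP X H r N).filter (fun z => uo N z = U)).card : ℝ) with hρ
  have h1 : ∀ U, ac X H r N U ^ 2 ≤ (H / X) ^ 2 * ρ U ^ 2 := by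
    intro U
    rw [← mul_pow]
    have h0 : 0 ≤ ac X H r N U := by
      unfold ac
      exact sum_nonneg fun n _ => div_nonneg (om_nonneg hX.le H n) hX.le
    refine pow_le_pow_left₀ h0 ?_ 2
    have e1 : ac X H r N U = ∑ n ∈ (TP X H r N).filter (fun z => uo N z = U), om X H n / X := by
      unfold ac
      have e : (TP X H r N).filter (fun z => uo N z = U) =
          (((TN r N).filter (fun n => NE n)).filter (fun n => uo N n = U)).filter
            (fun n => 0 < om X H n) := by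
        unfold TP
        ext z
        simp only [mem_filter]
        tauto
      rw [e]
      refine (sum_filter_of_ne fun n _ hn => ?_).symm
      refine lt_of_le_of_ne (om_nonneg hX.le H n) fun h => hn ?_
      rw [← h, zero_div]
    rw [e1]
    calc ∑ n ∈ (TP X H r N).filter (fun z => uo N z = U), om X H n / X
        ≤ ∑ _n ∈ (TP X H r N).filter (fun z => uo N z = U), H / X :=
          sum_le_sum fun n _ => div_le_div_of_nonneg_right (om_le hr hX.le hH.le n) hX.le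
      _ = _ := by rw [sum_const, nsmul_eq_mul, hρ]; ring
  have h2 : ∑ U ∈ (PN N).powerset, C ^ U.card * ac X H r N U ^ 2 ≤
      (H / X) ^ 2 * ∑ U ∈ (PN N).powerset, C ^ U.card * ρ U ^ 2 := by
    rw [mul_sum]
    refine sum_le_sum fun U _ => ?_
    calc C ^ U.card * ac X H r N U ^ 2 ≤ C ^ U.card * ((H / X) ^ 2 * ρ U ^ 2) :=
          mul_le_mul_of_nonneg_left (h1 U) (by positivity)
      _ = _ := by ring
  refine h2.trans (mul_le_mul_of_nonneg_left ?_ (by positivity))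
  have h3 : ∑ U ∈ (PN N).powerset, C ^ U.card * ρ U ^ 2 =
      ∑ z ∈ TP X H r N, C ^ (uo N z).card * ρ (uo N z) := by
    rw [← sum_fiberwise_of_maps_to (t := (PN N).powerset) (g := fun n : Fin r → ℕ => uo N n)
      (fun n _ => uo_sub n)]
    refine sum_congr rfl fun U _ => ?_
    have : ∑ z ∈ (TP X H r N).filter (fun z => uo N z = U), C ^ (uo N z).card * ρ (uo N z) =
        ∑ z ∈ (TP X H r N).filter (fun z => uo N z = U), C ^ U.card * ρ U := by
      refine sum_congr rfl fun z hz => ?_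
      rw [mem_filter] at hz
      rw [hz.2]
    rw [this, sum_const, nsmul_eq_mul, hρ]
    ring
  rw [h3]
  have h4 : ∑ z ∈ TP X H r N, C ^ (uo N z).card * ρ (uo N z) ≤
      ∑ z ∈ TP X H r N, D * ρ (uo N z) := by
    refine sum_le_sum fun z hz => mul_le_mul_of_nonneg_right (hD z hz) ?_
    rw [hρ]
    exact Nat.cast_nonneg _
  refine h4.trans (le_of_eq ?_)
  rw [← mul_sum]
  congr 1
  have h5 : (PP X H r N).card = ∑ z ∈ TP X H r N,
      ((TP X H r N).filter (fun z' => uo N z' = uo N z)).card := by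
    unfold PP
    rw [card_filter, sum_product]
    refine sum_congr rfl fun z _ => ?_
    rw [card_filter]
    refine sum_congr rfl fun z' _ => ?_
    by_cases h : uo N z = uo N z'
    · rw [if_pos h, if_pos h.symm]
    · rw [if_neg h, if_neg (Ne.symm h)]
  rw [h5, hρ]
  push_cast
  rfl

set_option maxHeartbeats 4000000 in
/-- the bound of the sum of squares -/
theorem l2r (r : ℕ) (hr : 1 ≤ r) (C ε : ℝ) (hC : 1 ≤ C) (hε : 0 < ε) (hε2 : ε ≤ 1 / 2) :
    ∃ K X₀ : ℝ, 0 < K ∧ 1 ≤ X₀ ∧ ∀ (X H : ℝ) (N : ℕ), X₀ ≤ X → X ^ ε ≤ H →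
      H ≤ X ^ (1 - ε) → (N : ℝ) ≤ 4 * X →
      ∑ U ∈ (PN N).powerset, C ^ U.card * ac X H r N U ^ 2 ≤
        K * (H ^ r * X ^ (-(min (ε / 4) (1 / (4 * r)) / 2))) := by
  have hrR : (1 : ℝ) ≤ r := by exact_mod_cast hr
  have hr0 : (0 : ℝ) < r := by linarith
  set δ : ℝ := min (ε / 4) (1 / (4 * r)) with hδ
  have hδ0 : 0 < δ := lt_min (by linarith) (by positivity)
  have hδ1 : δ ≤ ε / 4 := min_le_left _ _
  have hδ2 : δ ≤ 1 / (4 * r) := min_le_right _ _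
  obtain ⟨K1, hK1, hs1⟩ := small_pow 2 (δ / (16 * r ^ 2)) (by norm_num) (by positivity)
  obtain ⟨K2, hK2, hs2⟩ := small_pow C (δ / (4 * r)) hC (by positivity)
  -- the constants
  obtain ⟨X₁, hX₁⟩ : ∃ X₁ : ℝ, ∀ X : ℝ, X₁ ≤ X → 6 ≤ X ^ (3 * ε / 4) :=
    Filter.eventually_atTop.1 ((tendsto_rpow_atTop (by positivity : 0 < 3 * ε / 4)).eventually_ge_atTop 6)
  refine ⟨K2 * 4 * (24 ^ r * 6 ^ r * (K1 ^ (2 * r) * 3) * (64 * r ^ 2 * 9 + 1296)),
    max X₁ 5, by positivity, le_trans (by norm_num) (le_max_right _ _), ?_⟩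
  intro X H N hXX hHl hHu hN
  have hX5 : 5 ≤ X := (le_max_right _ _).trans hXX
  have hX0 : 0 < X := by linarith
  have hX1 : 1 ≤ X := by linarith
  have h6 : 6 ≤ X ^ (3 * ε / 4) := hX₁ X ((le_max_left _ _).trans hXX)
  have hH1 : 1 ≤ H := (Real.one_le_rpow hX1 hε.le).trans hHl
  have hH0 : 0 < H := by linarith
  set h₀ := ⌈H⌉₊ with hh₀
  have hh1 : H ≤ h₀ := Nat.le_ceil H
  have hh2 : (h₀ : ℝ) ≤ 2 * H := by
    have := Nat.ceil_lt_add_one hH0.le
    linarith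
  have hh0 : (0 : ℝ) < h₀ := by linarith
  have hHX1 : H ≤ X := hHu.trans (by
    calc X ^ (1 - ε) ≤ X ^ (1 : ℝ) := Real.rpow_le_rpow_of_exponent_le hX1 (by linarith)
      _ = X := Real.rpow_one X)
  set G := X ^ (1 - ε / 4) with hG
  set A := 3 * X ^ (ε / 4) with hA
  set B := X ^ (1 / (4 * (r : ℝ))) with hB
  have hG0 : 0 < G := by rw [hG]; positivity
  have hA1 : 1 ≤ A := by
    rw [hA]
    have := Real.one_le_rpow hX1 (by linarith : 0 ≤ ε / 4)
    linarith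
  have hB1 : 1 ≤ B := Real.one_le_rpow hX1 (by positivity)
  have hAG : 3 * X ≤ A * G := by
    rw [hA, hG, mul_assoc, ← Real.rpow_add hX0]
    have : ε / 4 + (1 - ε / 4) = 1 := by ring
    rw [this, Real.rpow_one]
  have hLG : 3 * (h₀ : ℝ) ≤ G := by
    have e1 : G = X ^ (1 - ε) * X ^ (3 * ε / 4) := by
      rw [hG, ← Real.rpow_add hX0]; congr 1; ring
    have e2 : 0 < X ^ (1 - ε) := by positivity
    calc 3 * (h₀ : ℝ) ≤ 6 * H := by linarith
      _ ≤ 6 * X ^ (1 - ε) := by linarith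
      _ ≤ X ^ (1 - ε) * X ^ (3 * ε / 4) := by nlinarith
      _ = G := e1.symm
  have hGX : G ≤ X := by
    calc G ≤ X ^ (1 : ℝ) := Real.rpow_le_rpow_of_exponent_le hX1 (by linarith)
      _ = X := Real.rpow_one X
  have hBr : B ^ (2 * r) < X / 2 := by
    have e1 : B ^ (2 * r) = X ^ (1 / 2 : ℝ) := by
      rw [hB, ← Real.rpow_natCast, ← Real.rpow_mul hX0.le]
      congr 1
      push_cast
      field_simp
      norm_num
    rw [e1, ← Real.sqrt_eq_rpow, Real.sqrt_lt' (by linarith)]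
    nlinarith
  set c := K1 * (3 * X) ^ (δ / (8 * r)) with hc
  have hc1 : 1 ≤ c := by
    have := Real.one_le_rpow (by linarith : (1 : ℝ) ≤ 3 * X) (by positivity : 0 ≤ δ / (8 * r))
    rw [hc]
    nlinarith
  have hdiv : ∀ Q : ℕ, 1 ≤ Q → Q ≤ ⌊3 * X⌋₊ ^ (2 * r) → (2 : ℝ) ^ Q.primeFactors.card ≤ c := by
    intro Q hQ1 hQ2
    have h1 := hs1 Q.primeFactors fun p hp => Nat.prime_of_mem_primeFactors hp
    have h2 : ∏ p ∈ Q.primeFactors, p ≤ Q := Nat.le_of_dvd (by omega) (Nat.prod_primeFactors_dvd Q)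
    have h3 : ((∏ p ∈ Q.primeFactors, p : ℕ) : ℝ) ≤ (3 * X) ^ (2 * r) := by
      have h4 : ((∏ p ∈ Q.primeFactors, p : ℕ) : ℝ) ≤ ((⌊3 * X⌋₊ ^ (2 * r) : ℕ) : ℝ) := by
        exact_mod_cast h2.trans hQ2
      refine h4.trans ?_
      push_cast
      exact pow_le_pow_left₀ (Nat.cast_nonneg _) (Nat.floor_le (by linarith)) _
    refine h1.trans (mul_le_mul_of_nonneg_left ?_ (by linarith))
    calc ((∏ p ∈ Q.primeFactors, p : ℕ) : ℝ) ^ (δ / (16 * r ^ 2))
        ≤ ((3 * X) ^ (2 * r)) ^ (δ / (16 * r ^ 2)) :=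
          Real.rpow_le_rpow (Nat.cast_nonneg _) h3 (by positivity)
      _ = (3 * X) ^ (δ / (8 * r)) := by
          rw [← Real.rpow_natCast (3 * X) (2 * r), ← Real.rpow_mul (by linarith)]
          congr 1
          push_cast
          field_simp
          norm_num
  have hPP := PP_card (N := N) hr (by linarith : (2 : ℝ) ≤ X) hH1 hHX1 hh1 (hLG.trans hGX) hB1
    hBr hLG hA1 hAG hc1 hdiv
  set Bn : ℝ := ((⌊3 * X⌋₊ / h₀ + 1 : ℕ) : ℝ) with hBn
  have hBn0 : 0 ≤ Bn := Nat.cast_nonneg _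
  have hBn1 : Bn ≤ 4 * X / H := by
    have h1 : ((⌊3 * X⌋₊ / h₀ : ℕ) : ℝ) ≤ (⌊3 * X⌋₊ : ℝ) / h₀ := Nat.cast_div_le
    have h2 : (⌊3 * X⌋₊ : ℝ) / h₀ ≤ 3 * X / H :=
      div_le_div₀ (by positivity) (Nat.floor_le (by positivity)) hH0 hh1
    have h3 : 1 ≤ X / H := (one_le_div hH0).2 hHX1
    rw [hBn]
    push_cast
    calc ((⌊3 * X⌋₊ / h₀ : ℕ) : ℝ) + 1 ≤ 3 * X / H + X / H := by linarith
      _ = _ := by ring
  -- the sum σ
  have hXδ : X ^ (-ε) ≤ X ^ (-δ) := Real.rpow_le_rpow_of_exponent_le hX1 (by linarith)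
  have hσ : 3 * (h₀ : ℝ) / X + 1 / (3 * h₀) + 1 / B + G / X ≤ 9 * X ^ (-δ) := by
    have s1 : 3 * (h₀ : ℝ) / X ≤ 6 * X ^ (-δ) := by
      have e : X ^ (1 - ε) / X = X ^ (-ε) := by
        rw [← Real.rpow_sub_one hX0.ne']; congr 1; ring
      calc 3 * (h₀ : ℝ) / X ≤ 6 * X ^ (1 - ε) / X :=
            div_le_div_of_nonneg_right (by linarith) hX0.le
        _ = 6 * (X ^ (1 - ε) / X) := by ring
        _ ≤ _ := by rw [e]; linarith
    have s2 : 1 / (3 * (h₀ : ℝ)) ≤ X ^ (-δ) := by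
      calc 1 / (3 * (h₀ : ℝ)) ≤ 1 / X ^ ε := one_div_le_one_div_of_le (by positivity) (by linarith)
        _ = X ^ (-ε) := by rw [Real.rpow_neg hX0.le, one_div]
        _ ≤ _ := hXδ
    have s3 : 1 / B ≤ X ^ (-δ) := by
      rw [hB, one_div, ← Real.rpow_neg hX0.le]
      exact Real.rpow_le_rpow_of_exponent_le hX1 (by linarith)
    have s4 : G / X ≤ X ^ (-δ) := by
      rw [hG, ← Real.rpow_sub_one hX0.ne']
      exact Real.rpow_le_rpow_of_exponent_le hX1 (by linarith)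
    linarith
  have hD : ∀ z ∈ TP X H r N, C ^ (uo N z).card ≤ K2 * (4 * X ^ (δ / 4)) := by
    intro z hz
    have h1 := hs2 (uo N z) fun p hp => by
      unfold uo at hp
      exact (mem_PN.1 (mem_filter.1 hp).1).1
    refine h1.trans (mul_le_mul_of_nonneg_left ?_ (by linarith))
    have h2 : ((∏ p ∈ uo N z, p : ℕ) : ℝ) ≤ (4 * X) ^ r := by
      have h3 : ((∏ p ∈ uo N z, p : ℕ) : ℝ) ≤ ((N ^ r : ℕ) : ℝ) := by exact_mod_cast uo_prod_le hz
      refine h3.trans ?_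
      push_cast
      exact pow_le_pow_left₀ (Nat.cast_nonneg _) hN r
    calc ((∏ p ∈ uo N z, p : ℕ) : ℝ) ^ (δ / (4 * r)) ≤ ((4 * X) ^ r) ^ (δ / (4 * r)) :=
          Real.rpow_le_rpow (Nat.cast_nonneg _) h2 (by positivity)
      _ = (4 * X) ^ (δ / 4) := by
          rw [← Real.rpow_natCast (4 * X) r, ← Real.rpow_mul (by linarith)]
          congr 1
          field_simp
      _ = 4 ^ (δ / 4) * X ^ (δ / 4) := Real.mul_rpow (by norm_num) hX0.le
      _ ≤ 4 ^ (1 : ℝ) * X ^ (δ / 4) := mul_le_mul_of_nonneg_right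
          (Real.rpow_le_rpow_of_exponent_le (by norm_num) (by linarith)) (by positivity)
      _ = _ := by rw [Real.rpow_one]
  refine (l2_le hr hX0 hH0 hC hD).trans ?_
  have hcr : c ^ (2 * r) ≤ K1 ^ (2 * r) * (3 * X ^ (δ / 4)) := by
    rw [hc, mul_pow]
    refine mul_le_mul_of_nonneg_left ?_ (by positivity)
    rw [← Real.rpow_natCast ((3 * X) ^ _) (2 * r), ← Real.rpow_mul (by linarith)]
    have e : δ / (8 * r) * ((2 * r : ℕ) : ℝ) = δ / 4 := by
      push_cast; field_simp; norm_num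
    rw [e, Real.mul_rpow (by norm_num) hX0.le]
    refine mul_le_mul_of_nonneg_right ?_ (by positivity)
    calc (3 : ℝ) ^ (δ / 4) ≤ 3 ^ (1 : ℝ) :=
          Real.rpow_le_rpow_of_exponent_le (by norm_num) (by linarith)
      _ = 3 := Real.rpow_one 3
  have hA3 : A ^ 3 = 27 * X ^ (3 * ε / 4) := by
    rw [hA, mul_pow, ← Real.rpow_natCast (X ^ (ε / 4)) 3, ← Real.rpow_mul hX0.le]
    norm_num
    congr 1
    ring
  -- the final computation
  have hX3 : (H / X) ^ 2 * ((2 * r) ^ 2 * (3 * (h₀ : ℝ) / X + 1 / (3 * h₀) + 1 / B + G / X) *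
      Bn ^ 2 + 12 * A ^ 3 * Bn) ≤ (64 * r ^ 2 * 9 + 1296) * X ^ (-δ) := by
    have t1 : (H / X) ^ 2 * Bn ^ 2 ≤ 16 := by
      rw [← mul_pow]
      have : H / X * Bn ≤ 4 := by
        calc H / X * Bn ≤ H / X * (4 * X / H) := mul_le_mul_of_nonneg_left hBn1 (by positivity)
          _ = 4 := by field_simp
      calc (H / X * Bn) ^ 2 ≤ 4 ^ 2 := pow_le_pow_left₀ (by positivity) this 2
        _ = 16 := by norm_num
    have t2 : (H / X) ^ 2 * Bn ≤ 4 * (H / X) := by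
      calc (H / X) ^ 2 * Bn ≤ (H / X) ^ 2 * (4 * X / H) :=
            mul_le_mul_of_nonneg_left hBn1 (by positivity)
        _ = _ := by field_simp
    have t3 : H / X ≤ X ^ (-ε) := by
      have e : X ^ (1 - ε) / X = X ^ (-ε) := by
        rw [← Real.rpow_sub_one hX0.ne']; congr 1; ring
      rw [← e]
      exact div_le_div_of_nonneg_right hHu hX0.le
    have t4 : X ^ (3 * ε / 4) * X ^ (-ε) ≤ X ^ (-δ) := by
      rw [← Real.rpow_add hX0]
      exact Real.rpow_le_rpow_of_exponent_le hX1 (by linarith)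
    have hXd : 0 < X ^ (-δ) := by positivity
    calc (H / X) ^ 2 * ((2 * r) ^ 2 * (3 * (h₀ : ℝ) / X + 1 / (3 * h₀) + 1 / B + G / X) *
          Bn ^ 2 + 12 * A ^ 3 * Bn)
        = (2 * r) ^ 2 * (3 * (h₀ : ℝ) / X + 1 / (3 * h₀) + 1 / B + G / X) *
            ((H / X) ^ 2 * Bn ^ 2) + 12 * A ^ 3 * ((H / X) ^ 2 * Bn) := by ring
      _ ≤ (2 * r) ^ 2 * (9 * X ^ (-δ)) * 16 + 12 * A ^ 3 * (4 * (H / X)) := by gcongr
      _ ≤ (2 * r) ^ 2 * (9 * X ^ (-δ)) * 16 + 12 * A ^ 3 * (4 * X ^ (-ε)) := by gcongr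
      _ = (64 * r ^ 2 * 9) * X ^ (-δ) + 1296 * (X ^ (3 * ε / 4) * X ^ (-ε)) := by
          rw [hA3]; ring
      _ ≤ (64 * r ^ 2 * 9) * X ^ (-δ) + 1296 * X ^ (-δ) := by linarith
      _ = _ := by ring
  have hLr : (3 * (h₀ : ℝ)) ^ r ≤ 6 ^ r * H ^ r := by
    rw [← mul_pow]
    exact pow_le_pow_left₀ (by positivity) (by linarith) r
  have hXX' : X ^ (δ / 4) * X ^ (δ / 4) * X ^ (-δ) = X ^ (-(δ / 2)) := by
    rw [← Real.rpow_add hX0, ← Real.rpow_add hX0]; congr 1; ring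
  calc (H / X) ^ 2 * (K2 * (4 * X ^ (δ / 4)) * (PP X H r N).card)
      ≤ (H / X) ^ 2 * (K2 * (4 * X ^ (δ / 4)) * (24 ^ r * (3 * (h₀ : ℝ)) ^ r * c ^ (2 * r) *
        ((2 * r) ^ 2 * (3 * (h₀ : ℝ) / X + 1 / (3 * h₀) + 1 / B + G / X) * Bn ^ 2 +
          12 * A ^ 3 * Bn))) := by
        refine mul_le_mul_of_nonneg_left (mul_le_mul_of_nonneg_left hPP ?_) (by positivity)
        positivity
    _ = (K2 * (4 * X ^ (δ / 4))) * (24 ^ r * (3 * (h₀ : ℝ)) ^ r * c ^ (2 * r)) *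
        ((H / X) ^ 2 * ((2 * r) ^ 2 * (3 * (h₀ : ℝ) / X + 1 / (3 * h₀) + 1 / B + G / X) *
          Bn ^ 2 + 12 * A ^ 3 * Bn)) := by ring
    _ ≤ (K2 * (4 * X ^ (δ / 4))) * (24 ^ r * (3 * (h₀ : ℝ)) ^ r * c ^ (2 * r)) *
        ((64 * r ^ 2 * 9 + 1296) * X ^ (-δ)) := by
        refine mul_le_mul_of_nonneg_left hX3 ?_
        positivity
    _ ≤ (K2 * (4 * X ^ (δ / 4))) * (24 ^ r * (6 ^ r * H ^ r) *
          (K1 ^ (2 * r) * (3 * X ^ (δ / 4)))) * ((64 * r ^ 2 * 9 + 1296) * X ^ (-δ)) := by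
        gcongr
    _ = K2 * 4 * (24 ^ r * 6 ^ r * (K1 ^ (2 * r) * 3) * (64 * r ^ 2 * 9 + 1296)) *
        (H ^ r * (X ^ (δ / 4) * X ^ (δ / 4) * X ^ (-δ))) := by ring
    _ = _ := by rw [hXX']

end Pool.Agent.U585.GA
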