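import Pool.Agent.U585.GA.Lev

/-!
# Convergence in distribution
-/

set_option autoImplicit false
set_option linter.unusedSectionVars false

open Finset MeasureTheory Filter Topology ProbabilityTheory

namespace Pool.Agent.U585.GA

open Pool.Agent.U585.GC (rf MM ind Signs)

/-- the uniform measure on `[X, 2X]` -/
noncomputable def unif (X : ℝ) : Measure ℝ :=
  (ENNReal.ofReal X)⁻¹ • volume.restrict (Set.Icc X (2 * X))

lemma unif_univ {X : ℝ} (hX : 0 < X) : unif X Set.univ = 1 := by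
  unfold unif
  rw [Measure.smul_apply, Measure.restrict_apply_univ, Real.volume_Icc, smul_eq_mul,
    show 2 * X - X = X by ring]
  exact ENNReal.inv_mul_cancel (by simpa using hX) ENNReal.ofReal_ne_top

lemma unif_prob {X : ℝ} (hX : 0 < X) : IsProbabilityMeasure (unif X) := ⟨unif_univ hX⟩

/-- the normalized sum -/
noncomputable def Zf (s : ℕ → ℝ) (X H : ℝ) (x : ℝ) : ℝ := W (3 * ⌈X⌉₊) H (rf s) x / sd H

lemma Zf_meas (s : ℕ → ℝ) (X H : ℝ) : Measurable (Zf s X H) := (W_meas _ _ _).div_const _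

/-- the law of the normalized sum -/
noncomputable def law (s : ℕ → ℝ) (X H : ℝ) : Measure ℝ := (unif X).map (Zf s X H)

lemma law_prob (s : ℕ → ℝ) {X : ℝ} (hX : 0 < X) (H : ℝ) : IsProbabilityMeasure (law s X H) := by
  have := unif_prob hX
  exact Measure.isProbabilityMeasure_map (Zf_meas s X H).aemeasurable

lemma law_char (s : ℕ → ℝ) {X : ℝ} (hX : 0 < X) (H θ : ℝ) :
    charFun (law s X H) θ = cW (3 * ⌈X⌉₊) X H (θ / sd H) (rf s) := by
  rw [charFun_apply_real]
  unfold law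
  rw [integral_map (Zf_meas s X H).aemeasurable
    (Continuous.aestronglyMeasurable (by fun_prop))]
  unfold unif
  rw [integral_smul_measure]
  unfold cW
  rw [intervalIntegral.integral_of_le (by linarith), ← integral_Icc_eq_integral_Ioc,
    ENNReal.toReal_inv, ENNReal.toReal_ofReal hX.le, one_div]
  rw [Complex.real_smul]
  congr 1
  refine integral_congr_ae (ae_of_all _ fun x => ?_)
  beta_reduce
  congr 1
  unfold Zf
  push_cast
  ring

lemma law_cdf (s : ℕ → ℝ) {X : ℝ} (hX : 0 < X) (H t : ℝ) :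
    (law s X H (Set.Iic t)).toReal =
      (volume {x : ℝ | x ∈ Set.Icc X (2 * X) ∧ Zf s X H x ≤ t}).toReal / X := by
  unfold law
  rw [Measure.map_apply (Zf_meas s X H) measurableSet_Iic]
  unfold unif
  rw [Measure.smul_apply, Measure.restrict_apply ((Zf_meas s X H) measurableSet_Iic), smul_eq_mul,
    ENNReal.toReal_mul, ENNReal.toReal_inv, ENNReal.toReal_ofReal hX.le, mul_comm, ← div_eq_mul_inv]
  congr 3
  ext x
  simp only [Set.mem_inter_iff, Set.mem_preimage, Set.mem_Iic, Set.mem_ofPred_eq]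
  tauto

/-- convergence in distribution -/
theorem cdf_lim {s : ℕ → ℝ} (hsg : ∀ p, s p = 1 ∨ s p = -1) {ε : ℝ} (hε : 0 < ε) (hs : Near s ε)
    {H : ℝ → ℝ} (hH : ∀ᶠ X in atTop, X ^ ε < H X ∧ H X < X ^ (1 - ε)) (t : ℝ) :
    Tendsto (fun X : ℝ => (volume {x : ℝ | x ∈ Set.Icc X (2 * X) ∧
      Zf s X (H X) x ≤ t}).toReal / X) atTop (𝓝 (cdf (gaussianReal 0 1) t)) := by
  refine tendsto_of_seq_tendsto fun u hu => ?_
  have hpos : ∀ n, 0 < max (u n) 1 := fun n => lt_of_lt_of_le one_pos (le_max_right _ _)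
  have hu1 : Tendsto (fun n => max (u n) 1) atTop atTop :=
    tendsto_atTop_mono (fun n => le_max_left _ _) hu
  set μ : ℕ → ProbabilityMeasure ℝ := fun n =>
    ⟨law s (max (u n) 1) (H (max (u n) 1)), law_prob s (hpos n) _⟩ with hμ
  set μ₀ : ProbabilityMeasure ℝ := ⟨gaussianReal 0 1, inferInstance⟩ with hμ₀
  have hchar : ∀ θ : ℝ, Tendsto (fun n => charFun (μ n : Measure ℝ) θ) atTop
      (𝓝 (charFun (μ₀ : Measure ℝ) θ)) := by
    intro θ
    have h1 := (chr_lim hsg hε hs hH θ).comp hu1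
    have e0 : charFun (μ₀ : Measure ℝ) θ = ((Real.exp (-(θ ^ 2 / 2)) : ℝ) : ℂ) := by
      rw [hμ₀]
      change charFun (gaussianReal 0 1) θ = _
      rw [charFun_gaussianReal]
      push_cast
      congr 1
      ring
    rw [e0]
    refine h1.congr fun n => ?_
    rw [Function.comp_apply]
    exact (law_char s (hpos n) _ θ).symm
  have hlim := ProbabilityMeasure.tendsto_of_tendsto_charFun hchar
  have hfr : (μ₀ : Measure ℝ) (frontier (Set.Iic t)) = 0 := by
    rw [frontier_Iic]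
    have : NullSingletonClass (gaussianReal 0 1) := nullSingletonClass_gaussianReal one_ne_zero
    change gaussianReal 0 1 {t} = 0
    exact measure_singleton t
  have h2 := ProbabilityMeasure.tendsto_measure_of_null_frontier_of_tendsto' hlim hfr
  have h3 := (ENNReal.tendsto_toReal (measure_ne_top (μ₀ : Measure ℝ) (Set.Iic t))).comp h2
  rw [cdf_eq_real]
  refine (h3.congr' ?_)
  filter_upwards [hu.eventually_ge_atTop 1] with n hn
  rw [Function.comp_apply, Function.comp_apply]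
  have e1 : max (u n) 1 = u n := max_eq_left hn
  change (law s (max (u n) 1) (H (max (u n) 1)) (Set.Iic t)).toReal = _
  rw [law_cdf s (hpos n), e1]

/-- the sums in windows -/
lemma Zf_eq (s : ℕ → ℝ) {X H x : ℝ} (hx : x ∈ Set.Icc X (2 * X)) (hH : 0 < H)
    (hHX : H ≤ X) :
    Zf s X H x = (∑ n ∈ (Finset.range (⌊x + H⌋₊ + 1)).filter
      (fun n : ℕ => |(n : ℝ) - x| < H / 2), rf s n) / √(H / (Real.pi ^ 2 / 6)) := by
  classical
  have hX0 : 0 < X := by linarith
  have hN : 3 * X ≤ ((3 * ⌈X⌉₊ : ℕ) : ℝ) := by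
    push_cast
    have := Nat.le_ceil X
    linarith
  unfold Zf sd
  congr 1
  unfold W
  have h1 : ∑ n ∈ SN (3 * ⌈X⌉₊), rf s n * ind H n x =
      ∑ n ∈ (SN (3 * ⌈X⌉₊)).filter (fun n : ℕ => |(n : ℝ) - x| < H / 2), rf s n := by
    rw [sum_filter]
    refine sum_congr rfl fun n _ => ?_
    unfold ind
    by_cases h : |(n : ℝ) - x| < H / 2
    · rw [if_pos h, Set.indicator_of_mem ((Pool.Agent.U585.GC.mem_win H n x).1 h), mul_one]
    · rw [if_neg h, Set.indicator_of_notMem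
        (fun hc => h ((Pool.Agent.U585.GC.mem_win H n x).2 hc)), mul_zero]
  rw [h1]
  refine sum_subset ?_ ?_
  · intro n hn
    rw [mem_filter] at hn
    rw [mem_filter, mem_range]
    refine ⟨?_, hn.2⟩
    have h2 := (abs_lt.1 hn.2).2
    have h4 : n ≤ ⌊x + H⌋₊ := Nat.le_floor (by linarith)
    omega
  · intro n hn hn'
    rw [mem_filter, mem_range] at hn
    have h2 := (abs_lt.1 hn.2).2
    have h3 : (n : ℝ) < ((3 * ⌈X⌉₊ : ℕ) : ℝ) := by linarith [hx.2]
    have h4 : n < 3 * ⌈X⌉₊ := by exact_mod_cast h3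
    by_contra h5
    refine hn' (mem_filter.2 ⟨mem_SN.2 ⟨?_, h4.le, ?_⟩, hn.2⟩)
    · by_contra h0
      have : n = 0 := by omega
      rw [this] at h5
      exact h5 (Pool.Agent.U585.GC.rf_zero s)
    · by_contra h0
      apply h5
      unfold rf
      rw [if_neg h0]

variable {Ω : Type} [mΩ : MeasurableSpace Ω] {P : Measure Ω} [IsProbabilityMeasure P]
  {f : ℕ → Ω → ℝ}

/-- almost surely all moments are near to those of the model -/
theorem ae_near (h : Signs P f) : ∀ᵐ ω ∂P, ∀ ε : ℝ, 0 < ε → Near (fun p => f p ω) (min ε (1 / 2)) := by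
  have h1 : ∀ᵐ ω ∂P, ∀ j r : ℕ, ∃ X₀ : ℝ, ∀ X H : ℝ, X₀ ≤ X → X ^ (1 / ((j : ℝ) + 2)) ≤ H →
      H ≤ X ^ (1 - 1 / ((j : ℝ) + 2)) →
      |De X H (r + 1) (3 * ⌈X⌉₊) (fun p => f p ω)| ≤
        √(H ^ (r + 1)) * X ^ (-(dl (r + 1) (1 / ((j : ℝ) + 2) / 2) / 8)) := by
    refine ae_all_iff.2 fun j => ae_all_iff.2 fun r => ?_
    refine De_small h (by omega) (by positivity) ?_
    exact one_div_le_one_div_of_le (by norm_num) (by
      have : (0 : ℝ) ≤ j := Nat.cast_nonneg _
      linarith)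
  filter_upwards [h1] with ω hω ε hε r hr
  have hm : 0 < min ε (1 / 2) := lt_min hε (by norm_num)
  obtain ⟨j, hj⟩ := exists_nat_one_div_lt hm
  have hj2 : (1 : ℝ) / ((j : ℝ) + 2) ≤ min ε (1 / 2) := by
    refine le_trans ?_ hj.le
    exact one_div_le_one_div_of_le (by positivity) (by linarith)
  obtain ⟨X₀, hX₀⟩ := hω j (r - 1)
  rw [show r - 1 + 1 = r by omega] at hX₀
  refine ⟨dl r (1 / ((j : ℝ) + 2) / 2) / 8, max X₀ 1, ?_, fun X H hX hl hu => ?_⟩
  · have := dl_pos hr (by positivity : (0 : ℝ) < 1 / ((j : ℝ) + 2) / 2)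
    linarith
  · have hX1 : 1 ≤ X := (le_max_right _ _).trans hX
    refine hX₀ X H ((le_max_left _ _).trans hX) (le_trans ?_ hl) (le_trans hu ?_)
    · exact Real.rpow_le_rpow_of_exponent_le hX1 hj2
    · exact Real.rpow_le_rpow_of_exponent_le hX1 (by linarith)

/-- almost surely the sums in windows are asymptotically normal, for all lengths of the window -/
theorem main (h : Signs P f) : ∀ᵐ ω ∂P, ∀ ε : ℝ, 0 < ε → ∀ H : ℝ → ℝ,
    (∀ᶠ X in atTop, X ^ ε < H X ∧ H X < X ^ (1 - ε)) → ∀ t : ℝ,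
    Tendsto (fun X : ℝ => (volume {x : ℝ | x ∈ Set.Icc X (2 * X) ∧
      (∑ n ∈ (Finset.range (⌊x + H X⌋₊ + 1)).filter (fun n : ℕ => |(n : ℝ) - x| < H X / 2),
        rf (fun p => f p ω) n) / √(H X / (Real.pi ^ 2 / 6)) ≤ t}).toReal / X) atTop
      (𝓝 (cdf (gaussianReal 0 1) t)) := by
  filter_upwards [ae_near h] with ω hω ε hε H hH t
  have hm : 0 < min ε (1 / 2) := lt_min hε (by norm_num)
  have hH' : ∀ᶠ X in atTop, X ^ (min ε (1 / 2)) < H X ∧ H X < X ^ (1 - min ε (1 / 2)) := by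
    filter_upwards [hH, eventually_ge_atTop 1] with X h1 h2
    have h3 : min ε (1 / 2) ≤ ε := min_le_left _ _
    exact ⟨lt_of_le_of_lt (Real.rpow_le_rpow_of_exponent_le h2 h3) h1.1,
      lt_of_lt_of_le h1.2 (Real.rpow_le_rpow_of_exponent_le h2 (by linarith))⟩
  refine (cdf_lim (s := fun p => f p ω) (fun p => h.val p ω) hm (hω ε hε) hH' t).congr' ?_
  filter_upwards [hH', eventually_ge_atTop 1] with X h1 h2
  have hX0 : 0 < X := by linarith
  have hH0 : 0 < H X := lt_trans (Real.rpow_pos_of_pos hX0 _) h1.1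
  have hHX : H X ≤ X := h1.2.le.trans (by
    calc X ^ (1 - min ε (1 / 2)) ≤ X ^ (1 : ℝ) :=
          Real.rpow_le_rpow_of_exponent_le h2 (by linarith)
      _ = X := Real.rpow_one X)
  congr 3
  ext x
  simp only [Set.mem_ofPred_eq]
  constructor
  · rintro ⟨hx, h3⟩
    refine ⟨hx, ?_⟩
    rwa [Zf_eq _ hx hH0 hHX] at h3
  · rintro ⟨hx, h3⟩
    refine ⟨hx, ?_⟩
    rwa [Zf_eq _ hx hH0 hHX]

end Pool.Agent.U585.GA
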