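import Pool.Agent.U585.GA.Cos
import Pool.Agent.U585.GA.Itp

/-!
# The limit law
-/

set_option autoImplicit false
set_option linter.unusedSectionVars false

open Finset MeasureTheory Filter Topology ProbabilityTheory

namespace Pool.Agent.U585.GA

open Pool.Agent.U585.GC (rf MM ind Signs)

/-- the moments are near to those of the model with independent signs -/
def Near (s : ℕ → ℝ) (ε : ℝ) : Prop := ∀ r : ℕ, 1 ≤ r → ∃ δ X₀ : ℝ, 0 < δ ∧ ∀ X H : ℝ, X₀ ≤ X →
  X ^ ε ≤ H → H ≤ X ^ (1 - ε) → |De X H r (3 * ⌈X⌉₊) s| ≤ √(H ^ r) * X ^ (-δ)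

lemma De_zero (X H : ℝ) (N : ℕ) (s : ℕ → ℝ) : De X H 0 N s = 0 := by
  classical
  unfold De
  rw [filter_false_of_mem, sum_empty]
  intro n _ hn
  obtain ⟨v, hv⟩ := hn
  have : (univ.filter (fun i : Fin 0 => n i = v)).card = 0 := by
    rw [card_eq_zero]
    exact Finset.eq_empty_of_isEmpty _
  rw [this] at hv
  exact absurd hv (by decide)

/-- the normalization -/
noncomputable def sd (H : ℝ) : ℝ := √(H / (Real.pi ^ 2 / 6))

lemma sd_pos {H : ℝ} (hH : 0 < H) : 0 < sd H := by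
  unfold sd
  have := Real.pi_pos
  positivity

lemma le_sd {H : ℝ} (hH : 0 ≤ H) : √H ≤ 2 * sd H := by
  unfold sd
  have hpi4 : Real.pi ^ 2 ≤ 10 := by
    have := Real.pi_lt_d2
    have := Real.pi_pos
    nlinarith
  have hpi : 0 < Real.pi ^ 2 := by have := Real.pi_pos; positivity
  rw [show (2 : ℝ) = √4 by
    rw [show (4 : ℝ) = 2 ^ 2 by norm_num, Real.sqrt_sq (by norm_num)], ← Real.sqrt_mul (by norm_num)]
  refine Real.sqrt_le_sqrt ?_
  rw [← mul_div_assoc, le_div_iff₀ (by positivity)]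
  nlinarith

lemma term_lim {s : ℕ → ℝ} {ε : ℝ} (hε : 0 < ε) (hs : Near s ε) {H : ℝ → ℝ}
    (hH : ∀ᶠ X in atTop, X ^ ε < H X ∧ H X < X ^ (1 - ε)) (θ : ℝ) (j : ℕ) :
    Tendsto (fun X : ℝ => |θ / sd (H X)| ^ j / j.factorial * |De X (H X) j (3 * ⌈X⌉₊) s|) atTop
      (𝓝 0) := by
  rcases Nat.eq_zero_or_pos j with rfl | hj
  · simp_rw [De_zero]
    simp
  obtain ⟨δ, X₀, hδ, hb⟩ := hs j hj
  have hlim : Tendsto (fun X : ℝ => (2 * |θ|) ^ j * X ^ (-δ)) atTop (𝓝 0) := by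
    have := (tendsto_rpow_neg_atTop hδ).const_mul ((2 * |θ|) ^ j)
    rwa [mul_zero] at this
  refine squeeze_zero' (Eventually.of_forall fun X => by positivity) ?_ hlim
  filter_upwards [hH, eventually_ge_atTop X₀, eventually_ge_atTop 1] with X hX hX0 hX1
  have hXp : 0 < X := by linarith
  have hHp : 0 < H X := lt_trans (Real.rpow_pos_of_pos hXp ε) hX.1
  have h1 := hb X (H X) hX0 hX.1.le hX.2.le
  have h2 := sd_pos hHp
  have h3 := le_sd hHp.le
  have h4 : √(H X ^ j) = √(H X) ^ j := by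
    rw [Real.sqrt_eq_rpow, Real.sqrt_eq_rpow, ← Real.rpow_natCast, ← Real.rpow_natCast,
      ← Real.rpow_mul hHp.le, ← Real.rpow_mul hHp.le, mul_comm]
  have h5 : (1 : ℝ) ≤ j.factorial := by exact_mod_cast Nat.one_le_iff_ne_zero.2 j.factorial_ne_zero
  rw [abs_div, abs_of_pos h2, div_pow]
  calc |θ| ^ j / sd (H X) ^ j / j.factorial * |De X (H X) j (3 * ⌈X⌉₊) s|
      ≤ |θ| ^ j / sd (H X) ^ j * (√(H X ^ j) * X ^ (-δ)) := by
        refine mul_le_mul (div_le_self (by positivity) h5) h1 (abs_nonneg _) (by positivity)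
    _ ≤ |θ| ^ j / sd (H X) ^ j * ((2 * sd (H X)) ^ j * X ^ (-δ)) := by
        refine mul_le_mul_of_nonneg_left ?_ (by positivity)
        refine mul_le_mul_of_nonneg_right ?_ (by positivity)
        rw [h4]
        exact pow_le_pow_left₀ (Real.sqrt_nonneg _) h3 j
    _ = _ := by
        rw [mul_pow, mul_pow]
        field_simp

/-- the limit of the characteristic functions -/
theorem chr_lim {s : ℕ → ℝ} (hsg : ∀ p, s p = 1 ∨ s p = -1) {ε : ℝ} (hε : 0 < ε) (hs : Near s ε)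
    {H : ℝ → ℝ} (hH : ∀ᶠ X in atTop, X ^ ε < H X ∧ H X < X ^ (1 - ε)) (θ : ℝ) :
    Tendsto (fun X : ℝ => cW (3 * ⌈X⌉₊) X (H X) (θ / sd (H X)) (rf s)) atTop
      (𝓝 ((Real.exp (-(θ ^ 2 / 2)) : ℝ) : ℂ)) := by
  rw [Metric.tendsto_atTop']
  intro η hη
  set lam := 2 * |θ| + 1 with hlam
  have hlam1 : 0 < lam := by positivity
  obtain ⟨k, hk⟩ : ∃ k : ℕ, (1 / 4 : ℝ) ^ k < η / (8 * Real.exp (2 * lam ^ 2)) :=
    exists_pow_lt_of_lt_one (by positivity) (by norm_num)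
  have hsum : Tendsto (fun X : ℝ => ∑ j ∈ range (2 * k + 1),
      |θ / sd (H X)| ^ j / j.factorial * |De X (H X) j (3 * ⌈X⌉₊) s|) atTop (𝓝 0) := by
    have := tendsto_finsetSum (range (2 * k + 1)) fun j _ => term_lim hε hs hH θ j
    simpa using this
  have hsum' := hsum.eventually_lt_const (by linarith : (0 : ℝ) < η / 4)
  obtain ⟨X₀, hX₀, hg⟩ := gW_lim θ (η / 4) (by linarith)
  have hHl : ∀ᶠ X in atTop, X₀ ≤ H X := by
    filter_upwards [hH, (tendsto_rpow_atTop hε).eventually_ge_atTop X₀] with X h1 h2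
    exact h2.trans h1.1.le
  have hev : ∀ᶠ X in atTop, dist (cW (3 * ⌈X⌉₊) X (H X) (θ / sd (H X)) (rf s))
      ((Real.exp (-(θ ^ 2 / 2)) : ℝ) : ℂ) < η := by
    filter_upwards [hH, hsum', hHl, eventually_ge_atTop X₀, eventually_ge_atTop 1]
      with X h1 h2 h3 h4 h5
    have hX0 : 0 < X := by linarith
    have hH1 : 1 ≤ H X := hX₀.trans h3
    have hH0 : 0 < H X := by linarith
    have hHX : H X ≤ X := h1.2.le.trans (by
      calc X ^ (1 - ε) ≤ X ^ (1 : ℝ) := Real.rpow_le_rpow_of_exponent_le h5 (by linarith)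
        _ = X := Real.rpow_one X)
    have hN : 3 * X ≤ ((3 * ⌈X⌉₊ : ℕ) : ℝ) := by
      push_cast
      have := Nat.le_ceil X
      linarith
    have hc := chr_cmp hsg hX0 hH0 hHX hN (θ / sd (H X)) k
    have hg2 := hg X (H X) _ h4 h3 hHX hN
    have hm := m0_le hX0 hH0.le (3 * ⌈X⌉₊) k (lam / sd (H X))
    have hsd := sd_pos hH0
    have hsd2 : sd (H X) ^ 2 = H X / (Real.pi ^ 2 / 6) := by
      unfold sd
      rw [Real.sq_sqrt (by have := Real.pi_pos; positivity)]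
    have hpi4 : Real.pi ^ 2 ≤ 10 := by
      have := Real.pi_lt_d2
      have := Real.pi_pos
      nlinarith
    have hpi : 0 < Real.pi ^ 2 := by have := Real.pi_pos; positivity
    have hex : (lam / sd (H X)) ^ 2 * (H X + 1) / 2 ≤ 2 * lam ^ 2 := by
      rw [div_pow, hsd2]
      have e1 : lam ^ 2 / (H X / (Real.pi ^ 2 / 6)) * (H X + 1) / 2 =
          lam ^ 2 * ((Real.pi ^ 2 / 12) * ((H X + 1) / H X)) := by
        field_simp
        norm_num
      rw [e1]
      have e2 : (H X + 1) / H X ≤ 2 := by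
        rw [div_le_iff₀ hH0]; linarith
      have e3 : (Real.pi ^ 2 / 12) * ((H X + 1) / H X) ≤ 1 * 2 :=
        mul_le_mul (by linarith) e2 (by positivity) zero_le_one
      have e4 : 0 ≤ lam ^ 2 := by positivity
      nlinarith
    have hm2 : |θ / sd (H X)| ^ (2 * k) / (2 * k).factorial * m0 (X) (H X) (2 * k) (3 * ⌈X⌉₊) ≤
        (1 / 4) ^ k * Real.exp (2 * lam ^ 2) := by
      have e1 : |θ / sd (H X)| ^ (2 * k) = (|θ| / lam) ^ (2 * k) * (lam / sd (H X)) ^ (2 * k) := by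
        rw [← mul_pow, abs_div, abs_of_pos hsd]
        congr 1
        field_simp
      have e2 : (|θ| / lam) ^ (2 * k) ≤ (1 / 4) ^ k := by
        rw [pow_mul]
        refine pow_le_pow_left₀ (by positivity) ?_ k
        rw [div_pow, div_le_iff₀ (by positivity)]
        rw [hlam]
        nlinarith [abs_nonneg θ]
      have e3 := hm.trans (Real.exp_le_exp.2 hex)
      have e4 : 0 ≤ (lam / sd (H X)) ^ (2 * k) / (2 * k).factorial *
          m0 X (H X) (2 * k) (3 * ⌈X⌉₊) := by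
        have : 0 ≤ m0 X (H X) (2 * k) (3 * ⌈X⌉₊) := by
          unfold m0
          exact sum_nonneg fun n _ => div_nonneg (om_nonneg hX0.le _ n) hX0.le
        positivity
      rw [e1]
      calc (|θ| / lam) ^ (2 * k) * (lam / sd (H X)) ^ (2 * k) / (2 * k).factorial *
            m0 X (H X) (2 * k) (3 * ⌈X⌉₊)
          = (|θ| / lam) ^ (2 * k) * ((lam / sd (H X)) ^ (2 * k) / (2 * k).factorial *
            m0 X (H X) (2 * k) (3 * ⌈X⌉₊)) := by ring
        _ ≤ (1 / 4) ^ k * Real.exp (2 * lam ^ 2) :=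
            mul_le_mul e2 e3 e4 (by positivity)
    have hk2 : (1 / 4) ^ k * Real.exp (2 * lam ^ 2) < η / 8 := by
      rw [lt_div_iff₀ (by positivity)] at hk
      linarith
    have hg3 : ‖((gW (3 * ⌈X⌉₊) X (H X) (θ / sd (H X)) : ℝ) : ℂ) -
        ((Real.exp (-(θ ^ 2 / 2)) : ℝ) : ℂ)‖ ≤ η / 4 := by
      rw [← Complex.ofReal_sub, Complex.norm_real, Real.norm_eq_abs]
      exact hg2
    rw [dist_eq_norm]
    have htri := norm_sub_le_norm_sub_add_norm_sub
      (cW (3 * ⌈X⌉₊) X (H X) (θ / sd (H X)) (rf s))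
      ((gW (3 * ⌈X⌉₊) X (H X) (θ / sd (H X)) : ℝ) : ℂ) ((Real.exp (-(θ ^ 2 / 2)) : ℝ) : ℂ)
    linarith
  obtain ⟨X₁, hX₁⟩ := eventually_atTop.1 hev
  exact ⟨X₁, fun X hX => hX₁ X hX.le⟩

end Pool.Agent.U585.GA
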