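import Pool.Agent.U585.GA.Law

/-!
# Convergence of the moments
-/

set_option autoImplicit false
set_option linter.unusedSectionVars false

open Finset MeasureTheory Filter Topology ProbabilityTheory BoundedContinuousFunction

namespace Pool.Agent.U585.GA

open Pool.Agent.U585.GC (rf MM ind Signs)

lemma clip_err {K : ℝ} (hK : 0 < K) (z : ℝ) : |z - max (-K) (min K z)| ≤ z ^ 2 / K := by
  rw [le_div_iff₀ hK]
  rcases le_total z K with h1 | h1
  · rcases le_total (-K) z with h2 | h2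
    · rw [min_eq_right h1, max_eq_right h2, sub_self, abs_zero, zero_mul]
      positivity
    · rw [min_eq_right h1, max_eq_left h2, abs_of_nonpos (by linarith)]
      nlinarith
  · rw [min_eq_left h1, max_eq_right (by linarith), abs_of_nonneg (by linarith)]
    nlinarith

/-- the truncated power -/
noncomputable def trp (r : ℕ) {K : ℝ} (hK : 0 ≤ K) : ℝ →ᵇ ℝ :=
  BoundedContinuousFunction.ofNormedAddCommGroup (fun y => max (-K) (min K (y ^ r)))
    (by fun_prop) K (fun y => by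
      rw [Real.norm_eq_abs, abs_le]
      exact ⟨le_max_left _ _, max_le (by linarith) (min_le_left _ _)⟩)

lemma int_pow_le {ν : Measure ℝ} [IsProbabilityMeasure ν] {r : ℕ}
    (h : Integrable (fun y : ℝ => y ^ (2 * r)) ν) : Integrable (fun y : ℝ => y ^ r) ν := by
  refine ((integrable_const (1 : ℝ)).add h).mono' (by fun_prop) (ae_of_all _ fun y => ?_)
  rw [Real.norm_eq_abs, Pi.add_apply]
  have e : y ^ (2 * r) = |y ^ r| ^ 2 := by rw [sq_abs, ← pow_mul, mul_comm]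
  rw [e]
  nlinarith [abs_nonneg (y ^ r), sq_nonneg (|y ^ r| - 1)]

lemma trunc_le {ν : Measure ℝ} [IsProbabilityMeasure ν] {r : ℕ}
    (h : Integrable (fun y : ℝ => y ^ (2 * r)) ν) {K : ℝ} (hK : 0 < K) :
    |(∫ y, y ^ r ∂ν) - ∫ y, trp r hK.le y ∂ν| ≤ (∫ y, y ^ (2 * r) ∂ν) / K := by
  have h1 := int_pow_le h
  have h2 : Integrable (fun y => trp r hK.le y) ν := (trp r hK.le).integrable ν
  rw [← integral_sub h1 h2, ← integral_div]
  refine (abs_integral_le_integral_abs).trans (integral_mono (h1.sub h2).abs (h.div_const K)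
    fun y => ?_)
  have := clip_err hK (y ^ r)
  rw [← pow_mul, mul_comm r 2] at this
  exact this

/-- convergence of the moments from convergence in distribution and bounded higher moments -/
theorem mom_conv {μ : ℕ → ProbabilityMeasure ℝ} {μ₀ : ProbabilityMeasure ℝ}
    (hlim : Tendsto μ atTop (𝓝 μ₀)) (r : ℕ) (B : ℝ)
    (hint : ∀ n, Integrable (fun y : ℝ => y ^ (2 * r)) (μ n : Measure ℝ))
    (hB : ∀ᶠ n in atTop, ∫ y, y ^ (2 * r) ∂(μ n : Measure ℝ) ≤ B)
    (h0 : Integrable (fun y : ℝ => y ^ (2 * r)) (μ₀ : Measure ℝ)) :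
    Tendsto (fun n => ∫ y, y ^ r ∂(μ n : Measure ℝ)) atTop (𝓝 (∫ y, y ^ r ∂(μ₀ : Measure ℝ))) := by
  rw [Metric.tendsto_atTop']
  intro η hη
  set B' := max (max B (∫ y, y ^ (2 * r) ∂(μ₀ : Measure ℝ))) 1 with hB'
  have hB'1 : B ≤ B' := (le_max_left _ _).trans (le_max_left _ _)
  have hB'2 : ∫ y, y ^ (2 * r) ∂(μ₀ : Measure ℝ) ≤ B' := (le_max_right _ _).trans (le_max_left _ _)
  have hB'0 : 0 < B' := lt_of_lt_of_le one_pos (le_max_right _ _)
  set K := 4 * B' / η with hK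
  have hK0 : 0 < K := by positivity
  have hBK : B' / K = η / 4 := by
    rw [hK]; field_simp
  have h1 := ProbabilityMeasure.tendsto_iff_forall_integral_tendsto.1 hlim (trp r hK0.le)
  rw [Metric.tendsto_atTop'] at h1
  obtain ⟨n1, hn1⟩ := h1 (η / 4) (by linarith)
  obtain ⟨n2, hn2⟩ := eventually_atTop.1 hB
  refine ⟨max n1 n2, fun n hn => ?_⟩
  have g1 := hn1 n (lt_of_le_of_lt (le_max_left _ _) hn)
  have g2 := hn2 n (lt_of_le_of_lt (le_max_right _ _) hn).le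
  have g3 := trunc_le (hint n) hK0
  have g4 := trunc_le h0 hK0
  have g5 : (∫ y, y ^ (2 * r) ∂(μ n : Measure ℝ)) / K ≤ η / 4 := by
    rw [← hBK]
    exact div_le_div_of_nonneg_right (g2.trans hB'1) hK0.le
  have g6 : (∫ y, y ^ (2 * r) ∂(μ₀ : Measure ℝ)) / K ≤ η / 4 := by
    rw [← hBK]
    exact div_le_div_of_nonneg_right hB'2 hK0.le
  rw [Real.dist_eq] at g1 ⊢
  have a1 := abs_sub_le (∫ y, y ^ r ∂(μ n : Measure ℝ)) (∫ y, trp r hK0.le y ∂(μ n : Measure ℝ))
    (∫ y, y ^ r ∂(μ₀ : Measure ℝ))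
  have a2 := abs_sub_le (∫ y, trp r hK0.le y ∂(μ n : Measure ℝ))
    (∫ y, trp r hK0.le y ∂(μ₀ : Measure ℝ)) (∫ y, y ^ r ∂(μ₀ : Measure ℝ))
  rw [abs_sub_comm] at g4
  linarith

lemma gauss_int (r : ℕ) : Integrable (fun y : ℝ => y ^ (2 * r)) (gaussianReal 0 1) := by
  have h := (memLp_id_gaussianReal' (μ := 0) (v := 1) ((2 * r : ℕ) : ENNReal)
    (ENNReal.natCast_ne_top _)).integrable_norm_pow'
  refine h.congr (ae_of_all _ fun y => ?_)
  simp only [id, Real.norm_eq_abs]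
  rw [pow_mul, sq_abs, ← pow_mul]

lemma Zf_le (s : ℕ → ℝ) (X H x : ℝ) : |Zf s X H x| ≤ (∑ n ∈ SN (3 * ⌈X⌉₊), |rf s n|) / sd H := by
  unfold Zf
  have h0 : 0 ≤ sd H := Real.sqrt_nonneg _
  rw [abs_div, abs_of_nonneg h0]
  exact div_le_div_of_nonneg_right (W_le _ _ _ _) h0

lemma law_int (s : ℕ → ℝ) {X : ℝ} (hX : 0 < X) (H : ℝ) (j : ℕ) :
    Integrable (fun y : ℝ => y ^ j) (law s X H) := by
  have := unif_prob hX
  unfold law
  rw [integrable_map_measure (by fun_prop) (Zf_meas s X H).aemeasurable]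
  refine Integrable.of_bound (C := ((∑ n ∈ SN (3 * ⌈X⌉₊), |rf s n|) / sd H) ^ j) ?_
    (ae_of_all _ fun x => ?_)
  · exact ((Zf_meas s X H).pow_const j).aestronglyMeasurable
  · rw [Function.comp_apply, Real.norm_eq_abs, abs_pow]
    exact pow_le_pow_left₀ (abs_nonneg _) (Zf_le s X H x) j

lemma law_mom (s : ℕ → ℝ) {X : ℝ} (hX : 0 < X) (H : ℝ) (j : ℕ) :
    ∫ y, y ^ j ∂(law s X H) = (1 / X) * ∫ x in X..2 * X, Zf s X H x ^ j := by
  unfold law
  rw [integral_map (Zf_meas s X H).aemeasurable (by fun_prop)]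
  unfold unif
  rw [integral_smul_measure, intervalIntegral.integral_of_le (by linarith),
    ← integral_Icc_eq_integral_Ioc, ENNReal.toReal_inv, ENNReal.toReal_ofReal hX.le, one_div,
    smul_eq_mul]

lemma law_mom_eq (s : ℕ → ℝ) {X H : ℝ} (hX : 0 < X) (hH : 0 < H) (hHX : H ≤ X) (j : ℕ) :
    ∫ y, y ^ j ∂(law s X H) = mr s X H j / sd H ^ j := by
  have hN : 3 * X ≤ ((3 * ⌈X⌉₊ : ℕ) : ℝ) := by
    push_cast
    have := Nat.le_ceil X
    linarith
  rw [law_mom s hX, ← mW_rf hX hH hHX hN]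
  unfold mW Zf
  simp_rw [div_pow]
  rw [intervalIntegral.integral_div]
  ring

/-- bounded moments -/
lemma mom_bdd {s : ℕ → ℝ} (hsg : ∀ p, s p = 1 ∨ s p = -1) {ε : ℝ} (hε : 0 < ε) (hs : Near s ε)
    {H : ℝ → ℝ} (hH : ∀ᶠ X in atTop, X ^ ε < H X ∧ H X < X ^ (1 - ε)) (k : ℕ) :
    ∀ᶠ X in atTop, ∫ y, y ^ (2 * k) ∂(law s X (H X)) ≤
      (2 * k).factorial * (1 + Real.exp 2) := by
  have h1 := (term_lim hε hs hH 1 (2 * k)).eventually_le_const (by norm_num : (0 : ℝ) < 1)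
  filter_upwards [hH, h1, eventually_ge_atTop 1] with X h1 h2 h5
  have hX0 : 0 < X := by linarith
  have hH1 : 1 ≤ H X := (Real.one_le_rpow h5 hε.le).trans h1.1.le
  have hH0 : 0 < H X := by linarith
  have hHX : H X ≤ X := h1.2.le.trans (by
    calc X ^ (1 - ε) ≤ X ^ (1 : ℝ) := Real.rpow_le_rpow_of_exponent_le h5 (by linarith)
      _ = X := Real.rpow_one X)
  have hN : 3 * X ≤ ((3 * ⌈X⌉₊ : ℕ) : ℝ) := by
    push_cast
    have := Nat.le_ceil X
    linarith
  have hsd := sd_pos hH0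
  rw [law_mom_eq s hX0 hH0 hHX, mr_eq hsg (2 * k) hX0 hH0 hHX hN]
  have hm := m0_le hX0 hH0.le (3 * ⌈X⌉₊) k (1 / sd (H X))
  have hsd2 : sd (H X) ^ 2 = H X / (Real.pi ^ 2 / 6) := by
    unfold sd
    rw [Real.sq_sqrt (by have := Real.pi_pos; positivity)]
  have hpi4 : Real.pi ^ 2 ≤ 10 := by
    have := Real.pi_lt_d2
    have := Real.pi_pos
    nlinarith
  have hpi : 0 < Real.pi ^ 2 := by have := Real.pi_pos; positivity
  have hex : (1 / sd (H X)) ^ 2 * (H X + 1) / 2 ≤ 2 := by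
    rw [div_pow, hsd2, one_pow]
    have e1 : 1 / (H X / (Real.pi ^ 2 / 6)) * (H X + 1) / 2 =
        (Real.pi ^ 2 / 12) * ((H X + 1) / H X) := by
      field_simp
      norm_num
    rw [e1]
    have e2 : (H X + 1) / H X ≤ 2 := by
      rw [div_le_iff₀ hH0]; linarith
    have e3 : (Real.pi ^ 2 / 12) * ((H X + 1) / H X) ≤ 1 * 2 :=
      mul_le_mul (by linarith) e2 (by positivity) zero_le_one
    linarith
  have hm2 := hm.trans (Real.exp_le_exp.2 hex)
  have hf : (0 : ℝ) < (2 * k).factorial := by exact_mod_cast (2 * k).factorial_pos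
  have hp : 0 < sd (H X) ^ (2 * k) := by positivity
  rw [abs_div, abs_one, abs_of_pos hsd] at h2
  rw [div_pow, one_pow] at h2 hm2
  have a1 : |De X (H X) (2 * k) (3 * ⌈X⌉₊) s| / sd (H X) ^ (2 * k) ≤ (2 * k).factorial := by
    have e : |De X (H X) (2 * k) (3 * ⌈X⌉₊) s| / sd (H X) ^ (2 * k) =
        (2 * k).factorial * (1 / sd (H X) ^ (2 * k) / (2 * k).factorial *
          |De X (H X) (2 * k) (3 * ⌈X⌉₊) s|) := by
      field_simp
    rw [e]
    exact mul_le_of_le_one_right hf.le h2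
  have a2 : m0 X (H X) (2 * k) (3 * ⌈X⌉₊) / sd (H X) ^ (2 * k) ≤
      (2 * k).factorial * Real.exp 2 := by
    have e : m0 X (H X) (2 * k) (3 * ⌈X⌉₊) / sd (H X) ^ (2 * k) =
        (2 * k).factorial * (1 / sd (H X) ^ (2 * k) / (2 * k).factorial *
          m0 X (H X) (2 * k) (3 * ⌈X⌉₊)) := by
      field_simp
    rw [e]
    exact mul_le_mul_of_nonneg_left hm2 hf.le
  have a3 : De X (H X) (2 * k) (3 * ⌈X⌉₊) s / sd (H X) ^ (2 * k) ≤
      |De X (H X) (2 * k) (3 * ⌈X⌉₊) s| / sd (H X) ^ (2 * k) :=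
    div_le_div_of_nonneg_right (le_abs_self _) hp.le
  rw [add_div]
  linarith

/-- convergence of the moments -/
theorem mom_lim {s : ℕ → ℝ} (hsg : ∀ p, s p = 1 ∨ s p = -1) {ε : ℝ} (hε : 0 < ε) (hs : Near s ε)
    {H : ℝ → ℝ} (hH : ∀ᶠ X in atTop, X ^ ε < H X ∧ H X < X ^ (1 - ε)) (r : ℕ) :
    Tendsto (fun X : ℝ => (1 / X) * ∫ x in X..2 * X, Zf s X (H X) x ^ r) atTop
      (𝓝 (∫ y, y ^ r ∂(gaussianReal 0 1))) := by
  refine tendsto_of_seq_tendsto fun u hu => ?_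
  have hpos : ∀ n, 0 < max (u n) 1 := fun n => lt_of_lt_of_le one_pos (le_max_right _ _)
  have hu1 : Tendsto (fun n => max (u n) 1) atTop atTop :=
    tendsto_atTop_mono (fun n => le_max_left _ _) hu
  set μ : ℕ → ProbabilityMeasure ℝ := fun n =>
    ⟨law s (max (u n) 1) (H (max (u n) 1)), law_prob s (hpos n) _⟩ with hμ
  set μ₀ : ProbabilityMeasure ℝ := ⟨gaussianReal 0 1, inferInstance⟩ with hμ₀
  have hchar : ∀ θ : ℝ, Tendsto (fun n => charFun (μ n : Measure ℝ) θ) atTop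
      (𝓝 (charFun (μ₀ : Measure ℝ) θ)) := by
    intro θ
    have h1 := (chr_lim hsg hε hs hH θ).comp hu1
    have e0 : charFun (μ₀ : Measure ℝ) θ = ((Real.exp (-(θ ^ 2 / 2)) : ℝ) : ℂ) := by
      rw [hμ₀]
      change charFun (gaussianReal 0 1) θ = _
      rw [charFun_gaussianReal]
      push_cast
      congr 1
      ring
    rw [e0]
    refine h1.congr fun n => ?_
    rw [Function.comp_apply]
    exact (law_char s (hpos n) _ θ).symm
  have hlim := ProbabilityMeasure.tendsto_of_tendsto_charFun hchar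
  have h2 := mom_conv hlim r ((2 * r).factorial * (1 + Real.exp 2))
    (fun n => law_int s (hpos n) _ _) (hu1.eventually (mom_bdd hsg hε hs hH r)) (gauss_int r)
  refine h2.congr' ?_
  filter_upwards [hu.eventually_ge_atTop 1] with n hn
  rw [Function.comp_apply]
  have e1 : max (u n) 1 = u n := max_eq_left hn
  change ∫ y, y ^ r ∂(law s (max (u n) 1) (H (max (u n) 1))) = _
  rw [law_mom s (hpos n), e1]

variable {Ω : Type} [mΩ : MeasurableSpace Ω] {P : Measure Ω} [IsProbabilityMeasure P]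
  {f : ℕ → Ω → ℝ}

/-- almost surely the sums in windows are asymptotically normal, with all moments, for all lengths
of the window -/
theorem main2 (h : Signs P f) : ∀ᵐ ω ∂P, ∀ ε : ℝ, 0 < ε → ∀ H : ℝ → ℝ,
    (∀ᶠ X in atTop, X ^ ε < H X ∧ H X < X ^ (1 - ε)) →
    (∀ t : ℝ, Tendsto (fun X : ℝ => (volume {x : ℝ | x ∈ Set.Icc X (2 * X) ∧
      (∑ n ∈ (Finset.range (⌊x + H X⌋₊ + 1)).filter (fun n : ℕ => |(n : ℝ) - x| < H X / 2),
        rf (fun p => f p ω) n) / √(H X / (Real.pi ^ 2 / 6)) ≤ t}).toReal / X) atTop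
      (𝓝 (cdf (gaussianReal 0 1) t))) ∧
    ∀ r : ℕ, Tendsto (fun X : ℝ => (1 / X) * ∫ x in X..2 * X,
      ((∑ n ∈ (Finset.range (⌊x + H X⌋₊ + 1)).filter (fun n : ℕ => |(n : ℝ) - x| < H X / 2),
        rf (fun p => f p ω) n) / √(H X / (Real.pi ^ 2 / 6))) ^ r) atTop
      (𝓝 (∫ y, y ^ r ∂(gaussianReal 0 1))) := by
  filter_upwards [ae_near h, main h] with ω hω hω2 ε hε H hH
  refine ⟨fun t => hω2 ε hε H hH t, fun r => ?_⟩
  have hm : 0 < min ε (1 / 2) := lt_min hε (by norm_num)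
  have hH' : ∀ᶠ X in atTop, X ^ (min ε (1 / 2)) < H X ∧ H X < X ^ (1 - min ε (1 / 2)) := by
    filter_upwards [hH, eventually_ge_atTop 1] with X h1 h2
    have h3 : min ε (1 / 2) ≤ ε := min_le_left _ _
    exact ⟨lt_of_le_of_lt (Real.rpow_le_rpow_of_exponent_le h2 h3) h1.1,
      lt_of_lt_of_le h1.2 (Real.rpow_le_rpow_of_exponent_le h2 (by linarith))⟩
  refine (mom_lim (s := fun p => f p ω) (fun p => h.val p ω) hm (hω ε hε) hH' r).congr' ?_
  filter_upwards [hH', eventually_ge_atTop 1] with X h1 h2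
  have hX0 : 0 < X := by linarith
  have hH0 : 0 < H X := lt_trans (Real.rpow_pos_of_pos hX0 _) h1.1
  have hHX : H X ≤ X := h1.2.le.trans (by
    calc X ^ (1 - min ε (1 / 2)) ≤ X ^ (1 : ℝ) :=
          Real.rpow_le_rpow_of_exponent_le h2 (by linarith)
      _ = X := Real.rpow_one X)
  congr 1
  refine intervalIntegral.integral_congr fun x hx => ?_
  rw [Set.uIcc_of_le (by linarith)] at hx
  rw [Zf_eq _ hx hH0 hHX]

end Pool.Agent.U585.GA
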