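import Pool.Agent.U585.GA.Blk

/-!
# Pairs of tuples with the same squarefree part of the product
-/

set_option autoImplicit false
set_option linter.unusedSectionVars false

open Finset

namespace Pool.Agent.U585.GA

open Pool.Agent.U585.GC (PN mem_PN)

open Classical in
/-- the tuples which contribute -/
noncomputable def TP (X H : ℝ) (r N : ℕ) : Finset (Fin r → ℕ) :=
  (TN r N).filter (fun n => NE n ∧ 0 < om X H n)

lemma mem_TP {X H : ℝ} {r N : ℕ} {n : Fin r → ℕ} :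
    n ∈ TP X H r N ↔ (∀ i, 1 ≤ n i ∧ n i ≤ N ∧ Squarefree (n i)) ∧ NE n ∧ 0 < om X H n := by
  classical
  unfold TP TN
  rw [mem_filter, Fintype.mem_piFinset]
  simp only [mem_SN]

/-- the entries of a tuple which contributes are in the window of a block -/
lemma TP_block {X H : ℝ} {r N h₀ : ℕ} (hX : 0 ≤ X) (hHX : H ≤ X) (hh : H ≤ h₀)
    {n : Fin r → ℕ} (hn : n ∈ TP X H r N) (i₀ : Fin r) (hh0 : 0 < h₀) (i : Fin r) :
    n i ∈ Wb X h₀ (n i₀ / h₀) := by
  rw [mem_TP] at hn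
  obtain ⟨x, hx1, hx2, hx3⟩ := om_pos hX hn.2.2
  have h0 := abs_lt.1 (hx3 i₀)
  have h1 := abs_lt.1 (hx3 i)
  set b := n i₀ / h₀ with hb
  have hb1 : b * h₀ ≤ n i₀ := Nat.div_mul_le_self _ _
  have hb2 : n i₀ < (b + 1) * h₀ := by
    rw [add_mul, one_mul]
    exact Nat.lt_div_mul_add hh0
  have h2 : n i < n i₀ + h₀ := by
    have : (n i : ℝ) < n i₀ + h₀ := by linarith
    exact_mod_cast this
  have h3 : n i₀ < n i + h₀ := by
    have : (n i₀ : ℝ) < n i + h₀ := by linarith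
    exact_mod_cast this
  rw [mem_Wb]
  refine ⟨?_, ?_, (hn.1 i).2.2, by linarith, by linarith⟩
  · rcases Nat.eq_zero_or_pos b with h | h
    · rw [h]; simp
    · obtain ⟨c, hc⟩ : ∃ c, b = c + 1 := ⟨b - 1, by omega⟩
      rw [hc] at hb1 ⊢
      rw [add_mul, one_mul] at hb1
      rw [Nat.add_sub_cancel]
      omega
  · have e : (b + 2) * h₀ = (b + 1) * h₀ + h₀ := by ring
    rw [e]; omega

lemma card_sum_filter {r : ℕ} (z : (Fin r → ℕ) × (Fin r → ℕ)) (Q : ℕ → Prop) [DecidablePred Q] :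
    (univ.filter (fun i : Fin r ⊕ Fin r => Q (Sum.elim z.1 z.2 i))).card =
      (univ.filter (fun i => Q (z.1 i))).card + (univ.filter (fun i => Q (z.2 i))).card := by
  rw [card_filter, card_filter, card_filter, Fintype.sum_sum_type]
  rfl

lemma even_elim {X H : ℝ} {r N : ℕ} {z : (Fin r → ℕ) × (Fin r → ℕ)} (h1 : z.1 ∈ TP X H r N)
    (h2 : z.2 ∈ TP X H r N) (hu : uo N z.1 = uo N z.2) : EvenT (Sum.elim z.1 z.2) := by
  intro p hp
  rw [card_sum_filter z (fun a => p ∣ a)]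
  rw [mem_TP] at h1 h2
  by_cases hpN : p ≤ N
  · have hpP : p ∈ PN N := mem_PN.2 ⟨hp, hpN⟩
    have h3 : p ∈ uo N z.1 ↔ p ∈ uo N z.2 := by rw [hu]
    unfold uo at h3
    rw [mem_filter, mem_filter] at h3
    simp only [hpP, true_and] at h3
    rw [Nat.even_add, ← Nat.not_odd_iff_even, ← Nat.not_odd_iff_even, h3]
  · have hz : ∀ n : Fin r → ℕ, (∀ i, 1 ≤ n i ∧ n i ≤ N ∧ Squarefree (n i)) →
        (univ.filter (fun i => p ∣ n i)).card = 0 := by
      intro n hn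
      rw [card_eq_zero, filter_eq_empty_iff]
      intro i _ hd
      have := Nat.le_of_dvd (by have := (hn i).1; omega) hd
      have := (hn i).2.1
      omega
    rw [hz _ h1.1, hz _ h2.1]
    exact Even.add_self 0

/-- in a good pair of blocks there are two entries with a medium common divisor -/
lemma find_pair {X H G B : ℝ} {r N h₀ b b' : ℕ} (hB1 : 1 ≤ B)
    (hB : B ^ (2 * r) < X / 2) (hLG : 3 * (h₀ : ℝ) ≤ G) (hgood : Good X G h₀ b b')
    {z : (Fin r → ℕ) × (Fin r → ℕ)} (h1 : z.1 ∈ TP X H r N) (h2 : z.2 ∈ TP X H r N)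
    (w1 : ∀ i, z.1 i ∈ Wb X h₀ b) (w2 : ∀ i, z.2 i ∈ Wb X h₀ b')
    (he : EvenT (Sum.elim z.1 z.2)) :
    ∃ i₁ i₀ : Fin r ⊕ Fin r, i₁ ≠ i₀ ∧
      B ≤ Nat.gcd (Sum.elim z.1 z.2 i₀) (Sum.elim z.1 z.2 i₁) ∧
      (Nat.gcd (Sum.elim z.1 z.2 i₀) (Sum.elim z.1 z.2 i₁) : ℝ) ≤ G := by
  classical
  rw [mem_TP] at h1 h2
  set ν : Fin r ⊕ Fin r → ℕ := Sum.elim z.1 z.2 with hν
  obtain ⟨v, hv⟩ := h1.2.1
  obtain ⟨j, hj⟩ : (univ.filter (fun i => z.1 i = v)).Nonempty := by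
    rw [← card_pos]; exact hv.pos
  rw [mem_filter] at hj
  have hvW : v ∈ Wb X h₀ b := hj.2 ▸ w1 j
  have hvm := mem_Wb.1 hvW
  have hvsq : Squarefree v := hvm.2.2.1
  have hz2 : (univ.filter (fun i => z.2 i = v)).card = 0 := by
    rw [card_eq_zero, filter_eq_empty_iff]
    intro i _ hi
    exact Wb_disj hgood.1 hvW (hi ▸ w2 i)
  have hodd : Odd (univ.filter (fun i => ν i = v)).card := by
    rw [hν, card_sum_filter z (fun a => a = v), hz2, add_zero]
    exact hv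
  set K := univ.filter (fun i => ν i ≠ v) with hK
  have hex : ∀ p ∈ v.primeFactors, ∃ i ∈ K, p ∣ ν i := by
    intro p hp
    have hpp := Nat.prime_of_mem_primeFactors hp
    have hpv := Nat.dvd_of_mem_primeFactors hp
    by_contra hcon
    push Not at hcon
    have h3 : univ.filter (fun i => p ∣ ν i) = univ.filter (fun i => ν i = v) := by
      ext i
      simp only [mem_filter, mem_univ, true_and]
      constructor
      · intro h
        by_contra hne
        exact hcon i (mem_filter.2 ⟨mem_univ _, hne⟩) h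
      · intro h
        rw [h]; exact hpv
    have h4 := he p hpp
    rw [h3] at h4
    exact (Nat.not_even_iff_odd.2 hodd) h4
  have hdvd : v ∣ ∏ i ∈ K, Nat.gcd (ν i) v := by
    rw [← Nat.prod_primeFactors_of_squarefree hvsq]
    refine Finset.prod_primes_dvd _ (fun p hp => (Nat.prime_of_mem_primeFactors hp).prime) ?_
    intro p hp
    obtain ⟨i, hi, hpi⟩ := hex p hp
    rw [Nat.prod_primeFactors_of_squarefree hvsq]
    exact (Nat.dvd_gcd hpi (Nat.dvd_of_mem_primeFactors hp)).trans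
      (dvd_prod_of_mem (fun i => Nat.gcd (ν i) v) hi)
  have hv0 : v ≠ 0 := hvsq.ne_zero
  have hpos : 0 < ∏ i ∈ K, Nat.gcd (ν i) v := prod_pos fun i _ =>
    Nat.gcd_pos_of_pos_right _ (Nat.pos_of_ne_zero hv0)
  have hle := Nat.le_of_dvd hpos hdvd
  have hbig : ∃ i ∈ K, B < Nat.gcd (ν i) v := by
    by_contra hcon
    push Not at hcon
    have h3 : ((∏ i ∈ K, Nat.gcd (ν i) v : ℕ) : ℝ) ≤ B ^ (2 * r) := by
      rw [Nat.cast_prod]
      calc ∏ i ∈ K, ((Nat.gcd (ν i) v : ℕ) : ℝ) ≤ ∏ _i ∈ K, B :=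
            prod_le_prod (fun i _ => Nat.cast_nonneg _) fun i hi => hcon i hi
        _ = B ^ K.card := by rw [prod_const]
        _ ≤ B ^ (2 * r) := by
            refine pow_le_pow_right₀ hB1 ?_
            refine (card_le_univ K).trans (le_of_eq ?_)
            rw [Fintype.card_sum, Fintype.card_fin]
            ring
    have h4 : (v : ℝ) ≤ ((∏ i ∈ K, Nat.gcd (ν i) v : ℕ) : ℝ) := by exact_mod_cast hle
    linarith [hvm.2.2.2.1]
  obtain ⟨i₀, hi₀, hg⟩ := hbig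
  have hi₀' : ν i₀ ≠ v := (mem_filter.1 hi₀).2
  have hνj : ν (Sum.inl j) = v := by rw [hν]; exact hj.2
  refine ⟨Sum.inl j, i₀, ?_, ?_, ?_⟩
  · intro h
    exact hi₀' (h ▸ hνj)
  · rw [hνj]; exact hg.le
  · rw [hνj]
    rcases i₀ with i | i
    · -- the same block
      have hw : ν (Sum.inl i) ∈ Wb X h₀ b := w1 i
      have hwm := mem_Wb.1 hw
      set a := ν (Sum.inl i) with ha
      have h3 : ((Nat.gcd a v : ℕ) : ℤ) ∣ (a : ℤ) - v :=
        dvd_sub (by exact_mod_cast Nat.gcd_dvd_left a v) (by exact_mod_cast Nat.gcd_dvd_right a v)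
      have h4 : (a : ℤ) - v ≠ 0 := by omega
      have h5 : ((Nat.gcd a v : ℕ) : ℤ) ≤ |(a : ℤ) - v| :=
        Int.le_of_dvd (abs_pos.2 h4) ((dvd_abs _ _).2 h3)
      have h6 := Wb_len b h₀
      have h7 : |(a : ℤ) - v| ≤ 3 * h₀ := by
        rw [abs_le]
        constructor
        · have := hwm.1; have := hvm.2.1; omega
        · have := hwm.2.1; have := hvm.1; omega
      have h8 : ((Nat.gcd a v : ℕ) : ℤ) ≤ 3 * h₀ := h5.trans h7
      have h9 : ((Nat.gcd a v : ℕ) : ℝ) ≤ 3 * (h₀ : ℝ) := by exact_mod_cast h8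
      exact h9.trans hLG
    · have hw : ν (Sum.inr i) ∈ Wb X h₀ b' := w2 i
      have := hgood.2 v hvW _ hw
      rw [Nat.gcd_comm] at this
      exact this

/-- the windows for a pair of blocks -/
noncomputable def WW (X : ℝ) (h₀ r b b' : ℕ) : Fin r ⊕ Fin r → Finset ℕ :=
  Sum.elim (fun _ => Wb X h₀ b) (fun _ => Wb X h₀ b')

lemma WW_wins {X c : ℝ} {h₀ r : ℕ} (b b' : ℕ) (hX : 2 ≤ X) (hh : 1 ≤ h₀)
    (hLX : 3 * (h₀ : ℝ) ≤ X) (hc : 1 ≤ c)
    (hdiv : ∀ Q : ℕ, 1 ≤ Q → Q ≤ ⌊3 * X⌋₊ ^ (2 * r) → (2 : ℝ) ^ Q.primeFactors.card ≤ c) :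
    Wins X (3 * h₀) c ⌊3 * X⌋₊ (2 * r) (WW X h₀ r b b') := by
  have hup : ∀ (β a : ℕ), a ∈ Wb X h₀ β → a ≤ ⌊3 * X⌋₊ := fun β a ha =>
    Nat.le_floor (mem_Wb.1 ha).2.2.2.2
  have hhR : (1 : ℝ) ≤ h₀ := by exact_mod_cast hh
  refine ⟨?_, ?_, ?_, ?_, Nat.floor_le (by linarith), hX, by linarith, hLX, hc, hdiv⟩
  · rintro (i | i)
    · exact Wb_win X h₀ b
    · exact Wb_win X h₀ b'
  · rintro (i | i) a ha
    · exact (mem_Wb.1 ha).2.2.2.1
    · exact (mem_Wb.1 ha).2.2.2.1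
  · rintro (i | i) a ha
    · exact hup _ _ ha
    · exact hup _ _ ha
  · refine Nat.le_floor ?_
    push_cast
    linarith

open Classical in
/-- the pairs of tuples -/
noncomputable def PP (X H : ℝ) (r N : ℕ) : Finset ((Fin r → ℕ) × (Fin r → ℕ)) :=
  (TP X H r N ×ˢ TP X H r N).filter (fun z => uo N z.1 = uo N z.2)

open Classical in
/-- the number of pairs -/
theorem PP_card {X H G B A c : ℝ} {r N h₀ : ℕ} (hr : 1 ≤ r) (hX : 2 ≤ X) (hH : 1 ≤ H)
    (hHX : H ≤ X) (hh : H ≤ h₀) (hLX : 3 * (h₀ : ℝ) ≤ X) (hB1 : 1 ≤ B)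
    (hB : B ^ (2 * r) < X / 2) (hLG : 3 * (h₀ : ℝ) ≤ G) (hA : 1 ≤ A) (hAG : 3 * X ≤ A * G)
    (hc : 1 ≤ c)
    (hdiv : ∀ Q : ℕ, 1 ≤ Q → Q ≤ ⌊3 * X⌋₊ ^ (2 * r) → (2 : ℝ) ^ Q.primeFactors.card ≤ c) :
    ((PP X H r N).card : ℝ) ≤
      24 ^ r * (3 * (h₀ : ℝ)) ^ r * c ^ (2 * r) *
        ((2 * r) ^ 2 * (3 * h₀ / X + 1 / (3 * h₀) + 1 / B + G / X) *
          ((⌊3 * X⌋₊ / h₀ + 1 : ℕ) : ℝ) ^ 2 + 12 * A ^ 3 * ((⌊3 * X⌋₊ / h₀ + 1 : ℕ) : ℝ)) := by
  have hX0 : 0 ≤ X := by linarith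
  have hh1 : 1 ≤ h₀ := by
    have : (1 : ℝ) ≤ h₀ := hH.trans hh
    exact_mod_cast this
  have hh0 : (0 : ℝ) < h₀ := by exact_mod_cast hh1
  have hG0 : 0 < G := by linarith
  set Bn := ⌊3 * X⌋₊ / h₀ + 1 with hBn
  set i₀ : Fin r := ⟨0, by omega⟩ with hi₀
  set L : ℝ := 3 * h₀ with hL
  set E : ℝ := 24 ^ r * L ^ r * c ^ (2 * r) with hE
  have hE0 : 0 ≤ E := by rw [hE]; positivity
  set σ : ℝ := L / X + 1 / L + 1 / B + G / X with hσ
  have hB0 : 0 < B := by linarith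
  have hσ0 : 0 ≤ σ := by rw [hσ]; positivity
  have hcard : Fintype.card (Fin r ⊕ Fin r) = 2 * r := by
    rw [Fintype.card_sum, Fintype.card_fin]; ring
  -- fibering over the pairs of blocks
  have hmap : ∀ z ∈ PP X H r N, (z.1 i₀ / h₀, z.2 i₀ / h₀) ∈ range Bn ×ˢ range Bn := by
    intro z hz
    unfold PP at hz
    rw [mem_filter, mem_product] at hz
    rw [mem_product, mem_range, mem_range]
    have key : ∀ n : Fin r → ℕ, n ∈ TP X H r N → n i₀ / h₀ < Bn := by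
      intro n hn
      have h1 := mem_Wb.1 (TP_block hX0 hHX hh hn i₀ (by omega) i₀)
      have h2 : n i₀ ≤ ⌊3 * X⌋₊ := Nat.le_floor h1.2.2.2.2
      have h3 := Nat.div_le_div_right (c := h₀) h2
      omega
    exact ⟨key _ hz.1.1, key _ hz.1.2⟩
  rw [card_eq_sum_card_fiberwise hmap]
  push_cast
  have hfib : ∀ w ∈ range Bn ×ˢ range Bn,
      (((PP X H r N).filter (fun z => (z.1 i₀ / h₀, z.2 i₀ / h₀) = w)).card : ℝ) ≤
        if Good X G h₀ w.1 w.2 then (2 * r) ^ 2 * (E * σ) else E := by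
    intro w _
    have hW := WW_wins (r := r) w.1 w.2 hX hh1 hLX hc hdiv
    have hin : ∀ z ∈ (PP X H r N).filter (fun z => (z.1 i₀ / h₀, z.2 i₀ / h₀) = w),
        Sum.elim z.1 z.2 ∈ Fintype.piFinset (WW X h₀ r w.1 w.2) ∧ EvenT (Sum.elim z.1 z.2) ∧
        (∀ i, z.1 i ∈ Wb X h₀ w.1) ∧ (∀ i, z.2 i ∈ Wb X h₀ w.2) ∧ z.1 ∈ TP X H r N ∧
        z.2 ∈ TP X H r N := by
      intro z hz
      rw [mem_filter] at hz
      obtain ⟨hz1, hz2⟩ := hz
      unfold PP at hz1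
      rw [mem_filter, mem_product] at hz1
      have e1 : z.1 i₀ / h₀ = w.1 := congrArg Prod.fst hz2
      have e2 : z.2 i₀ / h₀ = w.2 := congrArg Prod.snd hz2
      have w1 : ∀ i, z.1 i ∈ Wb X h₀ w.1 := fun i => by
        rw [← e1]; exact TP_block hX0 hHX hh hz1.1.1 i₀ (by omega) i
      have w2 : ∀ i, z.2 i ∈ Wb X h₀ w.2 := fun i => by
        rw [← e2]; exact TP_block hX0 hHX hh hz1.1.2 i₀ (by omega) i
      refine ⟨?_, even_elim hz1.1.1 hz1.1.2 hz1.2, w1, w2, hz1.1.1, hz1.1.2⟩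
      rw [Fintype.mem_piFinset]
      rintro (i | i)
      · exact w1 i
      · exact w2 i
    have hinj : Set.InjOn (fun z : (Fin r → ℕ) × (Fin r → ℕ) => Sum.elim z.1 z.2)
        ((PP X H r N).filter (fun z => (z.1 i₀ / h₀, z.2 i₀ / h₀) = w) : Finset _) := by
      intro z _ z' _ hzz
      beta_reduce at hzz
      refine Prod.ext ?_ ?_
      · funext i; exact congrFun hzz (Sum.inl i)
      · funext i; exact congrFun hzz (Sum.inr i)
    split_ifs with hgood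
    · -- good pair
      have h1 : ((PP X H r N).filter (fun z => (z.1 i₀ / h₀, z.2 i₀ / h₀) = w)).card ≤
          ((univ ×ˢ univ : Finset ((Fin r ⊕ Fin r) × (Fin r ⊕ Fin r))).biUnion
            (fun q => if q.1 ≠ q.2 then ((Fintype.piFinset (WW X h₀ r w.1 w.2)).filter
              (fun n => EvenT n ∧ B ≤ Nat.gcd (n q.2) (n q.1) ∧
                (Nat.gcd (n q.2) (n q.1) : ℝ) ≤ G)) else ∅)).card := by
        refine card_le_card_of_injOn _ ?_ hinj
        intro z hz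
        have hz' := hin z (by exact_mod_cast hz)
        obtain ⟨i1, i2, hne, hb1, hb2⟩ := find_pair hB1 hB hLG hgood hz'.2.2.2.2.1
          hz'.2.2.2.2.2 hz'.2.2.1 hz'.2.2.2.1 hz'.2.1
        rw [mem_coe, mem_biUnion]
        refine ⟨(i1, i2), mem_product.2 ⟨mem_univ _, mem_univ _⟩, ?_⟩
        rw [if_pos hne, mem_filter]
        exact ⟨hz'.1, hz'.2.1, hb1, hb2⟩
      have h2 : ∀ q ∈ (univ ×ˢ univ : Finset ((Fin r ⊕ Fin r) × (Fin r ⊕ Fin r))),
          (((if q.1 ≠ q.2 then ((Fintype.piFinset (WW X h₀ r w.1 w.2)).filter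
              (fun n => EvenT n ∧ B ≤ Nat.gcd (n q.2) (n q.1) ∧
                (Nat.gcd (n q.2) (n q.1) : ℝ) ≤ G)) else ∅ : Finset _).card : ℕ) : ℝ) ≤ E * σ := by
        intro q _
        split_ifs with hq
        · refine (count_strong hr hcard hW hq hB0 hG0.le).trans (le_of_eq ?_)
          rw [hE, hσ]; ring
        · simp only [card_empty, Nat.cast_zero]
          positivity
      have h3 := card_biUnion_le (s := (univ ×ˢ univ :
        Finset ((Fin r ⊕ Fin r) × (Fin r ⊕ Fin r)))) (t := fun q => if q.1 ≠ q.2 then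
          ((Fintype.piFinset (WW X h₀ r w.1 w.2)).filter
              (fun n => EvenT n ∧ B ≤ Nat.gcd (n q.2) (n q.1) ∧
                (Nat.gcd (n q.2) (n q.1) : ℝ) ≤ G)) else ∅)
      have h4 : (((PP X H r N).filter (fun z => (z.1 i₀ / h₀, z.2 i₀ / h₀) = w)).card : ℝ) ≤
          ∑ q ∈ (univ ×ˢ univ : Finset ((Fin r ⊕ Fin r) × (Fin r ⊕ Fin r))),
          (((if q.1 ≠ q.2 then ((Fintype.piFinset (WW X h₀ r w.1 w.2)).filter
              (fun n => EvenT n ∧ B ≤ Nat.gcd (n q.2) (n q.1) ∧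
                (Nat.gcd (n q.2) (n q.1) : ℝ) ≤ G)) else ∅ : Finset _).card : ℕ) : ℝ) := by
        exact_mod_cast h1.trans h3
      refine (h4.trans (sum_le_sum h2)).trans (le_of_eq ?_)
      rw [sum_const, card_product, card_univ, hcard, nsmul_eq_mul]
      push_cast
      ring
    · have h1 : ((PP X H r N).filter (fun z => (z.1 i₀ / h₀, z.2 i₀ / h₀) = w)).card ≤
          ((Fintype.piFinset (WW X h₀ r w.1 w.2)).filter (fun n => EvenT n)).card := by
        refine card_le_card_of_injOn _ ?_ hinj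
        intro z hz
        have hz' := hin z (by exact_mod_cast hz)
        rw [mem_coe, mem_filter]
        exact ⟨hz'.1, hz'.2.1⟩
      exact le_trans (by exact_mod_cast h1) (count_weak hcard hW)
  refine (sum_le_sum hfib).trans ?_
  rw [sum_ite, sum_const, sum_const, nsmul_eq_mul, nsmul_eq_mul]
  have h1 : (((range Bn ×ˢ range Bn).filter (fun z => Good X G h₀ z.1 z.2)).card : ℝ) ≤
      (Bn : ℝ) ^ 2 := by
    have : ((range Bn ×ˢ range Bn).filter (fun z => Good X G h₀ z.1 z.2)).card ≤ Bn * Bn := by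
      refine (card_filter_le _ _).trans (le_of_eq ?_)
      rw [card_product, card_range]
    have h2 : (((range Bn ×ˢ range Bn).filter (fun z => Good X G h₀ z.1 z.2)).card : ℝ) ≤
        ((Bn * Bn : ℕ) : ℝ) := by exact_mod_cast this
    push_cast at h2
    linarith
  have h2 := bad_pairs (X := X) hh1 hG0 hA hAG Bn
  calc _ ≤ (Bn : ℝ) ^ 2 * ((2 * r) ^ 2 * (E * σ)) + (12 * A ^ 3 * Bn) * E :=
        add_le_add (mul_le_mul_of_nonneg_right h1 (by positivity))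
          (mul_le_mul_of_nonneg_right h2 hE0)
    _ = _ := by ring

end Pool.Agent.U585.GA
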