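import Mathlib

/-!
# Taylor's formula for the exponential on the imaginary axis; averages over signs
-/

set_option autoImplicit false

open Finset

namespace Pool.Agent.U585.GA

/-- the Taylor polynomial -/
noncomputable def tp (n : ℕ) (y : ℝ) : ℂ := ∑ j ∈ range n, (Complex.I * y) ^ j / (j.factorial : ℂ)

lemma tp_deriv (n : ℕ) (y : ℝ) : HasDerivAt (tp (n + 1)) (Complex.I * tp n y) y := by
  induction n with
  | zero =>
    have : tp (0 + 1) = fun _ => (1 : ℂ) := by
      funext z
      simp [tp]
    rw [this]
    simpa [tp] using hasDerivAt_const y (1 : ℂ)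
  | succ n ih =>
    have e1 : tp (n + 1 + 1) = fun z => tp (n + 1) z +
        (Complex.I * z) ^ (n + 1) / ((n + 1).factorial : ℂ) := by
      funext z
      unfold tp
      rw [sum_range_succ]
    have h1 : HasDerivAt (fun z : ℝ => (Complex.I * (z : ℂ))) Complex.I y := by
      have := (Complex.ofRealCLM.hasDerivAt (x := y)).const_mul Complex.I
      simpa using this
    have h2 : HasDerivAt (fun z : ℝ => (Complex.I * (z : ℂ)) ^ (n + 1) / ((n + 1).factorial : ℂ))
        (((n + 1 : ℕ) : ℂ) * (Complex.I * (y : ℂ)) ^ n * Complex.I / ((n + 1).factorial : ℂ)) y := by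
      have := (h1.pow (n + 1)).div_const ((n + 1).factorial : ℂ)
      simpa using this
    rw [e1]
    have h3 := ih.add h2
    refine h3.congr_deriv ?_
    have e2 : tp (n + 1) y = tp n y + (Complex.I * y) ^ n / (n.factorial : ℂ) := by
      unfold tp
      rw [sum_range_succ]
    rw [e2, mul_add]
    congr 1
    rw [Nat.factorial_succ]
    push_cast
    have a1 : ((n : ℂ) + 1) ≠ 0 := by exact_mod_cast (Nat.succ_ne_zero n)
    have a2 : (n.factorial : ℂ) ≠ 0 := by exact_mod_cast n.factorial_ne_zero
    field_simp

lemma exp_taylor_pos (n : ℕ) : ∀ y : ℝ, 0 ≤ y →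
    ‖Complex.exp (Complex.I * y) - tp n y‖ ≤ y ^ n / n.factorial := by
  induction n with
  | zero =>
    intro y _
    unfold tp
    simp [Complex.norm_exp_I_mul_ofReal]
  | succ n ih =>
    intro y hy
    have h1 : ∀ x : ℝ, HasDerivAt (fun z : ℝ => Complex.exp (Complex.I * z) - tp (n + 1) z)
        (Complex.I * (Complex.exp (Complex.I * x) - tp n x)) x := by
      intro x
      have h1 : HasDerivAt (fun z : ℝ => (Complex.I * (z : ℂ))) Complex.I x := by
        have := (Complex.ofRealCLM.hasDerivAt (x := x)).const_mul Complex.I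
        simpa using this
      have h2 := h1.cexp.sub (tp_deriv n x)
      refine h2.congr_deriv ?_
      ring
    have hB : ∀ x : ℝ, HasDerivAt (fun z : ℝ => z ^ (n + 1) / ((n + 1).factorial : ℝ))
        (x ^ n / n.factorial) x := by
      intro x
      have := ((hasDerivAt_id x).pow (n + 1)).div_const ((n + 1).factorial : ℝ)
      refine this.congr_deriv ?_
      rw [Nat.factorial_succ]
      push_cast
      have a1 : ((n : ℝ) + 1) ≠ 0 := by positivity
      have a2 : (n.factorial : ℝ) ≠ 0 := by exact_mod_cast n.factorial_ne_zero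
      simp only [id, mul_one]
      field_simp
    refine image_norm_le_of_norm_deriv_right_le_deriv_boundary (a := 0) (b := y)
      (f := fun z : ℝ => Complex.exp (Complex.I * z) - tp (n + 1) z)
      (f' := fun x => Complex.I * (Complex.exp (Complex.I * x) - tp n x))
      (fun x _ => (h1 x).continuousAt.continuousWithinAt) (fun x _ => (h1 x).hasDerivWithinAt)
      ?_ hB ?_ ⟨hy, le_rfl⟩
    · simp [tp, sum_range_succ']
    · intro x hx
      rw [norm_mul, Complex.norm_I, one_mul]
      exact ih x hx.1

lemma exp_taylor (n : ℕ) (y : ℝ) :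
    ‖Complex.exp (Complex.I * y) - tp n y‖ ≤ |y| ^ n / n.factorial := by
  rcases le_total 0 y with h | h
  · rw [abs_of_nonneg h]
    exact exp_taylor_pos n y h
  · rw [abs_of_nonpos h]
    have h1 := exp_taylor_pos n (-y) (by linarith)
    have h2 : Complex.exp (Complex.I * ((-y : ℝ) : ℂ)) - tp n (-y) =
        (starRingEnd ℂ) (Complex.exp (Complex.I * y) - tp n y) := by
      unfold tp
      rw [map_sub, map_sum, ← Complex.exp_conj]
      congr 1
      · congr 1
        rw [map_mul, Complex.conj_I, Complex.conj_ofReal]
        push_cast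
        ring
      · refine sum_congr rfl fun j _ => ?_
        rw [map_div₀, map_pow, map_mul, Complex.conj_I, Complex.conj_ofReal]
        push_cast
        congr 1
        · congr 1
          ring
        · simp
    rw [h2, Complex.norm_conj] at h1
    exact h1

end Pool.Agent.U585.GA
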