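import Pool.Agent.U585.GA.Tup
import Pool.Agent.U585.GA.Tay

/-!
# Averages over independent signs on the integers
-/

set_option autoImplicit false

open Finset

namespace Pool.Agent.U585.GA

/-- the sign vector given by `V` -/
noncomputable def sg (V : Finset ℕ) (n : ℕ) : ℝ := if n ∈ V then 1 else -1

lemma sum_sg {R : Type} [CommSemiring R] (S : Finset ℕ) (g : ℕ → ℝ → R) :
    ∑ V ∈ S.powerset, ∏ v ∈ S, g v (sg V v) = ∏ v ∈ S, (g v 1 + g v (-1)) := by
  classical
  rw [prod_add]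
  refine sum_congr rfl fun V hV => ?_
  rw [mem_powerset] at hV
  rw [← prod_sdiff hV, mul_comm]
  congr 1
  · refine prod_congr rfl fun v hv => ?_
    unfold sg
    rw [if_pos hv]
  · refine prod_congr rfl fun v hv => ?_
    unfold sg
    rw [if_neg (mem_sdiff.1 hv).2]

/-- tuples -/
lemma prod_sg {r : ℕ} {S : Finset ℕ} {n : Fin r → ℕ} (hn : ∀ i, n i ∈ S) :
    ∑ V ∈ S.powerset, ∏ i, sg V (n i) =
      open Classical in if NE n then (0 : ℝ) else 2 ^ S.card := by
  classical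
  have h1 : ∀ V : Finset ℕ, ∏ i, sg V (n i) =
      ∏ v ∈ S, sg V v ^ (univ.filter (fun i => n i = v)).card := by
    intro V
    rw [← prod_fiberwise_of_maps_to (s := univ) (t := S) (g := n) (fun i _ => hn i)]
    refine prod_congr rfl fun v _ => ?_
    rw [← prod_const]
    refine prod_congr rfl fun i hi => ?_
    rw [(mem_filter.1 hi).2]
  simp_rw [h1]
  rw [sum_sg S fun v y => y ^ (univ.filter (fun i => n i = v)).card]
  by_cases h : NE n
  · rw [if_pos h]
    obtain ⟨v, hv⟩ := h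
    have hvS : v ∈ S := by
      obtain ⟨i, hi⟩ : (univ.filter (fun i => n i = v)).Nonempty := by
        rw [← card_pos]; exact hv.pos
      rw [← (mem_filter.1 hi).2]
      exact hn i
    refine prod_eq_zero hvS ?_
    rw [one_pow, hv.neg_one_pow]
    norm_num
  · rw [if_neg h]
    unfold NE at h
    push Not at h
    calc ∏ v ∈ S, ((1 : ℝ) ^ (univ.filter (fun i => n i = v)).card +
          (-1) ^ (univ.filter (fun i => n i = v)).card) = ∏ _v ∈ S, (2 : ℝ) := by
          refine prod_congr rfl fun v _ => ?_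
          rw [one_pow, (Nat.not_odd_iff_even.1 (h v)).neg_one_pow]
          norm_num
      _ = 2 ^ S.card := by rw [prod_const]

/-- the average of the powers of a linear form -/
lemma sum_pow_sg (S : Finset ℕ) (a : ℕ → ℝ) (r : ℕ) :
    ∑ V ∈ S.powerset, (∑ n ∈ S, sg V n * a n) ^ r =
      2 ^ S.card * ∑ n ∈ open Classical in (Fintype.piFinset fun _ : Fin r => S).filter
        (fun n => ¬ NE n), ∏ i, a (n i) := by
  classical
  have h1 : ∀ V : Finset ℕ, (∑ n ∈ S, sg V n * a n) ^ r =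
      ∑ n ∈ Fintype.piFinset fun _ : Fin r => S, (∏ i, sg V (n i)) * ∏ i, a (n i) := by
    intro V
    have h2 : (∑ n ∈ S, sg V n * a n) ^ r = ∏ _i : Fin r, ∑ n ∈ S, sg V n * a n := by
      rw [prod_const, card_univ, Fintype.card_fin]
    rw [h2, prod_univ_sum]
    refine sum_congr rfl fun n _ => ?_
    rw [prod_mul_distrib]
  simp_rw [h1]
  rw [sum_comm, mul_sum, sum_filter]
  refine sum_congr rfl fun n hn => ?_
  rw [Fintype.mem_piFinset] at hn
  rw [← sum_mul, prod_sg hn]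
  by_cases h : NE n
  · rw [if_pos h, if_neg (not_not.2 h), zero_mul]
  · rw [if_neg h, if_pos h]

/-- the average of the exponentials of a linear form -/
lemma sum_exp_sg (S : Finset ℕ) (a : ℕ → ℝ) :
    ∑ V ∈ S.powerset, Real.exp (∑ n ∈ S, sg V n * a n) = 2 ^ S.card * ∏ n ∈ S, Real.cosh (a n) := by
  have h1 : ∀ V : Finset ℕ, Real.exp (∑ n ∈ S, sg V n * a n) = ∏ n ∈ S, Real.exp (sg V n * a n) :=
    fun V => Real.exp_sum _ _
  simp_rw [h1]
  rw [sum_sg S fun v y => Real.exp (y * a v), ← prod_const, ← prod_mul_distrib]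
  refine prod_congr rfl fun n _ => ?_
  rw [Real.cosh_eq]
  rw [one_mul, neg_one_mul]
  ring

lemma sum_cexp_sg (S : Finset ℕ) (a : ℕ → ℝ) :
    ∑ V ∈ S.powerset, Complex.exp (Complex.I * ((∑ n ∈ S, sg V n * a n : ℝ) : ℂ)) =
      2 ^ S.card * ((∏ n ∈ S, Real.cos (a n) : ℝ) : ℂ) := by
  have h1 : ∀ V : Finset ℕ, Complex.exp (Complex.I * ((∑ n ∈ S, sg V n * a n : ℝ) : ℂ)) =
      ∏ n ∈ S, Complex.exp (Complex.I * ((sg V n * a n : ℝ) : ℂ)) := by
    intro V
    rw [← Complex.exp_sum]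
    congr 1
    push_cast
    rw [mul_sum]
  simp_rw [h1]
  rw [sum_sg S fun v y => Complex.exp (Complex.I * ((y * a v : ℝ) : ℂ))]
  push_cast
  rw [← prod_const, ← prod_mul_distrib]
  refine prod_congr rfl fun n _ => ?_
  rw [Complex.cos]
  have e1 : Complex.I * (1 * (a n : ℂ)) = (a n : ℂ) * Complex.I := by ring
  have e2 : Complex.I * (-1 * (a n : ℂ)) = -(a n : ℂ) * Complex.I := by ring
  rw [e1, e2]
  ring

lemma pow_le_cosh (k : ℕ) (y : ℝ) : y ^ (2 * k) / (2 * k).factorial ≤ Real.cosh y := by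
  have h := Real.hasSum_cosh y
  exact le_hasSum h k fun j _ => by
    rw [pow_mul]; positivity

/-- the even moments of a linear form -/
lemma mom_sg (S : Finset ℕ) (a : ℕ → ℝ) (k : ℕ) :
    ∑ V ∈ S.powerset, (∑ n ∈ S, sg V n * a n) ^ (2 * k) / ((2 * k).factorial : ℝ) ≤
      2 ^ S.card * Real.exp ((∑ n ∈ S, a n ^ 2) / 2) := by
  have h1 : ∀ V ∈ S.powerset, (∑ n ∈ S, sg V n * a n) ^ (2 * k) / ((2 * k).factorial : ℝ) ≤
      (Real.exp (∑ n ∈ S, sg V n * a n) + Real.exp (∑ n ∈ S, sg V n * (-a n))) / 2 := by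
    intro V _
    refine (pow_le_cosh k _).trans (le_of_eq ?_)
    rw [Real.cosh_eq]
    congr 3
    rw [← sum_neg_distrib]
    exact sum_congr rfl fun n _ => by ring
  refine (sum_le_sum h1).trans ?_
  rw [← sum_div, sum_add_distrib, sum_exp_sg, sum_exp_sg]
  simp_rw [Real.cosh_neg]
  have h2 : ∏ n ∈ S, Real.cosh (a n) ≤ Real.exp ((∑ n ∈ S, a n ^ 2) / 2) := by
    rw [sum_div, Real.exp_sum]
    exact prod_le_prod (fun n _ => (Real.cosh_pos _).le) fun n _ => Real.cosh_le_exp_half_sq _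
  have h3 : (0 : ℝ) < 2 ^ S.card := by positivity
  nlinarith

end Pool.Agent.U585.GA
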