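import Pool.Agent.U585.GC.Sum

/-!
# Counting tuples in windows whose product is a square
-/

set_option autoImplicit false
set_option linter.unusedSectionVars false

open Finset

namespace Pool.Agent.U585.GA

/-- the number of choices for a multiple of `d` in a window of length `L` -/
noncomputable def ww (L : ℝ) (d : ℕ) : ℝ := L / d + 1

lemma ww_pos {L : ℝ} (hL : 0 ≤ L) (d : ℕ) : 0 < ww L d := by
  unfold ww; positivity

/-- a window: squarefree integers, few of them divisible by `d` -/
def IsWin (L : ℝ) (W : Finset ℕ) : Prop :=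
  (∀ a ∈ W, Squarefree a) ∧ ∀ d : ℕ, 1 ≤ d → ((W.filter (fun a => d ∣ a)).card : ℝ) ≤ L / d + 1

/-- the part of `n i` which divides the product of the former ones -/
def dd {m : ℕ} (n : Fin m → ℕ) (i : Fin m) : ℕ :=
  Nat.gcd (n i) (∏ j ∈ univ.filter (fun j => j < i), n j)

lemma win_step {L : ℝ} (hL : 0 ≤ L) {W : Finset ℕ} (hW : IsWin L W) {Q : ℕ} (hQ : Q ≠ 0) :
    ∑ a ∈ W, 1 / ww L (Nat.gcd a Q) ≤ 2 ^ Q.primeFactors.card := by
  have hmap : ∀ a ∈ W, (Nat.gcd a Q).primeFactors ∈ Q.primeFactors.powerset := fun a _ => by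
    rw [mem_powerset]
    exact Nat.primeFactors_mono (Nat.gcd_dvd_right a Q) hQ
  rw [← sum_fiberwise_of_maps_to hmap]
  have h1 : ∀ V ∈ Q.primeFactors.powerset,
      ∑ a ∈ W.filter (fun a => (Nat.gcd a Q).primeFactors = V), 1 / ww L (Nat.gcd a Q) ≤ 1 := by
    intro V hV
    rw [mem_powerset] at hV
    set v := ∏ p ∈ V, p with hv
    have hv1 : 1 ≤ v := Nat.one_le_iff_ne_zero.2 (prod_ne_zero_iff.2 fun p hp =>
      (Nat.prime_of_mem_primeFactors (hV hp)).ne_zero)
    have h2 : ∀ a ∈ W.filter (fun a => (Nat.gcd a Q).primeFactors = V), Nat.gcd a Q = v := by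
      intro a ha
      rw [mem_filter] at ha
      have hsq : Squarefree (Nat.gcd a Q) := (hW.1 a ha.1).squarefree_of_dvd (Nat.gcd_dvd_left a Q)
      rw [hv, ← ha.2]
      exact (Nat.prod_primeFactors_of_squarefree hsq).symm
    have h3 : ∑ a ∈ W.filter (fun a => (Nat.gcd a Q).primeFactors = V), 1 / ww L (Nat.gcd a Q) =
        ((W.filter (fun a => (Nat.gcd a Q).primeFactors = V)).card : ℝ) * (1 / ww L v) := by
      rw [sum_congr rfl (g := fun _ => 1 / ww L v) fun a ha => by rw [h2 a ha], sum_const,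
        nsmul_eq_mul]
    have h4 : W.filter (fun a => (Nat.gcd a Q).primeFactors = V) ⊆ W.filter (fun a => v ∣ a) := by
      intro a ha
      have := h2 a ha
      rw [mem_filter] at ha ⊢
      exact ⟨ha.1, this ▸ Nat.gcd_dvd_left a Q⟩
    have h5 : ((W.filter (fun a => (Nat.gcd a Q).primeFactors = V)).card : ℝ) ≤ ww L v :=
      le_trans (by exact_mod_cast card_le_card h4) (hW.2 v hv1)
    rw [h3, mul_one_div]
    exact (div_le_one (ww_pos hL v)).2 h5
  refine (sum_le_sum h1).trans (le_of_eq ?_)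
  rw [sum_const, card_powerset, nsmul_eq_mul, mul_one]
  push_cast
  rfl

lemma dd_castSucc {m : ℕ} (n : Fin m → ℕ) (a : ℕ) (i : Fin m) :
    dd (Fin.snoc (α := fun _ => ℕ) n a) i.castSucc = dd n i := by
  unfold dd
  rw [Fin.snoc_castSucc, prod_filter, Fin.prod_univ_castSucc, prod_filter]
  have h1 : ¬ (Fin.last m < i.castSucc) := by
    rw [not_lt]; exact Fin.le_last _
  rw [if_neg h1, mul_one]
  congr 1
  refine prod_congr rfl fun j _ => ?_
  rw [Fin.snoc_castSucc]
  simp only [Fin.castSucc_lt_castSucc_iff]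

lemma dd_last {m : ℕ} (n : Fin m → ℕ) (a : ℕ) :
    dd (Fin.snoc (α := fun _ => ℕ) n a) (Fin.last m) = Nat.gcd a (∏ j, n j) := by
  unfold dd
  rw [Fin.snoc_last, prod_filter, Fin.prod_univ_castSucc]
  rw [if_neg (lt_irrefl _), mul_one]
  congr 1
  refine prod_congr rfl fun j _ => ?_
  rw [Fin.snoc_castSucc, if_pos (Fin.castSucc_lt_last j)]

/-- the weighted count -/
theorem rank {L c : ℝ} (hL : 0 ≤ L) (hc : 1 ≤ c) {N : ℕ} (hN : 1 ≤ N) : ∀ (m : ℕ)
    (W : Fin m → Finset ℕ), (∀ i, IsWin L (W i)) → (∀ i, ∀ a ∈ W i, 1 ≤ a ∧ a ≤ N) →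
    (∀ Q : ℕ, 1 ≤ Q → Q ≤ N ^ m → (2 : ℝ) ^ Q.primeFactors.card ≤ c) →
      ∑ n ∈ Fintype.piFinset W, ∏ i, 1 / ww L (dd n i) ≤ c ^ m := by
  intro m
  induction m with
  | zero =>
    intro W _ _ _
    simp
  | succ m ih =>
    intro W hW hWN hQ
    have hsplit : ∑ n ∈ Fintype.piFinset W, ∏ i, 1 / ww L (dd n i) =
        ∑ z ∈ Fintype.piFinset (fun i : Fin m => W i.castSucc) ×ˢ W (Fin.last m),
          (∏ i, 1 / ww L (dd z.1 i)) * (1 / ww L (Nat.gcd z.2 (∏ j, z.1 j))) := by
      refine sum_nbij' (fun n => ((fun i : Fin m => n i.castSucc), n (Fin.last m)))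
        (fun z => Fin.snoc (α := fun _ => ℕ) z.1 z.2) ?_ ?_ ?_ ?_ ?_
      · intro n hn
        rw [Fintype.mem_piFinset] at hn
        rw [mem_product, Fintype.mem_piFinset]
        exact ⟨fun i => hn _, hn _⟩
      · intro z hz
        rw [mem_product, Fintype.mem_piFinset] at hz
        rw [Fintype.mem_piFinset]
        intro i
        refine Fin.lastCases ?_ (fun i => ?_) i
        · rw [Fin.snoc_last]; exact hz.2
        · rw [Fin.snoc_castSucc]; exact hz.1 i
      · intro n _
        funext i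
        refine Fin.lastCases ?_ (fun i => ?_) i
        · rw [Fin.snoc_last]
        · rw [Fin.snoc_castSucc]
      · intro z _
        refine Prod.ext ?_ ?_
        · funext i
          dsimp only
          rw [Fin.snoc_castSucc]
        · dsimp only
          rw [Fin.snoc_last]
      · intro n _
        have hn : n = Fin.snoc (α := fun _ => ℕ) (fun i : Fin m => n i.castSucc)
            (n (Fin.last m)) := by
          funext i
          refine Fin.lastCases ?_ (fun i => ?_) i
          · rw [Fin.snoc_last]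
          · rw [Fin.snoc_castSucc]
        conv_lhs => rw [hn]
        rw [Fin.prod_univ_castSucc, dd_last]
        congr 1
        refine prod_congr rfl fun i _ => ?_
        rw [dd_castSucc]
    rw [hsplit, sum_product]
    have h1 : ∀ n ∈ Fintype.piFinset (fun i : Fin m => W i.castSucc),
        ∑ a ∈ W (Fin.last m), (∏ i, 1 / ww L (dd n i)) * (1 / ww L (Nat.gcd a (∏ j, n j))) ≤
          (∏ i, 1 / ww L (dd n i)) * c := by
      intro n hn
      rw [Fintype.mem_piFinset] at hn
      rw [← mul_sum]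
      refine mul_le_mul_of_nonneg_left ?_ (prod_nonneg fun i _ =>
        (one_div_pos.2 (ww_pos hL _)).le)
      have hne : (∏ j, n j) ≠ 0 := prod_ne_zero_iff.2 fun j _ => by
        have := (hWN _ _ (hn j)).1; omega
      have hle : (∏ j, n j) ≤ N ^ m := by
        calc ∏ j, n j ≤ ∏ _j : Fin m, N := prod_le_prod' fun j _ => (hWN _ _ (hn j)).2
          _ = N ^ m := by simp
      refine (win_step hL (hW _) hne).trans (hQ _ (Nat.one_le_iff_ne_zero.2 hne) (hle.trans ?_))
      exact Nat.pow_le_pow_right hN (Nat.le_succ m)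
    refine (sum_le_sum h1).trans ?_
    rw [← sum_mul, pow_succ]
    refine mul_le_mul_of_nonneg_right ?_ (by linarith)
    refine ih _ (fun i => hW _) (fun i => hWN _) fun Q h1 h2 => hQ Q h1 (h2.trans ?_)
    exact Nat.pow_le_pow_right hN (Nat.le_succ m)

/-- each prime divides an even number of the entries -/
def EvenT {ι : Type} [Fintype ι] (n : ι → ℕ) : Prop :=
  ∀ p : ℕ, p.Prime → Even (univ.filter (fun i => p ∣ n i)).card

lemma dd_prod {m : ℕ} {n : Fin m → ℕ} (hsq : ∀ i, Squarefree (n i)) (he : EvenT n) :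
    ∏ i, n i ∣ (∏ i, dd n i) ^ 2 := by
  have hn0 : ∀ i, n i ≠ 0 := fun i => (hsq i).ne_zero
  have hd0 : ∀ i, dd n i ≠ 0 := fun i => Nat.gcd_ne_zero_left (hn0 i)
  have h1 : ∏ i, n i ≠ 0 := prod_ne_zero_iff.2 fun i _ => hn0 i
  have h2 : (∏ i, dd n i) ^ 2 ≠ 0 := pow_ne_zero _ (prod_ne_zero_iff.2 fun i _ => hd0 i)
  rw [← Nat.factorization_prime_le_iff_dvd h1 h2]
  intro p hp
  rw [Nat.factorization_pow, Nat.factorization_prod fun i _ => hn0 i,
    Nat.factorization_prod fun i _ => hd0 i]
  simp only [Finsupp.coe_smul, Finsupp.coe_finsetSum, Pi.smul_apply, Finset.sum_apply,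
    smul_eq_mul]
  set I := univ.filter (fun i => p ∣ n i) with hI
  set J := univ.filter (fun i => p ∣ dd n i) with hJ
  have h3 : ∑ i, (n i).factorization p ≤ I.card := by
    rw [hI, card_filter]
    refine sum_le_sum fun i _ => ?_
    by_cases h : p ∣ n i
    · rw [if_pos h]; exact (hsq i).natFactorization_le_one p
    · rw [if_neg h, Nat.factorization_eq_zero_of_not_dvd h]
  have h4 : J.card ≤ ∑ i, (dd n i).factorization p := by
    rw [hJ, card_filter]
    refine sum_le_sum fun i _ => ?_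
    by_cases h : p ∣ dd n i
    · rw [if_pos h]; exact (hp.dvd_iff_one_le_factorization (hd0 i)).1 h
    · rw [if_neg h]; exact Nat.zero_le _
  have h5 : I.card ≤ 2 * J.card := by
    rcases I.eq_empty_or_nonempty with h | h
    · rw [h]; simp
    · have h6 : I.erase (I.min' h) ⊆ J := by
        intro i hi
        rw [mem_erase] at hi
        have hmem : ∀ i ∈ I, p ∣ n i := fun i hi => (mem_filter.1 hi).2
        have hlt : I.min' h < i := lt_of_le_of_ne (I.min'_le i hi.2) (Ne.symm hi.1)
        rw [hJ, mem_filter]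
        refine ⟨mem_univ _, Nat.dvd_gcd (hmem i hi.2) ?_⟩
        exact (hmem _ (I.min'_mem h)).trans (dvd_prod_of_mem n (mem_filter.2 ⟨mem_univ _, hlt⟩))
      have h7 := card_le_card h6
      rw [card_erase_of_mem (I.min'_mem h)] at h7
      have h8 : 0 < I.card := card_pos.2 h
      have h9 : Even I.card := he p hp
      obtain ⟨r, hr⟩ := h9
      omega
  omega

end Pool.Agent.U585.GA
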