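import Pool.Agent.U585.GA.Chr
import Pool.Agent.R509.HM.Sqf

/-!
# The number of the squarefree integers in windows
-/

set_option autoImplicit false

open Finset MeasureTheory

namespace Pool.Agent.U585.GA

open Pool.Agent.U585.GC (ind dg wt int_ind dg_bound)
open Pool.Agent.R509.HM (sqS DS sqS_nonneg sqS_le DS_pos sqS_per sqS_sum exists_W)

lemma per_block (S : Finset ℕ) (a : ℕ) :
    ∑ i ∈ range (DS S), sqS S (a + i) = ∑ i ∈ range (DS S), sqS S i := by
  induction a with
  | zero => simp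
  | succ a ih =>
    rw [← ih]
    have h1 := sum_range_succ (fun i => sqS S (a + i)) (DS S)
    have h2 := sum_range_succ' (fun i => sqS S (a + i)) (DS S)
    rw [sqS_per] at h1
    rw [h1] at h2
    simp only [add_zero] at h2
    have h3 : ∑ i ∈ range (DS S), sqS S (a + 1 + i) = ∑ i ∈ range (DS S), sqS S (a + (i + 1)) :=
      sum_congr rfl fun i _ => by congr 1; ring
    rw [h3]
    linarith

lemma per_blocks (S : Finset ℕ) (a q : ℕ) :
    ∑ i ∈ range (DS S * q), sqS S (a + i) = q * ∑ i ∈ range (DS S), sqS S i := by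
  induction q with
  | zero => simp
  | succ q ih =>
    rw [Nat.mul_succ, sum_range_add, ih]
    have h1 : ∑ x ∈ range (DS S), sqS S (a + (DS S * q + x)) =
        ∑ x ∈ range (DS S), sqS S ((a + DS S * q) + x) :=
      sum_congr rfl fun i _ => by congr 1; ring
    rw [h1, per_block]
    push_cast
    ring

/-- the upper bound sieve in windows -/
lemma sw_upper (κ : ℝ) (hκ : 0 < κ) : ∃ C : ℝ, 0 < C ∧ ∀ (N : ℕ) (H x : ℝ), 0 ≤ H →
    sw N H x ≤ (6 / Real.pi ^ 2 + κ) * H + C := by
  classical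
  obtain ⟨m, hm⟩ := exists_W κ hκ
  set S := Nat.primesBelow m with hS
  have hSp : ∀ p ∈ S, p.Prime := fun p hp => Nat.prime_of_mem_primesBelow hp
  set Pd := ∏ p ∈ S, (1 - 1 / (p : ℝ) ^ 2) with hPd
  have hD := DS_pos S hSp
  have hDR : (1 : ℝ) ≤ DS S := by exact_mod_cast hD
  have hP0 : 0 ≤ Pd := by
    refine prod_nonneg fun p hp => ?_
    have : (1 : ℝ) ≤ (p : ℝ) ^ 2 := one_le_pow₀ (by exact_mod_cast (hSp p hp).one_lt.le)
    rw [sub_nonneg, div_le_one (by linarith)]
    exact this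
  have hP1 : Pd ≤ 1 := by
    refine prod_le_one (fun p hp => ?_) fun p _ => ?_
    · have : (1 : ℝ) ≤ (p : ℝ) ^ 2 := one_le_pow₀ (by exact_mod_cast (hSp p hp).one_lt.le)
      rw [sub_nonneg, div_le_one (by linarith)]
      exact this
    · have : (0 : ℝ) ≤ 1 / (p : ℝ) ^ 2 := by positivity
      linarith
  refine ⟨1 + DS S, by linarith, fun N H x hH => ?_⟩
  rw [sw_eq_card]
  set a := ⌈x - H / 2⌉₊ with ha
  set L := ⌈H⌉₊ with hL
  set q := L / DS S + 1 with hq
  have hLq : L ≤ DS S * q := by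
    rw [hq]
    have := Nat.lt_mul_div_succ L (show 0 < DS S by omega)
    exact this.le
  have h1 : (((SN N).filter (fun n : ℕ => |(n : ℝ) - x| < H / 2)).card : ℝ) ≤
      ∑ i ∈ range (DS S * q), sqS S (a + i) := by
    have e1 : ∑ i ∈ range (DS S * q), sqS S (a + i) =
        ∑ n ∈ (range (DS S * q)).image (fun i => a + i), sqS S n := by
      rw [sum_image]
      intro i _ j _ hij
      beta_reduce at hij
      omega
    rw [e1]
    have hsub : (SN N).filter (fun n : ℕ => |(n : ℝ) - x| < H / 2) ⊆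
        (range (DS S * q)).image (fun i => a + i) := by
      intro n hn
      rw [mem_filter, abs_lt] at hn
      have g1 : a ≤ n := Nat.ceil_le.2 (by linarith [hn.2.1])
      rw [mem_image]
      refine ⟨n - a, ?_, by omega⟩
      rw [mem_range]
      refine lt_of_lt_of_le ?_ hLq
      have g2 : x - H / 2 ≤ a := Nat.le_ceil _
      have g3 : H ≤ L := Nat.le_ceil _
      have g4 : (n : ℝ) < a + L := by linarith [hn.2.2]
      have g5 : n < a + L := by exact_mod_cast g4
      omega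
    refine le_trans ?_ (sum_le_sum_of_subset_of_nonneg hsub fun n _ _ => sqS_nonneg S n)
    rw [card_eq_sum_ones]
    push_cast
    refine sum_le_sum fun n hn => ?_
    have hsq := (mem_SN.1 (mem_filter.1 hn).1).2.2
    have : sqS S n = 1 := by
      unfold sqS
      refine prod_eq_one fun p hp => ?_
      have hnd : ¬ p ^ 2 ∣ n := by
        intro hd
        rw [sq] at hd
        exact (hSp p hp).not_isUnit (hsq p hd)
      rw [if_neg hnd, sub_zero]
    rw [this]
  refine h1.trans ?_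
  rw [per_blocks, sqS_sum S hSp]
  have h2 : (q : ℝ) * DS S ≤ H + 1 + DS S := by
    rw [hq]
    push_cast
    have g1 : ((L / DS S : ℕ) : ℝ) * DS S ≤ L := by exact_mod_cast Nat.div_mul_le_self L (DS S)
    have g2 : (L : ℝ) < H + 1 := Nat.ceil_lt_add_one hH
    linarith
  calc (q : ℝ) * (Pd * DS S) = Pd * (q * DS S) := by ring
    _ ≤ Pd * (H + 1 + DS S) := mul_le_mul_of_nonneg_left h2 hP0
    _ = Pd * H + Pd * (1 + DS S) := by ring
    _ ≤ (6 / Real.pi ^ 2 + κ) * H + 1 * (1 + DS S) := by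
        refine add_le_add (mul_le_mul_of_nonneg_right hm hH) ?_
        exact mul_le_mul_of_nonneg_right hP1 (by linarith)
    _ = _ := by rw [one_mul]

lemma ind_int (X Y H : ℝ) (n : ℕ) : IntervalIntegrable (fun x => ind H n x) volume X Y := by
  have := prod_ind_intble X Y H (fun _ : Fin 1 => n)
  simpa using this

lemma sw_int (N : ℕ) (H X Y : ℝ) : IntervalIntegrable (fun x => sw N H x) volume X Y := by
  unfold sw
  have := IntervalIntegrable.sum (μ := volume) (a := X) (b := Y) (SN N)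
    (f := fun n x => ind H n x) fun n _ => ind_int X Y H n
  have e : (fun x => ∑ n ∈ SN N, ind H n x) = ∑ n ∈ SN N, fun x => ind H n x := by
    funext x; simp
  rw [e]
  exact this

/-- the mean of the number of the squarefree integers -/
lemma sw_mean {X : ℝ} (hX : 0 < X) (N : ℕ) (H : ℝ) :
    (1 / X) * ∫ x in X..2 * X, sw N H x = dg X H N := by
  classical
  unfold sw dg
  rw [intervalIntegral.integral_finsetSum fun n _ => ind_int X (2 * X) H n]
  congr 1
  unfold SN
  refine sum_congr rfl fun n _ => ?_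
  rw [← int_ind X H hX.le]
  congr 1
  funext x
  rw [← sq, ind_sq]

/-- the mean deviation of the number of the squarefree integers -/
theorem sw_dev (η : ℝ) (hη : 0 < η) : ∃ X₀ : ℝ, 1 ≤ X₀ ∧ ∀ (X H : ℝ) (N : ℕ), X₀ ≤ X →
    X₀ ≤ H → H ≤ X → 3 * X ≤ N →
    (1 / X) * ∫ x in X..2 * X, |sw N H x - 6 / Real.pi ^ 2 * H| ≤ η * H := by
  obtain ⟨C1, hC1, h1⟩ := sw_upper (η / 6) (by linarith)
  obtain ⟨C2, hC2, h2⟩ := dg_bound (1 / 4) (by norm_num) (by norm_num)
  obtain ⟨X₁, hX₁⟩ : ∃ X₁ : ℝ, ∀ X : ℝ, X₁ ≤ X → 3 * C2 / η ≤ X ^ (1 / 4 : ℝ) :=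
    Filter.eventually_atTop.1 ((tendsto_rpow_atTop (by norm_num : (0 : ℝ) < 1 / 4)).eventually_ge_atTop _)
  refine ⟨max 1 (max X₁ (6 * C1 / η)), le_max_left _ _, fun X H N hX hHl hHX hN => ?_⟩
  have hX1 : 1 ≤ X := (le_max_left _ _).trans hX
  have hXa : X₁ ≤ X := ((le_max_left _ _).trans (le_max_right _ _)).trans hX
  have hH1 : 1 ≤ H := (le_max_left _ _).trans hHl
  have hHb : 6 * C1 / η ≤ H := ((le_max_right _ _).trans (le_max_right _ _)).trans hHl
  have hX0 : 0 < X := by linarith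
  have hH0 : 0 < H := by linarith
  have hpt : ∀ x, |sw N H x - 6 / Real.pi ^ 2 * H| ≤
      2 * (η / 6 * H + C1) - (sw N H x - 6 / Real.pi ^ 2 * H) := by
    intro x
    have := h1 N H x hH0.le
    have h3 : 0 ≤ η / 6 * H + C1 := by positivity
    rw [abs_le]
    constructor
    · linarith
    · linarith
  have hint := sw_int N H X (2 * X)
  have e1 : ∫ x in X..2 * X, |sw N H x - 6 / Real.pi ^ 2 * H| ≤
      ∫ x in X..2 * X, (2 * (η / 6 * H + C1) - (sw N H x - 6 / Real.pi ^ 2 * H)) := by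
    refine intervalIntegral.integral_mono_on (by linarith) ?_ ?_ fun x _ => hpt x
    · exact (hint.sub intervalIntegrable_const).abs
    · exact intervalIntegrable_const.sub (hint.sub intervalIntegrable_const)
  have e2 : (1 / X) * ∫ x in X..2 * X, (2 * (η / 6 * H + C1) - (sw N H x - 6 / Real.pi ^ 2 * H)) =
      2 * (η / 6 * H + C1) - (dg X H N - 6 / Real.pi ^ 2 * H) := by
    rw [← sw_mean hX0, intervalIntegral.integral_sub intervalIntegrable_const
      (hint.sub intervalIntegrable_const), intervalIntegral.integral_sub hint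
      intervalIntegrable_const, intervalIntegral.integral_const, intervalIntegral.integral_const,
      smul_eq_mul, smul_eq_mul]
    field_simp
    ring
  have e3 := h2 X H N hX1 hH0 hHX hN
  have e4 : C2 * (H * X ^ ((1 / 4 : ℝ) - 1 / 2)) ≤ η / 3 * H := by
    have g1 : X ^ ((1 / 4 : ℝ) - 1 / 2) = (X ^ (1 / 4 : ℝ))⁻¹ := by
      rw [← Real.rpow_neg hX0.le]; norm_num
    have g2 := hX₁ X hXa
    have g3 : 0 < X ^ (1 / 4 : ℝ) := by positivity
    rw [g1]
    have g4 : C2 * (X ^ (1 / 4 : ℝ))⁻¹ ≤ η / 3 := by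
      rw [← div_eq_mul_inv, div_le_iff₀ g3]
      rw [div_le_iff₀ hη] at g2
      linarith
    calc C2 * (H * (X ^ (1 / 4 : ℝ))⁻¹) = (C2 * (X ^ (1 / 4 : ℝ))⁻¹) * H := by ring
      _ ≤ _ := mul_le_mul_of_nonneg_right g4 hH0.le
  have e5 : C1 ≤ η / 6 * H := by
    rw [div_le_iff₀ hη] at hHb
    linarith
  have e6 := (abs_le.1 e3).1
  have e7 : (1 / X) * ∫ x in X..2 * X, |sw N H x - 6 / Real.pi ^ 2 * H| ≤
      2 * (η / 6 * H + C1) - (dg X H N - 6 / Real.pi ^ 2 * H) := by
    rw [← e2]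
    exact mul_le_mul_of_nonneg_left e1 (by positivity)
  linarith

end Pool.Agent.U585.GA
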