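import Pool.Agent.U585.GC.Bor
import Pool.Agent.U585.GA.Count

/-!
# The moments of the sums in windows as polynomials in the signs
-/

set_option autoImplicit false
set_option linter.unusedSectionVars false

open MeasureTheory Finset

namespace Pool.Agent.U585.GA

open Pool.Agent.U585.GC (rf MM ind PN mem_PN poly MM_eq wt wt_le int_ind ind_intble)

/-- the squarefree integers up to `N` -/
noncomputable def SN (N : ℕ) : Finset ℕ := open Classical in (Icc 1 N).filter (fun n => Squarefree n)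

/-- tuples of squarefree integers -/
noncomputable def TN (r N : ℕ) : Finset (Fin r → ℕ) := Fintype.piFinset fun _ => SN N

/-- the measure of the set of the `x` whose window contains all the entries -/
noncomputable def om {r : ℕ} (X H : ℝ) (n : Fin r → ℕ) : ℝ := ∫ x in X..2 * X, ∏ i, ind H (n i) x

/-- the primes dividing an odd number of the entries -/
def uo {r : ℕ} (N : ℕ) (n : Fin r → ℕ) : Finset ℕ :=
  (PN N).filter fun p => Odd (univ.filter (fun i => p ∣ n i)).card

/-- some value is taken an odd number of times -/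
def NE {r : ℕ} (n : Fin r → ℕ) : Prop := ∃ v : ℕ, Odd (univ.filter (fun i => n i = v)).card

lemma mem_SN {N n : ℕ} : n ∈ SN N ↔ 1 ≤ n ∧ n ≤ N ∧ Squarefree n := by
  classical
  unfold SN
  rw [mem_filter, mem_Icc]
  tauto

lemma ind_nonneg (H : ℝ) (n : ℕ) (x : ℝ) : 0 ≤ ind H n x := by
  unfold ind
  exact Set.indicator_nonneg (fun _ _ => zero_le_one) _

lemma ind_le_one (H : ℝ) (n : ℕ) (x : ℝ) : ind H n x ≤ 1 := by
  unfold ind
  refine Set.indicator_le' (fun _ _ => le_rfl) (fun _ _ => zero_le_one) _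

lemma ind_meas (H : ℝ) (n : ℕ) : Measurable (ind H n) :=
  measurable_const.indicator measurableSet_Ioo

lemma prod_ind_intble {r : ℕ} (X Y H : ℝ) (n : Fin r → ℕ) :
    IntervalIntegrable (fun x => ∏ i, ind H (n i) x) volume X Y := by
  refine (intervalIntegrable_const (c := (1 : ℝ))).mono_fun
    (Finset.measurable_prod _ fun i _ => ind_meas H (n i)).aestronglyMeasurable
    (ae_of_all _ fun x => ?_)
  beta_reduce
  rw [Real.norm_of_nonneg (prod_nonneg fun i _ => ind_nonneg H (n i) x), norm_one]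
  exact prod_le_one (fun i _ => ind_nonneg _ _ _) fun i _ => ind_le_one _ _ _

lemma om_nonneg {r : ℕ} {X : ℝ} (hX : 0 ≤ X) (H : ℝ) (n : Fin r → ℕ) : 0 ≤ om X H n :=
  intervalIntegral.integral_nonneg (by linarith) fun x _ =>
    prod_nonneg fun i _ => ind_nonneg _ _ _

lemma om_le {r : ℕ} (hr : 1 ≤ r) {X H : ℝ} (hX : 0 ≤ X) (hH : 0 ≤ H) (n : Fin r → ℕ) :
    om X H n ≤ H := by
  have i₀ : Fin r := ⟨0, by omega⟩
  refine le_trans ?_ (wt_le (X := X) hH (n i₀) (n i₀))
  rw [← int_ind X H hX]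
  refine intervalIntegral.integral_mono_on (by linarith) (prod_ind_intble _ _ _ _)
    (ind_intble X H _ _) fun x _ => ?_
  have h1 : ind H (n i₀) x * ind H (n i₀) x = ind H (n i₀) x := by
    unfold ind
    by_cases h : x ∈ Set.Ioo ((n i₀ : ℝ) - H / 2) (n i₀ + H / 2)
    · rw [Set.indicator_of_mem h]; norm_num
    · rw [Set.indicator_of_notMem h]; norm_num
  rw [h1, ← mul_prod_erase univ (fun i => ind H (n i) x) (mem_univ i₀)]
  exact mul_le_of_le_one_right (ind_nonneg _ _ _)
    (prod_le_one (fun i _ => ind_nonneg _ _ _) fun i _ => ind_le_one _ _ _)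

lemma om_pos {r : ℕ} {X H : ℝ} (hX : 0 ≤ X) {n : Fin r → ℕ} (h : 0 < om X H n) :
    ∃ x, X ≤ x ∧ x ≤ 2 * X ∧ ∀ i, |(n i : ℝ) - x| < H / 2 := by
  by_contra hcon
  push Not at hcon
  have h1 : om X H n = 0 := by
    unfold om
    have : ∫ x in X..2 * X, ∏ i, ind H (n i) x = ∫ _x in X..2 * X, (0 : ℝ) := by
      refine intervalIntegral.integral_congr fun x hx => ?_
      rw [Set.uIcc_of_le (by linarith)] at hx
      obtain ⟨i, hi⟩ := hcon x hx.1 hx.2
      refine prod_eq_zero (mem_univ i) ?_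
      unfold ind
      refine Set.indicator_of_notMem (fun hm => ?_) _
      exact absurd ((Pool.Agent.U585.GC.mem_win H (n i) x).2 hm) (not_lt.2 hi)
    rw [this]
    simp
  rw [h1] at h
  exact absurd h (lt_irrefl _)

/-- the product of the values at the entries -/
lemma prod_rf {r N : ℕ} {s : ℕ → ℝ} (hs : ∀ p, s p = 1 ∨ s p = -1) {n : Fin r → ℕ}
    (hn : n ∈ TN r N) : ∏ i, rf s (n i) = ∏ p ∈ uo N n, s p := by
  unfold TN at hn
  rw [Fintype.mem_piFinset] at hn
  have h1 : ∀ i, rf s (n i) = ∏ p ∈ PN N, if p ∣ n i then s p else 1 := by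
    intro i
    have hi := mem_SN.1 (hn i)
    unfold rf
    rw [if_pos hi.2.2, ← prod_filter]
    refine prod_congr ?_ fun _ _ => rfl
    ext p
    rw [mem_filter, mem_PN, Nat.mem_primeFactors]
    constructor
    · rintro ⟨h2, h3, _⟩
      exact ⟨⟨h2, (Nat.le_of_dvd (by omega) h3).trans hi.2.1⟩, h3⟩
    · rintro ⟨⟨h2, _⟩, h3⟩
      exact ⟨h2, h3, by omega⟩
  simp_rw [h1]
  rw [prod_comm]
  unfold uo
  rw [prod_filter]
  refine prod_congr rfl fun p _ => ?_
  rw [← prod_filter, prod_const]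
  have hs2 : s p ^ 2 = 1 := by rcases hs p with h | h <;> rw [h] <;> norm_num
  rcases Nat.even_or_odd (univ.filter (fun i => p ∣ n i)).card with h | h
  · rw [if_neg (Nat.not_odd_iff_even.2 h)]
    obtain ⟨j, hj⟩ := h
    rw [hj, ← two_mul, pow_mul, hs2, one_pow]
  · rw [if_pos h]
    obtain ⟨j, hj⟩ := h
    rw [hj, pow_succ, pow_mul, hs2, one_pow, one_mul]

open Classical in
/-- the polynomial in the signs -/
noncomputable def De (X H : ℝ) (r N : ℕ) (s : ℕ → ℝ) : ℝ :=
  ∑ n ∈ (TN r N).filter (fun n => NE n), om X H n / X * ∏ p ∈ uo N n, s p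

open Classical in
/-- the part of the moment without cancellation -/
noncomputable def m0 (X H : ℝ) (r N : ℕ) : ℝ :=
  ∑ n ∈ (TN r N).filter (fun n => ¬ NE n), om X H n / X

open Classical in
/-- the coefficients of the polynomial -/
noncomputable def ac (X H : ℝ) (r N : ℕ) (U : Finset ℕ) : ℝ :=
  ∑ n ∈ ((TN r N).filter (fun n => NE n)).filter (fun n => uo N n = U), om X H n / X

/-- the moments -/
noncomputable def mr (s : ℕ → ℝ) (X H : ℝ) (r : ℕ) : ℝ := (1 / X) * ∫ x in X..2 * X, MM s x H ^ r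

lemma uo_sub {r N : ℕ} (n : Fin r → ℕ) : uo N n ∈ (PN N).powerset := by
  rw [mem_powerset]; exact filter_subset _ _

lemma De_eq (X H : ℝ) (r N : ℕ) (s : ℕ → ℝ) : De X H r N s = poly (PN N) (ac X H r N) s := by
  classical
  unfold De poly
  rw [← sum_fiberwise_of_maps_to (t := (PN N).powerset) (g := fun n : Fin r → ℕ => uo N n)
    (fun n _ => uo_sub n)]
  refine sum_congr rfl fun U _ => ?_
  unfold ac
  rw [sum_mul]
  refine sum_congr rfl fun n hn => ?_
  rw [mem_filter] at hn
  rw [hn.2]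

lemma MM_sum (s : ℕ → ℝ) {x X H : ℝ} {N : ℕ} (hx : x ≤ 2 * X) (hH : 0 < H) (hHX : H ≤ X)
    (hN : 3 * X ≤ N) : MM s x H = ∑ n ∈ SN N, rf s n * ind H n x := by
  classical
  rw [MM_eq s hx hH hHX hN]
  unfold SN
  refine (sum_filter_of_ne fun n _ hn => ?_).symm
  by_contra hns
  apply hn
  unfold rf
  rw [if_neg hns, zero_mul]

/-- a tuple whose values are all taken an even number of times -/
lemma uo_of_not_NE {r N : ℕ} {n : Fin r → ℕ} (hn : ¬ NE n) : uo N n = ∅ := by
  unfold uo
  rw [filter_eq_empty_iff]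
  intro p _
  rw [Nat.not_odd_iff_even]
  have h1 : (univ.filter (fun i => p ∣ n i)).card =
      ∑ v ∈ (univ.image n).filter (fun v => p ∣ v), (univ.filter (fun i => n i = v)).card := by
    rw [card_eq_sum_card_fiberwise (f := n) (t := (univ.image n).filter (fun v => p ∣ v))]
    · refine sum_congr rfl fun v hv => ?_
      rw [mem_filter] at hv
      congr 1
      ext i
      simp only [mem_filter, mem_univ, true_and]
      constructor
      · rintro ⟨_, h⟩; exact h
      · intro h; exact ⟨h ▸ hv.2, h⟩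
    · intro i hi
      rw [mem_coe, mem_filter] at hi
      rw [mem_coe, mem_filter]
      exact ⟨mem_image_of_mem n (mem_univ i), hi.2⟩
  rw [h1]
  refine Finset.even_sum _ fun v _ => ?_
  unfold NE at hn
  push Not at hn
  exact Nat.not_odd_iff_even.1 (hn v)

/-- the moments -/
theorem mr_eq {s : ℕ → ℝ} (hs : ∀ p, s p = 1 ∨ s p = -1) {X H : ℝ} {N : ℕ} (r : ℕ) (hX : 0 < X)
    (hH : 0 < H) (hHX : H ≤ X) (hN : 3 * X ≤ N) :
    mr s X H r = De X H r N s + m0 X H r N := by
  classical
  have h1 : ∫ x in X..2 * X, MM s x H ^ r =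
      ∫ x in X..2 * X, ∑ n ∈ TN r N, (∏ i, rf s (n i)) * ∏ i, ind H (n i) x := by
    refine intervalIntegral.integral_congr fun x hx => ?_
    rw [Set.uIcc_of_le (by linarith)] at hx
    rw [MM_sum s hx.2 hH hHX hN]
    have h2 : (∑ n ∈ SN N, rf s n * ind H n x) ^ r =
        ∏ _i : Fin r, ∑ n ∈ SN N, rf s n * ind H n x := by
      rw [prod_const, card_univ, Fintype.card_fin]
    rw [h2, prod_univ_sum]
    unfold TN
    refine sum_congr rfl fun n _ => ?_
    rw [prod_mul_distrib]
  unfold mr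
  rw [h1, intervalIntegral.integral_finsetSum]
  · have h3 : ∑ n ∈ TN r N, ∫ x in X..2 * X, (∏ i, rf s (n i)) * ∏ i, ind H (n i) x =
        ∑ n ∈ TN r N, (∏ p ∈ uo N n, s p) * om X H n := by
      refine sum_congr rfl fun n hn => ?_
      rw [intervalIntegral.integral_const_mul, prod_rf hs hn]
      rfl
    rw [h3, ← sum_filter_add_sum_filter_not (TN r N) (fun n => NE n), mul_add]
    unfold De m0
    congr 1
    · rw [mul_sum]
      exact sum_congr rfl fun n _ => by ring
    · rw [mul_sum]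
      refine sum_congr rfl fun n hn => ?_
      rw [mem_filter] at hn
      rw [uo_of_not_NE hn.2, prod_empty]
      ring
  · intro n _
    exact (prod_ind_intble _ _ _ _).const_mul _

lemma prod_diff {ι : Type} (S : Finset ι) {a b : ι → ℝ} (ha : ∀ i, 0 ≤ a i) (hab : ∀ i, a i ≤ b i)
    (hb : ∀ i, b i ≤ 1) : (∏ i ∈ S, b i) - ∏ i ∈ S, a i ≤ ∑ i ∈ S, (b i - a i) := by
  classical
  induction S using Finset.induction_on with
  | empty => simp
  | insert j S hj ih =>
    rw [prod_insert hj, prod_insert hj, sum_insert hj]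
    have h1 : 0 ≤ (∏ i ∈ S, b i) - ∏ i ∈ S, a i :=
      sub_nonneg.2 (prod_le_prod (fun i _ => ha i) fun i _ => hab i)
    have h2 : ∏ i ∈ S, a i ≤ 1 := prod_le_one (fun i _ => ha i) fun i _ => (hab i).trans (hb i)
    have h3 : 0 ≤ ∏ i ∈ S, a i := prod_nonneg fun i _ => ha i
    have h4 : b j * ((∏ i ∈ S, b i) - ∏ i ∈ S, a i) ≤ (∏ i ∈ S, b i) - ∏ i ∈ S, a i :=
      mul_le_of_le_one_left h1 (hb j)
    have h5 : (b j - a j) * ∏ i ∈ S, a i ≤ b j - a j :=
      mul_le_of_le_one_right (sub_nonneg.2 (hab j)) h2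
    calc b j * ∏ i ∈ S, b i - a j * ∏ i ∈ S, a i =
        b j * ((∏ i ∈ S, b i) - ∏ i ∈ S, a i) + (b j - a j) * ∏ i ∈ S, a i := by ring
      _ ≤ _ := by linarith

lemma ind_mono {H H' : ℝ} (hHH : H ≤ H') (n : ℕ) (x : ℝ) : ind H n x ≤ ind H' n x := by
  unfold ind
  refine Set.indicator_le_indicator_of_subset ?_ (fun _ => zero_le_one) x
  exact Set.Ioo_subset_Ioo (by linarith) (by linarith)

lemma om_lip_H {r : ℕ} {X H H' : ℝ} (hX : 0 ≤ X) (hHH : H ≤ H') (n : Fin r → ℕ) :
    |om X H n - om X H' n| ≤ r * |H - H'| := by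
  rw [abs_sub_comm]
  unfold om
  rw [← intervalIntegral.integral_sub (prod_ind_intble _ _ _ _) (prod_ind_intble _ _ _ _)]
  have h0 : 0 ≤ ∫ x in X..2 * X, ((∏ i, ind H' (n i) x) - ∏ i, ind H (n i) x) :=
    intervalIntegral.integral_nonneg (by linarith) fun x _ =>
      sub_nonneg.2 (prod_le_prod (fun i _ => ind_nonneg _ _ _) fun i _ => ind_mono hHH _ _)
  rw [abs_of_nonneg h0]
  have hint : ∀ i : Fin r, IntervalIntegrable (fun x => ind H' (n i) x - ind H (n i) x) volume X
      (2 * X) := by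
    intro i
    have h1 : ∀ K : ℝ, IntervalIntegrable (fun x => ind K (n i) x) volume X (2 * X) := by
      intro K
      have := prod_ind_intble X (2 * X) K (fun _ : Fin 1 => n i)
      simpa using this
    exact (h1 H').sub (h1 H)
  have h1 : ∫ x in X..2 * X, ((∏ i, ind H' (n i) x) - ∏ i, ind H (n i) x) ≤
      ∫ x in X..2 * X, ∑ i, (ind H' (n i) x - ind H (n i) x) := by
    refine intervalIntegral.integral_mono_on (by linarith)
      ((prod_ind_intble _ _ _ _).sub (prod_ind_intble _ _ _ _)) ?_ fun x _ => ?_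
    · have := IntervalIntegrable.sum (μ := volume) (a := X) (b := 2 * X) univ
        (f := fun (i : Fin r) x => ind H' (n i) x - ind H (n i) x) fun i _ => hint i
      have e : (fun x => ∑ i : Fin r, (ind H' (n i) x - ind H (n i) x)) =
          ∑ i : Fin r, fun x => ind H' (n i) x - ind H (n i) x := by
        funext x; simp
      rw [e]
      exact this
    · exact prod_diff univ (fun i => ind_nonneg _ _ _) (fun i => ind_mono hHH _ _)
        fun i => ind_le_one _ _ _
  refine h1.trans ?_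
  rw [intervalIntegral.integral_finsetSum fun i _ => hint i]
  have h2 : ∀ i : Fin r, ∫ x in X..2 * X, (ind H' (n i) x - ind H (n i) x) ≤ |H - H'| := by
    intro i
    have e1 : ∀ K x, ind K (n i) x = ind K (n i) x * ind K (n i) x := by
      intro K x
      unfold ind
      by_cases h : x ∈ Set.Ioo ((n i : ℝ) - K / 2) (n i + K / 2)
      · rw [Set.indicator_of_mem h]; norm_num
      · rw [Set.indicator_of_notMem h]; norm_num
    have e2 : ∫ x in X..2 * X, (ind H' (n i) x - ind H (n i) x) =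
        wt X H' (n i) (n i) - wt X H (n i) (n i) := by
      rw [← int_ind X H' hX, ← int_ind X H hX,
        ← intervalIntegral.integral_sub (ind_intble _ _ _ _) (ind_intble _ _ _ _)]
      refine intervalIntegral.integral_congr fun x _ => ?_
      beta_reduce
      rw [← e1, ← e1]
    rw [e2]
    have := Pool.Agent.U585.GC.wt_lip X H' X H (n i) (n i)
    rw [sub_self, abs_zero, mul_zero, zero_add, abs_sub_comm H' H] at this
    exact (le_abs_self _).trans this
  refine (sum_le_sum fun i _ => h2 i).trans (le_of_eq ?_)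
  rw [sum_const, card_univ, Fintype.card_fin, nsmul_eq_mul]

lemma om_lip_X {r : ℕ} {X X' H : ℝ} (n : Fin r → ℕ) :
    |om X H n - om X' H n| ≤ 3 * |X - X'| := by
  unfold om
  have hF : ∀ x, ‖∏ i, ind H (n i) x‖ ≤ 1 := by
    intro x
    rw [Real.norm_of_nonneg (prod_nonneg fun i _ => ind_nonneg H (n i) x)]
    exact prod_le_one (fun i _ => ind_nonneg _ _ _) fun i _ => ind_le_one _ _ _
  rw [intervalIntegral.integral_interval_sub_interval_comm (prod_ind_intble _ _ _ _)
    (prod_ind_intble _ _ _ _) (prod_ind_intble _ _ _ _)]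
  have h1 := intervalIntegral.norm_integral_le_of_norm_le_const (a := X) (b := X')
    (f := fun x => ∏ i, ind H (n i) x) (C := 1) fun x _ => hF x
  have h2 := intervalIntegral.norm_integral_le_of_norm_le_const (a := 2 * X) (b := 2 * X')
    (f := fun x => ∏ i, ind H (n i) x) (C := 1) fun x _ => hF x
  have e : |2 * X' - 2 * X| = 2 * |X - X'| := by
    rw [← mul_sub, abs_mul, abs_sub_comm]; norm_num
  rw [Real.norm_eq_abs, one_mul, abs_sub_comm X' X] at h1
  rw [Real.norm_eq_abs, one_mul, e] at h2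
  refine (abs_sub _ _).trans ?_
  linarith

/-- Lipschitz dependence of the weights -/
lemma om_lip {r : ℕ} {X X' H H' : ℝ} (hX : 0 ≤ X) (hHH : H' ≤ H) (n : Fin r → ℕ) :
    |om X H n - om X' H' n| ≤ 3 * |X - X'| + r * |H - H'| := by
  have h1 := om_lip_H hX hHH n
  have h2 := om_lip_X (X := X) (X' := X') (H := H') n
  have h3 := abs_sub_le (om X H n) (om X H' n) (om X' H' n)
  rw [abs_sub_comm, abs_sub_comm H' H] at h1
  linarith

end Pool.Agent.U585.GA
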